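import Pool.Agent.P.MP_029dcd_co.F.R.Gen

/-! Layer R: passing to the tangent system and back. -/

set_option autoImplicit false

namespace ECub.R

open CubicStab MeasureTheory Filter Topology Finset
open scoped ENNReal

variable {S : Sys} {Λ : (ℝ × ℝ) ≃L[ℝ] (ℝ × ℝ)} {A : Set (S.Ω × ℕ)} {n : ℕ}
  {ν : S.Ω × ℕ → E n} {τ : Tan S Λ A ν 1} {ω : S.Ω} {𝒰 : Ultrafilter ℕ} {hu : ℕ → Lb → H n}

/-- a continuous function with values in the unit interval -/
noncomputable def lim_mk {X : Type} [TopologicalSpace X] (f : X → ℝ) (hf : Continuous f)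
    (h0 : ∀ d, 0 ≤ f d) (h1 : ∀ d, f d ≤ 1) : BoundedContinuousFunction X ℝ :=
  BoundedContinuousFunction.ofNormedAddCommGroup f hf 1 fun x => by
    rw [Real.norm_eq_abs, abs_le]
    exact ⟨by linarith [h0 x], h1 x⟩

theorem lim_mk_apply {X : Type} [TopologicalSpace X] (f : X → ℝ) (hf : Continuous f)
    (h0 : ∀ d, 0 ≤ f d) (h1 : ∀ d, f d ≤ 1) (x : X) : lim_mk f hf h0 h1 x = f x := rfl

theorem lim_card_box (m : ℕ) : ((box 0 m).card : ℝ) = (2 * m + 1) ^ 2 := by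
  have h : (Icc ((0 : ℤ) - m) (0 + m)).card = 2 * m + 1 := by
    rw [Int.card_Icc]
    omega
  unfold box
  rw [Finset.card_product]
  simp only [Prod.fst_zero, Prod.snd_zero]
  rw [h]
  push_cast
  ring

theorem lim_h0 (hτ : τ.Of ω 𝒰 hu) (h0 : ∀ u l, (hu u l).1 0 = 0) (i : Fin 3) :
    ∀ᵐ d ∂(τ.nm i), d.2.2.1 0 = 0 := by
  have := τ.nm_fin i
  have hc : Continuous fun d : Dt n => min 1 |d.2.2.1 0| := by fun_prop
  have h := hτ.p4 i (lim_mk (fun d : Dt n => min 1 |d.2.2.1 0|) hc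
    (fun d => le_min zero_le_one (abs_nonneg _)) fun d => min_le_left _ _)
  simp only [lim_mk_apply, h0, abs_zero, zero_le_one, min_eq_right, Finset.sum_const_zero,
    zero_div] at h
  have h2 := tendsto_nhds_unique h tendsto_const_nhds
  have hi : Integrable (fun d : Dt n => min 1 |d.2.2.1 0|) (τ.nm i) :=
    (lim_mk (fun d : Dt n => min 1 |d.2.2.1 0|) hc
      (fun d => le_min zero_le_one (abs_nonneg _)) fun d => min_le_left _ _).integrable (τ.nm i)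
  rw [integral_eq_zero_iff_of_nonneg (fun d => le_min zero_le_one (abs_nonneg _)) hi] at h2
  filter_upwards [h2] with d hd
  have hd' : min 1 |d.2.2.1 0| = 0 := hd
  rcases min_eq_iff.1 hd' with h3 | h3
  · exact absurd h3.1 one_ne_zero
  · exact abs_eq_zero.1 h3.1

open Classical in
/-- few lines are far from the trivial deformation of the limit -/
theorem lim_few (hτ : τ.Of ω 𝒰 hu) (h𝒰 : (𝒰 : Filter ℕ) ≤ atTop)
    (hR : ∀ᶠ u : ℕ in atTop, 0 < (S.Γ ω).R u) (γ : H n →ₗ[ℝ] H n) (i : Fin 3)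
    (hγ : ∀ᵐ d ∂(τ.nm i), (∃ x : ℝ, (x, d.2.1 + d.1 1 * x) ∈ Q (19 / 20)) →
      d.2.2 = triv γ (d.1, d.2.1)) (e δ : ℝ) (he : 0 < e) (hδ : 0 < δ) :
    ∀ᶠ u : ℕ in (𝒰 : Filter ℕ),
      (((S.lnsA A ω i (3 * (S.Γ ω).R u)).filter fun l =>
        |(S.Γ ω).s l| ≤ small i * (S.Γ ω).R u ∧
          e < ‖hu u l - triv γ (S.ev ν ω l, (S.Γ ω).s l / (S.Γ ω).R u)‖).card : ℝ) ≤ δ * u := by
  have hct := continuous_triv γ
  set f : Dt n → ℝ := fun d => max 0 (min 1 (20 * (mid i - |d.2.1|))) *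
    min 1 (‖d.2.2 - triv γ (d.1, d.2.1)‖ / e) with hf
  have hc : Continuous f := by
    rw [hf]
    fun_prop
  have hf0 : ∀ d, 0 ≤ f d := fun d =>
    mul_nonneg (le_max_left _ _) (le_min zero_le_one (div_nonneg (norm_nonneg _) he.le))
  have hf1 : ∀ d, f d ≤ 1 := fun d =>
    mul_le_one₀ (max_le zero_le_one (min_le_left _ _))
      (le_min zero_le_one (div_nonneg (norm_nonneg _) he.le)) (min_le_left _ _)
  have h := hτ.p4 i (lim_mk f hc hf0 hf1)
  simp only [lim_mk_apply, mul_one] at h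
  have hz : ∫ d, f d ∂(τ.nm i) = 0 := by
    apply integral_eq_zero_of_ae
    obtain ⟨B, hB⟩ := τ.nm_supp
    filter_upwards [hγ, hB i] with d hd hd2
    by_cases hm : |d.2.1| ≤ mid i
    · have h3 := hd (meet_mid hd2.2.2.1 hm)
      have h4 : d.2.2 - triv γ (d.1, d.2.1) = 0 := sub_eq_zero.2 h3
      simp only [hf, h4, norm_zero, zero_div, zero_le_one, min_eq_right, mul_zero, Pi.zero_apply]
    · have h3 : min 1 (20 * (mid i - |d.2.1|)) ≤ 0 :=
        (min_le_right _ _).trans (by linarith [not_le.1 hm])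
      simp only [hf, max_eq_left h3, zero_mul, Pi.zero_apply]
  rw [hz] at h
  have h1 := h.eventually (gt_mem_nhds hδ)
  filter_upwards [h1, h𝒰 hR, h𝒰 (eventually_gt_atTop 0)] with u hu1 hu2 hu3
  have hu2' : 0 < (S.Γ ω).R u := hu2
  have hu4 : (0 : ℝ) < u := by exact_mod_cast hu3
  rw [div_lt_iff₀ hu4] at hu1
  refine le_trans ?_ hu1.le
  rw [Finset.card_eq_sum_ones, Nat.cast_sum]
  refine le_trans (Finset.sum_le_sum ?_) (Finset.sum_le_sum_of_subset_of_nonneg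
    (Finset.filter_subset _ _) fun l _ _ => hf0 _)
  intro l hl
  obtain ⟨-, h5, h6⟩ := Finset.mem_filter.1 hl
  have h7 : |(S.Γ ω).s l / (S.Γ ω).R u| ≤ small i := by
    rw [abs_div, abs_of_pos hu2', div_le_iff₀ hu2']
    exact h5
  have h8 : (1 : ℝ) ≤ 20 * (mid i - |(S.Γ ω).s l / (S.Γ ω).R u|) := by
    linarith [small_add_le_mid i]
  have h9 : (1 : ℝ) ≤ ‖hu u l - triv γ (S.ev ν ω l, (S.Γ ω).s l / (S.Γ ω).R u)‖ / e := by
    rw [le_div_iff₀ he]
    linarith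
  simp only [hf, min_eq_left h8, min_eq_left h9, zero_le_one, max_eq_right, mul_one,
    Nat.cast_one, le_refl]

open Classical in
theorem lim_aux (hτ : τ.Of ω 𝒰 hu) (h𝒰 : (𝒰 : Filter ℕ) ≤ atTop) (hL : (S.Γ ω).Lin Λ) {B : ℝ}
    (hB : ∀ x, ‖ν x‖ ≤ B) (hb : ∀ u l, ‖hu u l‖ ≤ 1)
    (hfew : ∀ δ : ℝ, 0 < δ → ∀ᶠ u : ℕ in atTop,
      (((cellsQ Λ 1 u).filter fun w => S.T w ω ∈ S.TA A ∧
        ¬ XiRel (fun i => S.ev ν ω ((S.Γ ω).tlab w i)) (((S.Γ ω).v w).1 / (S.Γ ω).R u)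
          fun i => hu u ((S.Γ ω).tlab w i)).card : ℝ) ≤ δ * (u : ℝ) ^ 2)
    (Φ Ψ : (Fin 3 → E n × H n) × (ℝ × ℝ) → ℝ) (hΦ : Continuous Φ) (hΨ : Continuous Ψ)
    (hrel : ∀ (y : Fin 3 → E n × H n) (X : ℝ × ℝ) (a : ℝ),
      XiRel (fun i => (y i).1) a (fun i => (y i).2) → Φ (y, X) = (X.1 - a) * Ψ (y, X)) :
    ∀ᵐ x ∂τ.D.μ, τ.π x ∈ S.TA A →
      Φ (fun i => (ν (S.tx (τ.π x) i), τ.h (x, (S.Γ (τ.π x)).tl 0 i)), τ.X x) = 0 := by
  apply hτ.p3 Φ hΦ
  refine Tendsto.mono_left ?_ h𝒰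
  have hK : IsCompact (Metric.closedBall (0 : (Fin 3 → E n × H n) × (ℝ × ℝ)) (max B 1)) :=
    isCompact_closedBall _ _
  obtain ⟨M1, hM1⟩ := hK.exists_bound_of_continuousOn hΦ.continuousOn
  obtain ⟨M2, hM2⟩ := hK.exists_bound_of_continuousOn hΨ.continuousOn
  obtain ⟨A1, hA1⟩ := cellsQ_sub Λ
  set M : ℝ := max (max M1 M2) 0 with hM
  have hM0 : 0 ≤ M := le_max_right _ _
  have hM1' : M1 ≤ M := le_trans (le_max_left _ _) (le_max_left _ _)
  have hM2' : M2 ≤ M := le_trans (le_max_right _ _) (le_max_left _ _)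
  rw [Metric.tendsto_atTop']
  intro ε' hε'
  set c : ℝ := ((2 * A1 + 1) ^ 2 + 1) * M + 1 with hc
  have hc0 : 0 < c := by positivity
  have hε : 0 < ε' / c := div_pos hε' hc0
  set ε := ε' / c with hεd
  have hev := (cellsQ_near hL ε hε).and (hfew ε hε)
  obtain ⟨N, hN⟩ := eventually_atTop.1 hev
  refine ⟨N, fun u hu' => ?_⟩
  obtain ⟨⟨hR, hnear⟩, hbad⟩ := hN u hu'.le
  have hu1 : (1 : ℝ) ≤ u := by
    have : 1 ≤ u := by omega
    exact_mod_cast this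
  have hu2 : (0 : ℝ) < (u : ℝ) ^ 2 := by positivity
  rw [Real.dist_eq, sub_zero, abs_of_nonneg (div_nonneg
    (Finset.sum_nonneg fun w _ => abs_nonneg _) hu2.le), div_lt_iff₀ hu2]
  have hmem : ∀ w ∈ cellsQ Λ 1 u,
      ((fun i => (S.ev ν ω ((S.Γ ω).tlab w i), hu u ((S.Γ ω).tlab w i)),
        Λ ((w.1 : ℝ) / u, (w.2 : ℝ) / u)) : (Fin 3 → E n × H n) × (ℝ × ℝ)) ∈
        Metric.closedBall (0 : (Fin 3 → E n × H n) × (ℝ × ℝ)) (max B 1) := by
    intro w hw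
    rw [mem_closedBall_zero_iff, Prod.norm_def]
    apply max_le
    · rw [pi_norm_le_iff_of_nonneg (le_trans zero_le_one (le_max_right _ _))]
      intro i
      rw [Prod.norm_def]
      exact max_le_max (hB _) (hb _ _)
    · have hq : Λ ((w.1 : ℝ) / u, (w.2 : ℝ) / u) ∈ Q 1 := (Finset.mem_filter.1 hw).2
      obtain ⟨⟨h1, h2⟩, h3, h4⟩ := hq
      refine le_trans ?_ (le_max_right _ _)
      rw [Prod.norm_def]
      apply max_le
      · rw [Real.norm_eq_abs, abs_le]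
        exact ⟨h1.le, h2.le⟩
      · rw [Real.norm_eq_abs, abs_le]
        exact ⟨h3.le, h4.le⟩
  have hterm : ∀ w ∈ (cellsQ Λ 1 u).filter (fun w => S.T w ω ∈ S.TA A),
      |Φ (fun i => (S.ev ν ω ((S.Γ ω).tlab w i), hu u ((S.Γ ω).tlab w i)),
        Λ ((w.1 : ℝ) / u, (w.2 : ℝ) / u))| ≤ ε * M +
        if ¬ XiRel (fun i => S.ev ν ω ((S.Γ ω).tlab w i)) (((S.Γ ω).v w).1 / (S.Γ ω).R u)
          (fun i => hu u ((S.Γ ω).tlab w i)) then M else 0 := by
    intro w hw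
    have hw1 := (Finset.mem_filter.1 hw).1
    have hεM : 0 ≤ ε * M := mul_nonneg hε.le hM0
    by_cases hx : XiRel (fun i => S.ev ν ω ((S.Γ ω).tlab w i))
        (((S.Γ ω).v w).1 / (S.Γ ω).R u) (fun i => hu u ((S.Γ ω).tlab w i))
    · rw [if_neg (not_not.2 hx), add_zero, hrel _ _ _ hx, abs_mul]
      refine mul_le_mul ?_ ?_ (abs_nonneg _) hε.le
      · rw [abs_sub_comm]
        exact (hnear w hw1).1
      · have := hM2 _ (hmem w hw1)
        rw [Real.norm_eq_abs] at this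
        exact this.trans hM2'
    · rw [if_pos hx]
      have := hM1 _ (hmem w hw1)
      rw [Real.norm_eq_abs] at this
      linarith
  refine lt_of_le_of_lt (Finset.sum_le_sum hterm) ?_
  rw [Finset.sum_add_distrib, Finset.sum_const, ← Finset.sum_filter, Finset.sum_const,
    Finset.filter_filter, nsmul_eq_mul, nsmul_eq_mul]
  have hcard : (((cellsQ Λ 1 u).filter (fun w => S.T w ω ∈ S.TA A)).card : ℝ) ≤
      (2 * A1 + 1) ^ 2 * (u : ℝ) ^ 2 := by
    have h1 : ((cellsQ Λ 1 u).filter (fun w => S.T w ω ∈ S.TA A)).card ≤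
        (box 0 (A1 * u)).card :=
      Finset.card_le_card ((Finset.filter_subset _ _).trans (hA1 u))
    have h2 : (((cellsQ Λ 1 u).filter (fun w => S.T w ω ∈ S.TA A)).card : ℝ) ≤
        ((box 0 (A1 * u)).card : ℝ) := by exact_mod_cast h1
    rw [lim_card_box] at h2
    refine h2.trans ?_
    rw [← mul_pow]
    apply pow_le_pow_left₀ (by positivity)
    push_cast
    nlinarith
  have e1 : ε * c = ε' := by
    rw [hεd]
    field_simp
  have h3 := mul_le_mul_of_nonneg_right hcard (mul_nonneg hε.le hM0)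
  have h4 := mul_le_mul_of_nonneg_right hbad hM0
  have h5 : 0 < ε * (u : ℝ) ^ 2 := mul_pos hε hu2
  rw [← e1, hc]
  nlinarith

open Classical in
/-- the linearised relation passes to the limit -/
theorem lim_rel (hτ : τ.Of ω 𝒰 hu) (h𝒰 : (𝒰 : Filter ℕ) ≤ atTop) (hL : (S.Γ ω).Lin Λ) {B : ℝ}
    (hB : ∀ x, ‖ν x‖ ≤ B) (hb : ∀ u l, ‖hu u l‖ ≤ 1)
    (hfew : ∀ δ : ℝ, 0 < δ → ∀ᶠ u : ℕ in atTop,
      (((cellsQ Λ 1 u).filter fun w => S.T w ω ∈ S.TA A ∧
        ¬ XiRel (fun i => S.ev ν ω ((S.Γ ω).tlab w i)) (((S.Γ ω).v w).1 / (S.Γ ω).R u)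
          fun i => hu u ((S.Γ ω).tlab w i)).card : ℝ) ≤ δ * (u : ℝ) ^ 2) :
    ∀ᵐ x ∂τ.D.μ, τ.π x ∈ S.TA A → XiRel (fun i => ν (S.tx (τ.π x) i)) (τ.X x).1
      fun i => τ.h (x, (S.Γ (τ.π x)).tl 0 i) := by
  have h1 : ∀ k, ∀ᵐ x ∂τ.D.μ, τ.π x ∈ S.TA A → _ := fun k =>
    lim_aux hτ h𝒰 hL hB hb hfew
      (fun p => ((p.1 0).1 1 - (p.1 1).1 1) * ∑ i, co (fun i => (p.1 i).1 1) i * (p.1 i).2.1 k
        - ((p.1 0).1 k - (p.1 1).1 k) * ∑ i, co (fun i => (p.1 i).1 1) i * (p.1 i).2.1 1)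
      (fun _ => 0)
      (by
        simp only [Fin.sum_univ_three, co, Matrix.cons_val_zero, Matrix.cons_val_one,
          Matrix.cons_val_two, Matrix.head_cons, Matrix.tail_cons]
        fun_prop)
      continuous_const
      (fun y X a h => by
        rw [mul_zero]
        exact sub_eq_zero.2 (h.1 k))
  have h2 := lim_aux hτ h𝒰 hL hB hb hfew
      (fun p => ∑ i, co (fun i => (p.1 i).1 1) i * (p.1 i).2.2
        + p.2.1 * ∑ i, co (fun i => (p.1 i).1 1) i * (p.1 i).2.1 1)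
      (fun p => ∑ i, co (fun i => (p.1 i).1 1) i * (p.1 i).2.1 1)
      (by
        simp only [Fin.sum_univ_three, co, Matrix.cons_val_zero, Matrix.cons_val_one,
          Matrix.cons_val_two, Matrix.head_cons, Matrix.tail_cons]
        fun_prop)
      (by
        simp only [Fin.sum_univ_three, co, Matrix.cons_val_zero, Matrix.cons_val_one,
          Matrix.cons_val_two, Matrix.head_cons, Matrix.tail_cons]
        fun_prop)
      (fun y X a h => by
        have := h.2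
        simp only at this ⊢
        rw [this]
        ring)
  filter_upwards [ae_all_iff.2 h1, h2] with x hx1 hx2 hx
  refine ⟨fun k => sub_eq_zero.1 (hx1 k hx), ?_⟩
  have := hx2 hx
  simp only at this ⊢
  linarith

end ECub.R
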