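import Pool.Agent.P.MP_029dcd_co.F.LayT
import Pool.Agent.P.MP_029dcd_co.F.R.Lim

/-! Layer R: rigidity of galaxies from rigidity of tangent systems. -/

set_option autoImplicit false

namespace ECub.R

open CubicStab MeasureTheory Filter Topology Finset
open scoped ENNReal

open Classical in
/-- the regular lines at scale `u` -/
noncomputable def reg (S : Sys) (A : Set (S.Ω × ℕ)) (ω : S.Ω) (c1 ε0 : ℝ) (A0 u : ℕ) :
    Finset Lb :=
  Finset.univ.biUnion fun i : Fin 3 => (S.lnsA A ω i (3 * (S.Γ ω).R u)).filter fun l =>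
    |(S.Γ ω).s l| ≤ big i * (S.Γ ω).R u ∧
      Dens (S.Γ ω) (fun w => S.T w ω ∈ S.TA A) c1 ε0 A0 u l

theorem mem_lnsA {S : Sys} {Λ : (ℝ × ℝ) ≃L[ℝ] (ℝ × ℝ)} (hΛ : LamOK Λ) {A : Set (S.Ω × ℕ)}
    {ω : S.Ω} (hL : (S.Γ ω).Lin Λ) (i : Fin 3) (ρ : ℝ) (l : Lb) :
    l ∈ S.lnsA A ω i ρ ↔ (S.Γ ω).Ln i l ∧ |(S.Γ ω).s l| ≤ ρ ∧ (S.T l.1 ω, l.2) ∈ A := by
  classical
  unfold Sys.lnsA
  rw [Finset.mem_filter, Gal.mem_lns (S.ax ω) hΛ hL]
  tauto

theorem mem_reg {S : Sys} {Λ : (ℝ × ℝ) ≃L[ℝ] (ℝ × ℝ)} (hΛ : LamOK Λ) {A : Set (S.Ω × ℕ)}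
    {ω : S.Ω} (hL : (S.Γ ω).Lin Λ) {c1 ε0 : ℝ} {A0 u : ℕ} (hR : 0 < (S.Γ ω).R u) (l : Lb) :
    l ∈ reg S A ω c1 ε0 A0 u ↔ (S.Γ ω).Ln ((S.Γ ω).fam l) l ∧ (S.T l.1 ω, l.2) ∈ A ∧
      |(S.Γ ω).s l| ≤ big ((S.Γ ω).fam l) * (S.Γ ω).R u ∧
      Dens (S.Γ ω) (fun w => S.T w ω ∈ S.TA A) c1 ε0 A0 u l := by
  classical
  unfold reg
  simp only [Finset.mem_biUnion, Finset.mem_univ, true_and, Finset.mem_filter,
    mem_lnsA hΛ hL]
  constructor
  · rintro ⟨i, ⟨h1, _, h3⟩, h4, h5⟩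
    have : (S.Γ ω).fam l = i := h1.1.2.1
    rw [this]
    exact ⟨h1, h3, h4, h5⟩
  · rintro ⟨h1, h2, h3, h4⟩
    refine ⟨_, ⟨h1, h3.trans ?_, h2⟩, h3, h4⟩
    exact mul_le_mul_of_nonneg_right (big_le _) hR.le

theorem sc_fv {S : Sys} {n : ℕ} (ν : S.Ω × ℕ → E n) (ω : S.Ω) (l : Lb) (R : ℝ) :
    sc R (S.fv ν ω l) = (S.ev ν ω l, (S.Γ ω).s l / R) := rfl

theorem sys_rigid (S : Sys) (hS : S.toDyn.Erg) {Λ : (ℝ × ℝ) ≃L[ℝ] (ℝ × ℝ)} (hΛ : S.Lin Λ)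
    {A : Set (S.Ω × ℕ)} (hA : S.LineSet A) {n : ℕ} {ν : S.Ω × ℕ → E n} (hν : S.Marks A ν)
    {c1 : NNReal} (hc1 : 0 < c1) (hcore : S.Core A c1)
    (htan : ∀ τ : Tan S Λ A ν 1, (∀ i, ∀ᵐ d ∂(τ.nm i), d.2.2.1 0 = 0) →
      (∀ᵐ x ∂τ.D.μ, τ.π x ∈ S.TA A → XiRel (fun i => ν (S.tx (τ.π x) i)) (τ.X x).1
        fun i => τ.h (x, (S.Γ (τ.π x)).tl 0 i)) →
      ∃ γ : H n →ₗ[ℝ] H n, ∀ i, ∀ᵐ d ∂(τ.nm i),
        (∃ x : ℝ, (x, d.2.1 + d.1 1 * x) ∈ Q (19 / 20)) → d.2.2 = triv γ (d.1, d.2.1)) :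
    S.Rigid A ν := by
  classical
  obtain ⟨B, hB⟩ := hν.bdd
  have hB0 : 0 ≤ B := by
    by_contra h
    have : Nonempty S.Ω := nonempty_of_isProbabilityMeasure S.μ
    obtain ⟨ω⟩ := this
    exact h ((norm_nonneg _).trans (hB (ω, 0)))
  obtain ⟨A0, ε0, c2, hε0, hc2, hbnd⟩ := bnd_reg hΛ.ok (c1 : ℝ) (by exact_mod_cast hc1)
  obtain ⟨A1, hA1⟩ := cellsQ_sub Λ
  unfold Sys.Rigid
  filter_upwards [hΛ.lin, ae_dec hA hν hB, ae_dens hS hΛ hA hcore A0 ε0 hε0,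
    S.tan_ex hS hΛ hA hν.toMarks0 1 one_pos] with ω hL hdec hdens htex ξ hξ hξ0 hrel J hJ
  by_contra hno
  set G := S.Γ ω with hGdef
  have hG : G.Ax S.k S.C := S.ax ω
  have hRt : Tendsto G.R atTop atTop := Gal.R_tendsto hG hΛ.ok hL
  have hRpos : ∀ᶠ u : ℕ in atTop, 0 < G.R u := hRt.eventually_gt_atTop 0
  set Rg : ℕ → Finset Lb := fun u => reg S A ω c1 ε0 A0 u with hRg
  have hfv : G.LineC (S.fv ν ω) := fun l l' hl hl' h => by
    unfold Sys.fv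
    rw [hdec.ν_line l l' hl hl' h, hG.same_s l l' hl hl' h]
  -- the lines of `J` are eventually regular
  have hJreg : ∀ᶠ u : ℕ in atTop, ∀ l ∈ J, G.rep l ∈ Rg u := by
    rw [Filter.eventually_all_finset]
    intro l hl
    obtain ⟨hv, hin⟩ := hJ l hl
    obtain ⟨hln, hsame⟩ := rep_spec hG hv
    have hv' : G.valid (G.rep l) := hln.1.1
    have hfam : G.fam (G.rep l) = G.fam l := hln.1.2.1
    have hin' : (S.T (G.rep l).1 ω, (G.rep l).2) ∈ A := by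
      have := hdec.inA_line l (G.rep l) hv hv' hsame
      exact this ▸ hin
    have h1 := hdens.1 (G.rep l) ⟨hv', hin'⟩
    have h2 : ∀ᶠ u : ℕ in atTop, |G.s (G.rep l)| ≤ big (G.fam (G.rep l)) * G.R u :=
      (hRt.const_mul_atTop (big_pos _)).eventually_ge_atTop _
    filter_upwards [h1, h2, hRpos] with u h1 h2 h3
    exact (mem_reg hΛ.ok hL h3 _).2 ⟨hfam ▸ hln, hin', h2, h1⟩
  have hnou : ∀ᶠ u : ℕ in atTop, ¬ ∃ γ : H n →ₗ[ℝ] H n, ∀ l ∈ Rg u,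
      sc (G.R u) (ξ l) = triv γ (sc (G.R u) (S.fv ν ω l)) := by
    filter_upwards [hJreg, hRpos] with u h1 h2
    rintro ⟨γ, hγ⟩
    obtain ⟨γ', hγ'⟩ := triv_sc (G.R u) h2.ne' γ
    refine hno ⟨γ', fun l hl => ?_⟩
    have hv := (hJ l hl).1
    obtain ⟨hln, hsame⟩ := rep_spec hG hv
    rw [hξ l _ hv hln.1.1 hsame, hfv l _ hv hln.1.1 hsame]
    exact hγ' _ _ (hγ _ (h1 l hl))
  -- almost closest trivial deformations
  have hch : ∀ u : ℕ, ∃ (γ0 : H n →ₗ[ℝ] H n) (d : ℝ), 0 < d ∧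
      ((¬ ∃ γ : H n →ₗ[ℝ] H n, ∀ l ∈ Rg u,
        sc (G.R u) (ξ l) = triv γ (sc (G.R u) (S.fv ν ω l))) →
      (∀ l ∈ Rg u, ‖sc (G.R u) (ξ l) - triv γ0 (sc (G.R u) (S.fv ν ω l))‖ ≤ d) ∧
        ∀ γ : H n →ₗ[ℝ] H n, ∃ l ∈ Rg u,
          d / 2 ≤ ‖sc (G.R u) (ξ l) - triv γ (sc (G.R u) (S.fv ν ω l))‖) := by
    intro u
    by_cases h : ∃ γ : H n →ₗ[ℝ] H n, ∀ l ∈ Rg u,
        sc (G.R u) (ξ l) = triv γ (sc (G.R u) (S.fv ν ω l))
    · exact ⟨0, 1, one_pos, fun h' => absurd h h'⟩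
    · obtain ⟨γ0, d, hd, h1, h2⟩ := min_dist (Rg u) (fun l => sc (G.R u) (ξ l))
        (fun l => sc (G.R u) (S.fv ν ω l)) h
      exact ⟨γ0, d, hd, fun _ => ⟨h1, h2⟩⟩
  choose γu du hdu hmin using hch
  set η0 : ℕ → Lb → H n := fun u l =>
    (du u)⁻¹ • (sc (G.R u) (ξ l) - triv (γu u) (sc (G.R u) (S.fv ν ω l))) with hη0
  have hη0line : ∀ u, G.LineC (η0 u) := fun u l l' hl hl' h => by
    simp only [hη0, hξ l l' hl hl' h, hfv l l' hl hl' h]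
  have hη00 : ∀ u l, (η0 u l).1 0 = 0 := fun u l => by
    have h1 := triv_fst_zero (γu u) (sc (G.R u) (S.fv ν ω l)) (hdec.one l)
    have h2 : (sc (G.R u) (ξ l)).1 0 = 0 := hξ0 l
    simp only [hη0, Prod.smul_fst, Prod.fst_sub, Pi.smul_apply, Pi.sub_apply, h1, h2, sub_zero,
      smul_zero]
  have htriv : ∀ (γ : H n →ₗ[ℝ] H n) (u : ℕ), 0 < G.R u → ∀ w, S.T w ω ∈ S.TA A →
      XiRel (fun i => S.ev ν ω (G.tlab w i)) ((G.v w).1 / G.R u)
        fun i => triv γ (sc (G.R u) (S.fv ν ω (G.tlab w i))) := by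
    intro γ u hu w hw
    refine xiRel_triv (hdec.tri w hw) γ _ ((G.v w).2 / G.R u)
      (fun i => G.s (G.tlab w i) / G.R u) fun i => ?_
    have htp := hdec.tp w hw
    rw [hdec.slope _ (hG.tp_can w htp i).1, hG.tp_on w htp i]
    field_simp
  have hη0rel : ∀ u : ℕ, 0 < G.R u → ∀ w, S.T w ω ∈ S.TA A →
      XiRel (fun i => S.ev ν ω (G.tlab w i)) ((G.v w).1 / G.R u)
        fun i => η0 u (G.tlab w i) := fun u hu w hw =>
    xiRel_smul (xiRel_sub (xiRel_sc (hrel w hw) (G.R u)) (htriv (γu u) u hu w hw)) _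
  set hu : ℕ → Lb → H n := fun u l =>
    if G.rep l ∈ Rg u ∧ ‖η0 u (G.rep l)‖ ≤ 1 then η0 u (G.rep l) else 0 with hhu
  have hub : ∀ u l, ‖hu u l‖ ≤ 1 := fun u l => by
    simp only [hhu]
    split_ifs with h
    · exact h.2
    · simp
  have huline : ∀ u, G.LineC (hu u) := fun u l l' hl hl' h => by
    simp only [hhu, (Gal.rep_eq_iff hG hl hl').2 h]
  have hu0 : ∀ u l, (hu u l).1 0 = 0 := fun u l => by
    simp only [hhu]
    split_ifs with h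
    · exact hη00 _ _
    · rfl
  have hueq : ∀ᶠ u : ℕ in atTop, ∀ l, G.valid l → G.rep l ∈ Rg u → hu u l = η0 u l := by
    filter_upwards [hnou] with u hno' l hl hr
    obtain ⟨hln, hsame⟩ := rep_spec hG hl
    have h1 : ‖η0 u (G.rep l)‖ ≤ 1 := by
      simp only [hη0]
      rw [norm_smul, norm_inv, Real.norm_of_nonneg (hdu u).le, inv_mul_le_iff₀ (hdu u), mul_one]
      exact (hmin u hno').1 _ hr
    simp only [hhu]
    rw [if_pos ⟨hr, h1⟩]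
    exact (hη0line u l _ hl hln.1.1 hsame).symm
  set 𝒰 : Ultrafilter ℕ := Ultrafilter.of atTop with h𝒰def
  have h𝒰 : (𝒰 : Filter ℕ) ≤ atTop := Ultrafilter.of_le _
  obtain ⟨τ, hτ⟩ := htex 𝒰 h𝒰 hu hub huline
  -- few cells have a line that is not regular
  have hfew : ∀ δ : ℝ, 0 < δ → ∀ᶠ u : ℕ in atTop,
      (((cellsQ Λ 1 u).filter fun w => S.T w ω ∈ S.TA A ∧
        ¬ XiRel (fun i => S.ev ν ω (G.tlab w i)) ((G.v w).1 / G.R u)
          fun i => hu u (G.tlab w i)).card : ℝ) ≤ δ * (u : ℝ) ^ 2 := by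
    intro δ hδ
    have hδ' : 0 < δ / (3 * (2 * (A1 : ℝ) + 1)) := by positivity
    have h3 : ∀ᶠ u : ℕ in atTop, ∀ i : Fin 3,
        (((S.lnsA A ω i (3 * G.R u)).filter fun l =>
          ¬ Dens G (fun w => S.T w ω ∈ S.TA A) c1 ε0 A0 u l).card : ℝ)
            ≤ δ / (3 * (2 * (A1 : ℝ) + 1)) * u :=
      Filter.eventually_all.2 fun i => hdens.2 i _ hδ'
    filter_upwards [h3, hueq, hRpos, cellsQ_big hG hL, eventually_ge_atTop 1]
      with u h3 hueq hR hbig hu1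
    set Lset : Fin 3 → Finset Lb := fun i => (S.lnsA A ω i (3 * G.R u)).filter fun l =>
      ¬ Dens G (fun w => S.T w ω ∈ S.TA A) c1 ε0 A0 u l with hLset
    set W : Fin 3 → Finset Z2 := fun i => (cellsQ Λ 1 u).filter fun w =>
      G.tp w = true ∧ G.rep (G.tlab w i) ∈ Lset i with hW
    have hsub : ((cellsQ Λ 1 u).filter fun w => S.T w ω ∈ S.TA A ∧
        ¬ XiRel (fun i => S.ev ν ω (G.tlab w i)) ((G.v w).1 / G.R u)
          fun i => hu u (G.tlab w i)) ⊆ Finset.univ.biUnion W := by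
      intro w hw
      obtain ⟨hwc, hta, hnx⟩ := Finset.mem_filter.1 hw
      have htp := hdec.tp w hta
      by_contra hcon
      apply hnx
      have hall : ∀ i, hu u (G.tlab w i) = η0 u (G.tlab w i) := by
        intro i
        have hcan := hG.tp_can w htp i
        obtain ⟨hln, hsame⟩ := rep_spec hG hcan.1
        have hfam : G.fam (G.tlab w i) = i := hcan.2.1
        rw [hfam] at hln
        have hfam' : G.fam (G.rep (G.tlab w i)) = i := hln.1.2.1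
        have hin : (S.T (G.rep (G.tlab w i)).1 ω, (G.rep (G.tlab w i)).2) ∈ A := by
          have := hdec.inA_line _ _ hcan.1 hln.1.1 hsame
          exact this ▸ hdec.mem w hta i
        have hs : |G.s (G.rep (G.tlab w i))| ≤ big i * G.R u := by
          rw [← hG.same_s _ _ hcan.1 hln.1.1 hsame]
          exact hbig w hwc htp i
        refine hueq _ hcan.1 ((mem_reg hΛ.ok hL hR _).2 ⟨hfam'.symm ▸ hln, hin,
          hfam'.symm ▸ hs, ?_⟩)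
        by_contra hd
        apply hcon
        refine Finset.mem_biUnion.2 ⟨i, Finset.mem_univ _, Finset.mem_filter.2 ⟨hwc, htp, ?_⟩⟩
        refine Finset.mem_filter.2 ⟨(mem_lnsA hΛ.ok hL i _ _).2 ⟨hln, hs.trans ?_, hin⟩, hd⟩
        exact mul_le_mul_of_nonneg_right (big_le _) hR.le
      simp only [hall]
      exact hη0rel u hR w hta
    have hcard : ∀ i, ((W i).card : ℝ) ≤ δ / 3 * (u : ℝ) ^ 2 := by
      intro i
      have h1 := card_cells_line hG i (A1 * u) (Lset i) (W i) fun w hw => by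
        obtain ⟨h1, h2, h3⟩ := Finset.mem_filter.1 hw
        exact ⟨hA1 u h1, h2, h3⟩
      have h1' : ((W i).card : ℝ) ≤ (Lset i).card * (2 * ((A1 : ℝ) * u) + 1) := by
        exact_mod_cast h1
      have hu1' : (1 : ℝ) ≤ u := by exact_mod_cast hu1
      have h4 : 2 * ((A1 : ℝ) * u) + 1 ≤ (2 * (A1 : ℝ) + 1) * u := by nlinarith
      calc ((W i).card : ℝ) ≤ (δ / (3 * (2 * (A1 : ℝ) + 1)) * u) * ((2 * (A1 : ℝ) + 1) * u) :=
            h1'.trans (mul_le_mul (h3 i) h4 (by positivity) (by positivity))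
        _ = δ / 3 * (u : ℝ) ^ 2 := by field_simp
    calc _ ≤ ((Finset.univ.biUnion W).card : ℝ) := by exact_mod_cast Finset.card_le_card hsub
      _ ≤ ∑ i, ((W i).card : ℝ) := by exact_mod_cast Finset.card_biUnion_le
      _ ≤ ∑ _i : Fin 3, δ / 3 * (u : ℝ) ^ 2 := Finset.sum_le_sum fun i _ => hcard i
      _ = δ * (u : ℝ) ^ 2 := by simp; ring
  obtain ⟨γ, hγ⟩ := htan τ (lim_h0 hτ hu0) (lim_rel hτ h𝒰 hL hB hub hfew)
  set e : ℝ := 1 / (4000 * (B + 1)) with he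
  have he0 : 0 < e := by positivity
  have hc7 : 0 < c2 / 7 := by positivity
  have h1 : ∀ᶠ u : ℕ in (𝒰 : Filter ℕ), ∀ i : Fin 3,
      (((S.lnsA A ω i (3 * G.R u)).filter fun l => |G.s l| ≤ small i * G.R u ∧
        e < ‖hu u l - triv γ (S.ev ν ω l, G.s l / G.R u)‖).card : ℝ) ≤ c2 / 7 * u :=
    Filter.eventually_all.2 fun i => lim_few hτ h𝒰 hRpos γ i (hγ i) e _ he0 hc7
  have h2 : ∀ᶠ u : ℕ in atTop, ∀ i : Fin 3,
      (((S.lnsA A ω i (3 * G.R u)).filter fun l =>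
        ¬ Dens G (fun w => S.T w ω ∈ S.TA A) c1 ε0 A0 u l).card : ℝ) ≤ c2 / 7 * u :=
    Filter.eventually_all.2 fun i => hdens.2 i _ hc7
  obtain ⟨u, h1, h2, hb, hueq, hR, hnou, hu1⟩ := (h1.and (h𝒰 (h2.and ((hbnd hG hL hdec).and
    (hueq.and (hRpos.and (hnou.and (eventually_ge_atTop 1)))))))).exists
  set η : Lb → H n := fun l => η0 u l - triv γ (sc (G.R u) (S.fv ν ω l)) with hη
  set Bad : Finset Lb := Finset.univ.biUnion fun i : Fin 3 =>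
    ((S.lnsA A ω i (3 * G.R u)).filter fun l => |G.s l| ≤ small i * G.R u ∧
        e < ‖hu u l - triv γ (S.ev ν ω l, G.s l / G.R u)‖) ∪
      ((S.lnsA A ω i (3 * G.R u)).filter fun l =>
        ¬ Dens G (fun w => S.T w ω ∈ S.TA A) c1 ε0 A0 u l) with hBad
  have hu1' : (1 : ℝ) ≤ u := by exact_mod_cast hu1
  have hBadc : (Bad.card : ℝ) < c2 * u := by
    have h3 : (Bad.card : ℝ) ≤ ∑ _i : Fin 3, (c2 / 7 * u + c2 / 7 * u) := by
      refine le_trans (Nat.cast_le.2 Finset.card_biUnion_le) ?_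
      rw [Nat.cast_sum]
      refine Finset.sum_le_sum fun i _ => le_trans ?_ (add_le_add (h1 i) (h2 i))
      exact_mod_cast Finset.card_union_le _ _
    have h4 : ∑ _i : Fin 3, (c2 / 7 * (u : ℝ) + c2 / 7 * u) = 6 / 7 * (c2 * u) := by simp; ring
    have h5 : 0 < c2 * (u : ℝ) := by positivity
    linarith
  have hall := hb η e Bad
    (fun l l' hl hl' h => by simp only [hη, hη0line u l l' hl hl' h, hfv l l' hl hl' h])
    (fun w hw => xiRel_sub (hη0rel u hR w hw) (htriv γ u hR w hw)) hBadc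
    (fun j l hln hin hs hnb => by
      have hfam : G.fam l = j := hln.1.2.1
      have hs' : |G.s l| ≤ big j * G.R u :=
        hs.trans (mul_le_mul_of_nonneg_right (small_le_big j) hR.le)
      have hmem : l ∈ S.lnsA A ω j (3 * G.R u) := (mem_lnsA hΛ.ok hL j _ _).2
        ⟨hln, hs'.trans (mul_le_mul_of_nonneg_right (big_le _) hR.le), hin⟩
      have hd : Dens G (fun w => S.T w ω ∈ S.TA A) c1 ε0 A0 u l := by
        by_contra hd
        exact hnb (Finset.mem_biUnion.2 ⟨j, Finset.mem_univ _,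
          Finset.mem_union_right _ (Finset.mem_filter.2 ⟨hmem, hd⟩)⟩)
      have hreg : G.rep l ∈ Rg u := by
        rw [rep_of_ln hG hln]
        exact (mem_reg hΛ.ok hL hR _).2 ⟨hfam.symm ▸ hln, hin, hfam.symm ▸ hs', hd⟩
      by_contra hgt
      refine hnb (Finset.mem_biUnion.2 ⟨j, Finset.mem_univ _,
        Finset.mem_union_left _ (Finset.mem_filter.2 ⟨hmem, hs, ?_⟩)⟩)
      rw [hueq l hln.1.1 hreg]
      exact lt_of_not_ge hgt)
  obtain ⟨l, hl, hge⟩ := (hmin u hnou).2 (γu u + du u • γ)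
  obtain ⟨hln, _, hs, hd⟩ := (mem_reg hΛ.ok hL hR l).1 hl
  have h6 := hall l hln.1.1 hs hd
  have h7 : sc (G.R u) (ξ l) - triv (γu u + du u • γ) (sc (G.R u) (S.fv ν ω l)) = du u • η l := by
    simp only [hη, hη0, triv_add_smul, smul_sub, smul_smul, mul_inv_cancel₀ (hdu u).ne', one_smul]
    abel
  rw [h7, norm_smul, Real.norm_of_nonneg (hdu u).le] at hge
  have h8 : 1000 * (B + 1) * e = 1 / 4 := by rw [he]; field_simp; norm_num
  rw [h8] at h6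
  have h9 := mul_le_mul_of_nonneg_left h6 (hdu u).le
  have := hdu u
  linarith

end ECub.R
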