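import Pool.Agent.P.MP_029dcd_co.F.R.Mac

/-! Layer R: the deformation carried by a tangent system is trivial. -/

set_option autoImplicit false

namespace ECub.R

open CubicStab MeasureTheory Filter Topology Finset
open scoped ENNReal

variable {n : ℕ}

/-- the functional `h ↦ h.1 k` -/
noncomputable def coordL (k : Fin (n + 2)) : H n →L[ℝ] ℝ :=
  (ContinuousLinearMap.proj k).comp (ContinuousLinearMap.fst ℝ (E n) ℝ)

/-- the functional `h ↦ X.1 * h.1 1 + h.2` -/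
noncomputable def offL (X : ℝ × ℝ) : H n →L[ℝ] ℝ :=
  clip X.1 • coordL 1 + ContinuousLinearMap.snd ℝ (E n) ℝ

theorem coordL_apply (k : Fin (n + 2)) (h : H n) : coordL k h = h.1 k := rfl

theorem offL_apply (X : ℝ × ℝ) (h : H n) : offL X h = clip X.1 * h.1 1 + h.2 := rfl

theorem abs_fst_le (h : H n) (k : Fin (n + 2)) : |h.1 k| ≤ ‖h‖ :=
  (norm_le_pi_norm h.1 k).trans (norm_fst_le h)

theorem abs_snd_le (h : H n) : |h.2| ≤ ‖h‖ := norm_snd_le h

theorem ae_Q_imp {β : Type*} [MeasurableSpace β] {m : Measure β} [SFinite m] {q q' : ℝ}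
    {p : (ℝ × ℝ) × β → Prop} (h : ∀ᵐ y ∂((volume.restrict (Q q')).prod m), p y) :
    ∀ᵐ y ∂((volume.restrict (Q q)).prod m), y.1 ∈ Q q' → p y := by
  rw [Measure.restrict_prod_eq_prod_univ] at h ⊢
  filter_upwards [ae_restrict_of_ae (ae_imp_of_ae_restrict h)] with y hy hQ
  exact hy ⟨hQ, Set.mem_univ _⟩

theorem tan_rigid {S : Sys} (hS : S.toDyn.Erg) {Λ : (ℝ × ℝ) ≃L[ℝ] (ℝ × ℝ)} (hΛ : S.Lin Λ)
    {A : Set (S.Ω × ℕ)} (hA : S.LineSet A) {ν : S.Ω × ℕ → E n} (hν : S.Marks A ν)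
    {C0 c1 : NNReal} {b c : Fin 3} (hms : MS (S.mA A ν) (S.κA A ν) C0 c1 b c)
    (hmax : S.MaxP A ν) (τ : Tan S Λ A ν 1)
    (h0 : ∀ i, ∀ᵐ d ∂(τ.nm i), d.2.2.1 0 = 0)
    (hrel : ∀ᵐ x ∂τ.D.μ, τ.π x ∈ S.TA A → XiRel (fun i => ν (S.tx (τ.π x) i)) (τ.X x).1
      fun i => τ.h (x, (S.Γ (τ.π x)).tl 0 i)) :
    ∃ γ : H n →ₗ[ℝ] H n, ∀ i, ∀ᵐ d ∂(τ.nm i),
      (∃ x : ℝ, (x, d.2.1 + d.1 1 * x) ∈ Q (19 / 20)) → d.2.2 = triv γ (d.1, d.2.1) := by
  classical
  obtain ⟨hb, hcm⟩ := exists_cmean τ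
  obtain ⟨Bν, hBν⟩ := hν.bdd
  have hclip : ∀ ω, clip (τ.X ω).1 = (τ.X ω).1 := fun ω =>
    clip_of_abs_le (abs_le.2 ⟨(τ.X_mem ω).1.1.le, (τ.X_mem ω).1.2.le⟩)
  have hco : ∀ ω, τ.π ω ∈ S.TA A →
      (fun i => (sp τ).sl ((sp τ).tx ω i)) = fun i => ν (S.tx (τ.π ω) i) 1 := fun ω hω =>
    funext fun i => (slope_tx hν.toMarks0 hω.1 i).symm
  have hms2 : Measurable fun y : (ℝ × ℝ) × E n => (y.2, y.1.2 - y.2 1 * y.1.1) := by fun_prop
  -- the offset relation
  obtain ⟨Cc, hCm, ⟨BC, hCb⟩, hC⟩ := mac hS hΛ hA hν.toMarks0 hms hmax one_pos τ hcm offL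
    (((measurable_clip.comp measurable_fst.fst).mul
      ((measurable_pi_apply 1).comp measurable_snd.fst)).add measurable_snd.snd) (BL := 1 * 1 + 1)
    (fun X h hh => by
      rw [offL_apply]
      exact (abs_add_le _ _).trans (add_le_add
        (abs_mul_le' (abs_clip_le _) ((abs_fst_le h 1).trans hh)) ((abs_snd_le h).trans hh)))
    (fun _ => 0) measurable_const (Bw := 0) (fun _ _ => by simp)
    (by
      filter_upwards [hrel] with ω hω hTA
      have h1 := (hω hTA).2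
      rw [hco ω hTA]
      show ∑ i, co (fun i => ν (S.tx (τ.π ω) i) 1) i *
        (offL (τ.X ω) (τ.h (ω, (S.Γ (τ.π ω)).tl 0 i)) - 0) = 0
      simp only [offL_apply, hclip, Fin.sum_univ_three] at h1 ⊢
      linear_combination h1)
  have hsl : ∀ i, ∀ᵐ x ∂(W0 τ i), (τ.h x - hb i (ms τ x)).1 1 = 0 := by
    intro i
    have hd : Measurable fun y : Dt n × ℝ => y.1.2.2 - hb i (y.1.1, y.1.2.1) :=
      measurable_fst.snd.snd.sub ((hcm.meas i).comp (by fun_prop))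
    have h1 := w1_of_w0 τ hΛ.ok hν.meas i (p := fun y =>
      y.2 * (y.1.2.2 - hb i (y.1.1, y.1.2.1)).1 1 + (y.1.2.2 - hb i (y.1.1, y.1.2.1)).2 = 0)
      (measurableSet_eq_fun ((measurable_snd.mul ((measurable_pi_apply 1).comp hd.fst)).add
        hd.snd) measurable_const)
      (by
        filter_upwards [hC i] with x hx
        have := hx.1
        rw [offL_apply, hclip] at this
        exact this)
    have h2 := slope_of_w1 τ i (a := fun d => (d.2.2 - hb i (d.1, d.2.1)).2)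
      (b := fun d => (d.2.2 - hb i (d.1, d.2.1)).1 1) h1
    exact w0_of_w1 τ hν.meas i (p := fun y => (y.1.2.2 - hb i (y.1.1, y.1.2.1)).1 1 = 0)
      (w1_of_nm τ i h2)
  have hC2 : ∀ i, ∀ᵐ y ∂((volume.restrict (Q 1)).prod (S.mA A ν i)),
      (hb i (y.2, y.1.2 - y.2 1 * y.1.1)).2 + y.1.1 * (hb i (y.2, y.1.2 - y.2 1 * y.1.1)).1 1
        = Cc y.1 ⬝ᵥ y.2 := by
    intro i
    have hh := (hcm.meas i).comp hms2
    refine w2_of_w0 τ hA.1 hν.meas i (measurableSet_eq_fun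
      (hh.snd.add (measurable_fst.fst.mul ((measurable_pi_apply 1).comp hh.fst)))
      (measurable_dot (hCm.comp measurable_fst) measurable_snd)) ?_
    filter_upwards [hC i] with x hx
    have := hx.2
    rw [offL_apply, hclip, sub_zero, add_comm] at this
    exact this
  obtain ⟨h1, h2, _, h2m, ⟨Bh, hBh⟩, hspan⟩ := hms.toMS0.span 1 (fun i y => (hb i y).1 1)
    (fun i y => (hb i y).2) (fun i => (measurable_pi_apply 1).comp (hcm.meas i).fst)
    (fun i => (hcm.meas i).snd)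
    ⟨1, fun i y => ⟨(abs_fst_le _ 1).trans (hcm.bdd i y), (abs_snd_le _).trans (hcm.bdd i y)⟩⟩
    Cc hCm ⟨BC, hCb⟩ hC2
  have hφ : ∀ i, ∀ᵐ x ∂(W0 τ i), (τ.h x).1 1
      = h1 (τ.X x.1) ⬝ᵥ mk τ x + mk τ x 1 * (h2 (τ.X x.1) ⬝ᵥ mk τ x) := by
    intro i
    filter_upwards [hsl i, w0_of_w2 τ hA.1 hν.meas i (hspan i)] with x hx hy
    have h3 : (τ.h x).1 1 - (hb i (ms τ x)).1 1 = 0 := hx
    rw [sub_eq_zero.1 h3]
    exact hy
  have hφ' : ∀ᵐ ω ∂τ.D.μ, ∀ i, τ.π ω ∈ S.TA A → (τ.h (ω, (S.Γ (τ.π ω)).tl 0 i)).1 1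
      = h1 (τ.X ω) ⬝ᵥ ν (S.tx (τ.π ω) i)
        + ν (S.tx (τ.π ω) i) 1 * (h2 (τ.X ω) ⬝ᵥ ν (S.tx (τ.π ω) i)) :=
    ae_all_iff.2 fun i => ext_tp (S := sp τ) (hA.pull τ.D τ.π τ.fac).1 i (hφ i)
  have htri : ∀ᵐ ω ∂τ.D.μ, τ.π ω ∈ S.TA A → Tri fun i => ν (S.tx (τ.π ω) i) :=
    τ.fac.mp.quasiMeasurePreserving.ae (ae_tri hν)
  -- the coordinate relations
  have hk : ∀ k : Fin (n + 2), ∃ K : ℝ × ℝ → E n, Measurable K ∧ (∃ B : ℝ, ∀ X, ‖K X‖ ≤ B) ∧
      ∀ i, ∀ᵐ x ∂(W0 τ i), (τ.h x - hb i (ms τ x)).1 k = 0 ∧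
        (hb i (ms τ x)).1 k - mk τ x k * (h2 (τ.X x.1) ⬝ᵥ mk τ x) = K (τ.X x.1) ⬝ᵥ mk τ x :=
    fun k => mac hS hΛ hA hν.toMarks0 hms hmax one_pos τ hcm (fun _ => coordL k)
      ((measurable_pi_apply k).comp measurable_snd.fst) (BL := 1)
      (fun _ h hh => (abs_fst_le h k).trans hh) (fun y => y.2 k * (h2 y.1 ⬝ᵥ y.2))
      (((measurable_pi_apply k).comp measurable_snd).mul
        (measurable_dot (h2m.comp measurable_fst) measurable_snd))
      (Bw := Bν * ((n + 2) * (Bh * Bν)))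
      (fun X x => abs_mul_le' ((norm_le_pi_norm (ν x) k).trans (hBν x))
        (abs_dot_le (hBh X).2 (hBν x)))
      (by
        filter_upwards [hrel, hφ', htri] with ω hω hφω htω hTA
        rw [hco ω hTA]
        exact lin_corr (htω hTA) (h1 (τ.X ω)) (h2 (τ.X ω)) (hω hTA) (fun i => hφω i hTA) k)
  choose K hKm hKb hK using hk
  choose BK hBK using hKb
  have heq : ∀ i, ∀ᵐ x ∂(W0 τ i), τ.h x = hb i (ms τ x) := by
    intro i
    filter_upwards [ae_all_iff.2 fun k => hK k i, hC i] with x hx hy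
    have h3 := hy.1
    rw [offL_apply, (hx 1).1, mul_zero, zero_add] at h3
    exact sub_eq_zero.1 (Prod.ext (funext fun k => (hx k).1) h3)
  have hz : ∀ i, ∀ᵐ x ∂(W0 τ i), (τ.h x).1 0 = 0 := fun i =>
    w0_of_w1 τ hν.meas i (p := fun y => y.1.2.2.1 0 = 0)
      (w1_of_nm τ i (p := fun d => d.2.2.1 0 = 0) (by filter_upwards [h0 i] with d hd _ using hd))
  set K' : Fin (n + 2) → ℝ × ℝ → E n := fun k X => if k = 0 then -h2 X else K k X with hK'
  have hK'm : ∀ k, Measurable (K' k) := fun k => by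
    simp only [hK']
    split_ifs
    · exact h2m.neg
    · exact hKm k
  obtain ⟨γ, hγ⟩ := hms.global 1 (19 / 20) (by norm_num) (by norm_num) hb hcm.meas
    ⟨1, hcm.bdd⟩ K' Cc hK'm hCm
    ⟨∑ k, |BK k| + |Bh| + |BC|, fun X => by
      have hs : 0 ≤ ∑ k, |BK k| := Finset.sum_nonneg fun k _ => abs_nonneg _
      refine ⟨fun k => ?_, ?_⟩
      · simp only [hK']
        split_ifs
        · rw [norm_neg]
          linarith [(hBh X).2, le_abs_self Bh, abs_nonneg BC]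
        · have := Finset.single_le_sum (f := fun k => |BK k|) (fun k _ => abs_nonneg _)
            (Finset.mem_univ k)
          linarith [hBK k X, le_abs_self (BK k), abs_nonneg BC, abs_nonneg Bh]
      · linarith [hCb X, le_abs_self BC, abs_nonneg Bh]⟩
    (fun i => by
      have hh := (hcm.meas i).comp hms2
      have h3 : ∀ k, ∀ᵐ y ∂((volume.restrict (Q 1)).prod (S.mA A ν i)),
          (hb i (y.2, y.1.2 - y.2 1 * y.1.1)).1 k
            = -(y.2 k) * (K' 0 y.1 ⬝ᵥ y.2) + K' k y.1 ⬝ᵥ y.2 := fun k => by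
        refine w2_of_w0 τ hA.1 hν.meas i (measurableSet_eq_fun
          ((measurable_pi_apply k).comp hh.fst)
          ((((measurable_pi_apply k).comp measurable_snd).neg.mul
            (measurable_dot ((hK'm 0).comp measurable_fst) measurable_snd)).add
            (measurable_dot ((hK'm k).comp measurable_fst) measurable_snd))) ?_
        filter_upwards [hK k i, heq i, hz i] with x hx he hz0
        show (hb i (ms τ x)).1 k = -(mk τ x k) * (K' 0 (τ.X x.1) ⬝ᵥ mk τ x)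
          + K' k (τ.X x.1) ⬝ᵥ mk τ x
        by_cases hk0 : k = 0
        · subst hk0
          have h4 : mk τ x 0 = 1 := hν.one _
          rw [← he, hz0, h4]
          ring
        · simp only [hK', if_true, if_neg hk0, neg_dotProduct]
          linear_combination hx.2
      filter_upwards [ae_all_iff.2 h3, hC2 i] with y h4 h5
      exact ⟨h4, h5⟩)
  refine ⟨γ, fun i => nm_of_w1 τ i (by norm_num) ?_⟩
  have hpt : Measurable fun y : Dt n × ℝ => (y.2, y.1.2.1 + y.1.1 1 * y.2) := by fun_prop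
  refine w1_of_w0 τ hΛ.ok hν.meas i (p := fun y => (y.2, y.1.2.1 + y.1.1 1 * y.2) ∈ Q (19 / 20) →
    y.1.2.2 = triv γ (y.1.1, y.1.2.1)) ?_ ?_
  · have h3 : MeasurableSet {y : Dt n × ℝ | y.1.2.2 = triv γ (y.1.1, y.1.2.1)} :=
      measurableSet_eq_fun measurable_fst.snd.snd
        ((continuous_triv γ).measurable.comp (by fun_prop))
    convert (hpt (measurableSet_Q (19 / 20))).compl.union h3 using 1
    ext y
    simp only [Set.mem_ofPred_eq, Set.mem_union, Set.mem_compl_iff, Set.mem_preimage]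
    tauto
  · filter_upwards [heq i, w0_of_w2 τ hA.1 hν.meas i (ae_Q_imp (q := 1) (hγ i))] with x hx hy hQ
    rw [X_back] at hQ
    exact hx.trans (hy hQ)

end ECub.R
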