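import Pool.Agent.P.MP_029dcd_co.F.Defs

/-! Layer R, algebra: the linearised relation, trivial deformations, distance bounds. -/

set_option autoImplicit false

namespace ECub.R

open CubicStab MeasureTheory Filter Topology Finset
open scoped ENNReal

variable {n : ℕ}

/-- the marks of the three lines of a triple point -/
structure Tri (x : Fin 3 → E n) : Prop where
  one : ∀ i, x i 0 = 1
  slope : ∀ i, |x i 1 - ctr i| ≤ 1 / 100
  lin : ∀ k, ∑ i, co (fun i => x i 1) i * x i k = 0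

/-- division of the offset by a length -/
noncomputable def sc (R : ℝ) (h : H n) : H n := (h.1, h.2 / R)

theorem alg_sum (t g : Fin 3 → ℝ) :
    ∑ i, co t i * g i = (t 1 - t 2) * g 0 + (t 2 - t 0) * g 1 + (t 0 - t 1) * g 2 := by
  rw [Fin.sum_univ_three]
  rfl

theorem xiRel_sub {x : Fin 3 → E n} {a : ℝ} {u u' : Fin 3 → H n} (h : XiRel x a u)
    (h' : XiRel x a u') : XiRel x a fun i => u i - u' i := by
  obtain ⟨h1, h2⟩ := h
  obtain ⟨h1', h2'⟩ := h'
  refine ⟨fun k => ?_, ?_⟩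
  · have e := h1 k
    have e' := h1' k
    simp only [alg_sum, Prod.fst_sub, Pi.sub_apply] at e e' ⊢
    linear_combination e - e'
  · simp only [alg_sum, Prod.fst_sub, Prod.snd_sub, Pi.sub_apply] at h2 h2' ⊢
    linear_combination h2 - h2'

theorem xiRel_smul {x : Fin 3 → E n} {a : ℝ} {u : Fin 3 → H n} (h : XiRel x a u) (c : ℝ) :
    XiRel x a fun i => c • u i := by
  obtain ⟨h1, h2⟩ := h
  refine ⟨fun k => ?_, ?_⟩
  · have e := h1 k
    simp only [alg_sum, Prod.smul_fst, Pi.smul_apply, smul_eq_mul] at e ⊢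
    linear_combination c * e
  · simp only [alg_sum, Prod.smul_fst, Prod.smul_snd, Pi.smul_apply, smul_eq_mul] at h2 ⊢
    linear_combination c * h2

theorem xiRel_sc {x : Fin 3 → E n} {a : ℝ} {u : Fin 3 → H n} (h : XiRel x a u) (R : ℝ) :
    XiRel x (a / R) fun i => sc R (u i) := by
  obtain ⟨h1, h2⟩ := h
  refine ⟨fun k => h1 k, ?_⟩
  simp only [alg_sum, sc, div_eq_mul_inv] at h2 ⊢
  linear_combination R⁻¹ * h2

/-- trivial deformations satisfy the linearised relation at a triple point ` (a, y)` -/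
theorem xiRel_triv {x : Fin 3 → E n} (hx : Tri x) (γ : H n →ₗ[ℝ] H n) (a y : ℝ) (s : Fin 3 → ℝ)
    (hs : ∀ i, y = x i 1 * a + s i) : XiRel x a fun i => triv γ (x i, s i) := by
  have h0 : (x 1 1 - x 2 1) • ((x 0, s 0) : H n) + (x 2 1 - x 0 1) • ((x 1, s 1) : H n) +
      (x 0 1 - x 1 1) • ((x 2, s 2) : H n) = 0 := by
    ext k
    · have e := hx.lin k
      simp only [alg_sum] at e
      simpa using e
    · simp only [Prod.snd_add, Prod.smul_snd, smul_eq_mul, Prod.snd_zero]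
      linear_combination (-(x 1 1 - x 2 1)) * hs 0 - (x 2 1 - x 0 1) * hs 1 -
        (x 0 1 - x 1 1) * hs 2
  have h1 := congrArg γ h0
  simp only [map_add, map_smul, map_zero] at h1
  have G : ∀ k, (x 1 1 - x 2 1) * (γ (x 0, s 0)).1 k + (x 2 1 - x 0 1) * (γ (x 1, s 1)).1 k +
      (x 0 1 - x 1 1) * (γ (x 2, s 2)).1 k = 0 := fun k => by
    simpa using congrFun (congrArg Prod.fst h1) k
  have G' : (x 1 1 - x 2 1) * (γ (x 0, s 0)).2 + (x 2 1 - x 0 1) * (γ (x 1, s 1)).2 +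
      (x 0 1 - x 1 1) * (γ (x 2, s 2)).2 = 0 := by
    simpa using congrArg Prod.snd h1
  refine ⟨fun k => ?_, ?_⟩
  · have L := hx.lin k
    simp only [alg_sum, triv, Prod.fst_sub, Prod.smul_fst, Pi.sub_apply, Pi.smul_apply,
      smul_eq_mul] at L ⊢
    linear_combination (x 0 1 - x 1 1) * G k - (x 0 k - x 1 k) * G 1 -
      (x 0 1 * x 1 k - x 1 1 * x 0 k) * G 0 - (x 0 1 - x 1 1) * (γ (x 2, s 2)).1 0 * L
  · simp only [alg_sum, triv, Prod.fst_sub, Prod.snd_sub, Prod.smul_fst, Prod.smul_snd,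
      Pi.sub_apply, Pi.smul_apply, smul_eq_mul]
    linear_combination G' + a * G 1 - y * G 0 + (x 1 1 - x 2 1) * (γ (x 0, s 0)).1 0 * hs 0 +
      (x 2 1 - x 0 1) * (γ (x 1, s 1)).1 0 * hs 1 + (x 0 1 - x 1 1) * (γ (x 2, s 2)).1 0 * hs 2

theorem triv_fst_zero (γ : H n →ₗ[ℝ] H n) (f : H n) (hf : f.1 0 = 1) : (triv γ f).1 0 = 0 := by
  simp [triv, hf]

theorem triv_add_smul (γ γ' : H n →ₗ[ℝ] H n) (d : ℝ) (f : H n) :
    triv (γ + d • γ') f = triv γ f + d • triv γ' f := by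
  simp only [triv, LinearMap.add_apply, LinearMap.smul_apply, Prod.fst_add, Prod.smul_fst,
    Pi.add_apply, Pi.smul_apply, smul_eq_mul, add_smul, mul_smul, smul_sub]
  abel

theorem continuous_triv (γ : H n →ₗ[ℝ] H n) : Continuous (triv γ) := by
  have h : Continuous γ := γ.continuous_of_finiteDimensional
  unfold triv
  fun_prop

/-- rescaling of the offset as a linear map -/
noncomputable def alg_sc (c : ℝ) : H n →ₗ[ℝ] H n :=
  LinearMap.prodMap LinearMap.id (c • LinearMap.id)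

theorem alg_sc_apply (c : ℝ) (h : H n) : alg_sc c h = (h.1, c * h.2) := rfl

/-- trivial deformations in rescaled coordinates are trivial -/
theorem triv_sc (R : ℝ) (hR : R ≠ 0) (γ : H n →ₗ[ℝ] H n) :
    ∃ γ' : H n →ₗ[ℝ] H n, ∀ ξ f : H n, sc R ξ = triv γ (sc R f) → ξ = triv γ' f := by
  refine ⟨alg_sc R ∘ₗ γ ∘ₗ alg_sc R⁻¹, fun ξ f h => ?_⟩
  have e : ∀ g : H n, sc R g = alg_sc R⁻¹ g := fun g => by
    rw [alg_sc_apply, sc, div_eq_inv_mul]
  have e' : ∀ g : H n, alg_sc R (alg_sc R⁻¹ g) = g := fun g => by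
    rw [alg_sc_apply, alg_sc_apply]
    ext
    · rfl
    · simp only
      rw [← mul_assoc, mul_inv_cancel₀ hR, one_mul]
  rw [e, e] at h
  have h2 := congrArg (alg_sc R) h
  rw [e'] at h2
  rw [h2, triv, triv, map_sub, map_smul, e']
  rfl

/-- the trivial deformation as a linear function of the linear map -/
noncomputable def alg_triv {ι : Type} (J : Finset ι) (f : ι → H n) :
    (H n →ₗ[ℝ] H n) →ₗ[ℝ] (J → H n) where
  toFun γ l := triv γ (f l)
  map_add' γ γ' := by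
    funext l
    simpa using triv_add_smul γ γ' 1 (f l)
  map_smul' d γ := by
    funext l
    have h0 : triv (0 : H n →ₗ[ℝ] H n) (f l) = 0 := by simp [triv]
    have := triv_add_smul 0 γ d (f l)
    rw [zero_add, h0, zero_add] at this
    simpa using this

/-- an almost closest trivial deformation on a finite family -/
theorem min_dist {ι : Type} (J : Finset ι) (ξ f : ι → H n)
    (hno : ¬ ∃ γ : H n →ₗ[ℝ] H n, ∀ l ∈ J, ξ l = triv γ (f l)) :
    ∃ (γ0 : H n →ₗ[ℝ] H n) (d : ℝ), 0 < d ∧ (∀ l ∈ J, ‖ξ l - triv γ0 (f l)‖ ≤ d) ∧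
      ∀ γ : H n →ₗ[ℝ] H n, ∃ l ∈ J, d / 2 ≤ ‖ξ l - triv γ (f l)‖ := by
  set V : Submodule ℝ (J → H n) := LinearMap.range (alg_triv J f) with hV
  have hcl : IsClosed (V : Set (J → H n)) := V.closed_of_finiteDimensional
  have hne : (V : Set (J → H n)).Nonempty := ⟨0, V.zero_mem⟩
  have hnot : (fun l : J => ξ l) ∉ (V : Set (J → H n)) := by
    rintro ⟨γ, hγ⟩
    exact hno ⟨γ, fun l hl => (congrFun hγ ⟨l, hl⟩).symm⟩
  have hD : 0 < Metric.infDist (fun l : J => ξ l) (V : Set (J → H n)) :=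
    (hcl.notMem_iff_infDist_pos hne).1 hnot
  set D := Metric.infDist (fun l : J => ξ l) (V : Set (J → H n)) with hDdef
  obtain ⟨v, ⟨γ0, rfl⟩, hv⟩ := (Metric.infDist_lt_iff hne).1 (show D < 2 * D by linarith)
  refine ⟨γ0, 2 * D, by linarith, fun l hl => ?_, fun γ => ?_⟩
  · have := (dist_le_pi_dist (fun l : J => ξ l) (alg_triv J f γ0) ⟨l, hl⟩).trans hv.le
    rwa [dist_eq_norm] at this
  · by_contra hc
    push Not at hc
    have h1 : dist (fun l : J => ξ l) (alg_triv J f γ) < D := by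
      rw [dist_pi_lt_iff hD]
      intro l
      rw [dist_eq_norm]
      have := hc l l.2
      have e : 2 * D / 2 = D := by ring
      rw [e] at this
      exact this
    exact absurd (Metric.infDist_le_dist_of_mem (x := fun l : J => ξ l)
      (show alg_triv J f γ ∈ (V : Set (J → H n)) from ⟨γ, rfl⟩)) (not_le.2 h1)

theorem alg_t {t : Fin 3 → ℝ} (ht : ∀ i, |t i - ctr i| ≤ 1 / 100) :
    (99 / 100 ≤ t 0 ∧ t 0 ≤ 101 / 100) ∧ (-(101 / 100) ≤ t 1 ∧ t 1 ≤ -(99 / 100)) ∧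
      (-(1 / 100) ≤ t 2 ∧ t 2 ≤ 1 / 100) := by
  have h0 := abs_le.1 (ht 0)
  have h1 := abs_le.1 (ht 1)
  have h2 := abs_le.1 (ht 2)
  have e0 : ctr 0 = 1 := rfl
  have e1 : ctr 1 = -1 := rfl
  have e2 : ctr 2 = 0 := rfl
  rw [e0] at h0
  rw [e1] at h1
  rw [e2] at h2
  refine ⟨⟨?_, ?_⟩, ⟨?_, ?_⟩, ?_, ?_⟩ <;> linarith [h0.1, h0.2, h1.1, h1.2, h2.1, h2.2]

theorem alg_co {t : Fin 3 → ℝ} (ht : ∀ i, |t i - ctr i| ≤ 1 / 100) (j : Fin 3) :
    98 / 100 ≤ |co t j| ∧ |co t j| ≤ 202 / 100 := by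
  obtain ⟨⟨a1, a2⟩, ⟨b1, b2⟩, c1, c2⟩ := alg_t ht
  fin_cases j
  · have e : co t 0 = t 1 - t 2 := rfl
    show 98 / 100 ≤ |co t 0| ∧ |co t 0| ≤ 202 / 100
    rw [e, abs_of_neg (by linarith)]
    constructor <;> linarith
  · have e : co t 1 = t 2 - t 0 := rfl
    show 98 / 100 ≤ |co t 1| ∧ |co t 1| ≤ 202 / 100
    rw [e, abs_of_neg (by linarith)]
    constructor <;> linarith
  · have e : co t 2 = t 0 - t 1 := rfl
    show 98 / 100 ≤ |co t 2| ∧ |co t 2| ≤ 202 / 100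
    rw [e, abs_of_pos (by linarith)]
    constructor <;> linarith

theorem alg_key {t : Fin 3 → ℝ} (ht : ∀ i, |t i - ctr i| ≤ 1 / 100) (i : Fin 3) (g : Fin 3 → ℝ)
    {M : ℝ} (hg : ∀ j, j ≠ i → |g j| ≤ M) :
    98 / 100 * |g i| ≤ |∑ j, co t j * g j| + 404 / 100 * M ∧
      |∑ j, co t j * g j| ≤ 202 / 100 * |g i| + 404 / 100 * M := by
  have e := (add_sum_erase univ (fun j => co t j * g j) (mem_univ i)).symm
  have hr : |∑ j ∈ univ.erase i, co t j * g j| ≤ 404 / 100 * M := by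
    refine (abs_sum_le_sum_abs _ _).trans ?_
    have : ∑ j ∈ univ.erase i, |co t j * g j| ≤ ∑ _j ∈ univ.erase i, 202 / 100 * M := by
      refine sum_le_sum fun j hj => ?_
      rw [abs_mul]
      exact mul_le_mul (alg_co ht j).2 (hg j (ne_of_mem_erase hj)) (abs_nonneg _) (by norm_num)
    refine this.trans (le_of_eq ?_)
    rw [sum_const, card_erase_of_mem (mem_univ i), card_univ, Fintype.card_fin, nsmul_eq_mul]
    push_cast
    ring
  have hi := alg_co ht i
  have h1 : 98 / 100 * |g i| ≤ |co t i * g i| := by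
    rw [abs_mul]
    exact mul_le_mul_of_nonneg_right hi.1 (abs_nonneg _)
  have h2 : |co t i * g i| ≤ 202 / 100 * |g i| := by
    rw [abs_mul]
    exact mul_le_mul_of_nonneg_right hi.2 (abs_nonneg _)
  rw [e]
  have h3 := abs_add_le (co t i * g i) (∑ j ∈ univ.erase i, co t j * g j)
  have h4 := abs_add_le (co t i * g i + ∑ j ∈ univ.erase i, co t j * g j)
    (-∑ j ∈ univ.erase i, co t j * g j)
  rw [add_neg_cancel_right, abs_neg] at h4
  constructor <;> linarith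

theorem alg_fst (h : H n) (k : Fin (n + 2)) : |h.1 k| ≤ ‖h‖ :=
  (norm_le_pi_norm h.1 k).trans (norm_fst_le h)

theorem alg_snd (h : H n) : |h.2| ≤ ‖h‖ := norm_snd_le h

theorem alg_off {x : Fin 3 → E n} (hx : Tri x) (i : Fin 3) {a : ℝ} {u : Fin 3 → H n}
    (hu : XiRel x a u) (ha : |a| ≤ 3 / 2) {e : ℝ} (he : ∀ j, j ≠ i → ‖u j‖ ≤ e) :
    98 / 100 * |(u i).2 + a * (u i).1 1| ≤ 101 / 10 * e := by
  have h := (alg_key hx.slope i (fun j => (u j).2 + a * (u j).1 1) (M := 5 / 2 * e)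
    fun j hj => by
      have h1 := (alg_fst (u j) 1).trans (he j hj)
      have h2 := (alg_snd (u j)).trans (he j hj)
      have h3 := abs_add_le (u j).2 (a * (u j).1 1)
      rw [abs_mul] at h3
      have h4 := mul_le_mul ha h1 (abs_nonneg _) (by norm_num)
      show |(u j).2 + a * (u j).1 1| ≤ 5 / 2 * e
      linarith).1
  have h0 : ∑ j, co (fun i => x i 1) j * ((u j).2 + a * (u j).1 1) = 0 := by
    have := hu.2
    simp only [alg_sum] at this ⊢
    linear_combination this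
  rw [h0, abs_zero] at h
  linarith

/-- two triple points on a line whose other lines carry small deformations -/
theorem bnd_two {x x' : Fin 3 → E n} (hx : Tri x) (hx' : Tri x') {B : ℝ} (hB : ∀ j, ‖x j‖ ≤ B)
    (i : Fin 3) {a a' : ℝ} {u u' : Fin 3 → H n} (hu : XiRel x a u) (hu' : XiRel x' a' u')
    (huu : u i = u' i) (ha : |a| ≤ 3 / 2) (ha' : |a'| ≤ 3 / 2) (hd : 1 / 20 ≤ a' - a) {e : ℝ}
    (he : ∀ j, j ≠ i → ‖u j‖ ≤ e ∧ ‖u' j‖ ≤ e) : ‖u i‖ ≤ 1000 * (B + 1) * e := by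
  have hi : i + 1 ≠ i := by fin_cases i <;> decide
  have he0 : 0 ≤ e := (norm_nonneg _).trans (he _ hi).1
  have hB0 : 0 ≤ B := (norm_nonneg _).trans (hB 0)
  have hBe : 0 ≤ B * e := mul_nonneg hB0 he0
  have h1 := alg_off hx i hu ha fun j hj => (he j hj).1
  have h2 := alg_off hx' i hu' ha' fun j hj => (he j hj).2
  rw [← huu] at h2
  have h3 : |(u i).1 1| ≤ 413 * e := by
    have e1 : (a' - a) * (u i).1 1 = ((u i).2 + a' * (u i).1 1) - ((u i).2 + a * (u i).1 1) := by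
      ring
    have e2 := abs_sub ((u i).2 + a' * (u i).1 1) ((u i).2 + a * (u i).1 1)
    rw [← e1, abs_mul, abs_of_pos (show 0 < a' - a by linarith)] at e2
    have e3 := mul_le_mul_of_nonneg_right hd (abs_nonneg ((u i).1 1))
    linarith
  have h4 : |(u i).2| ≤ 630 * e := by
    have e2 := abs_sub ((u i).2 + a * (u i).1 1) (a * (u i).1 1)
    rw [add_sub_cancel_right, abs_mul] at e2
    have e3 := mul_le_mul ha h3 (abs_nonneg _) (by norm_num)
    linarith
  have h5 := (alg_key hx.slope i (fun j => (u j).1 1) (M := e)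
    fun j hj => (alg_fst (u j) 1).trans (he j hj).1).2
  have h6 : ∀ k, |(u i).1 k| ≤ 1000 * (B + 1) * e := by
    intro k
    have k1 := (alg_key hx.slope i (fun j => (u j).1 k) (M := e)
      fun j hj => (alg_fst (u j) k).trans (he j hj).1).1
    have k2 := congrArg abs (hu.1 k)
    obtain ⟨⟨a1, a2⟩, ⟨b1, b2⟩, c1, c2⟩ := alg_t hx.slope
    rw [abs_mul, abs_mul, abs_of_pos (show 0 < x 0 1 - x 1 1 by linarith)] at k2
    have k3 : |x 0 k - x 1 k| ≤ 2 * B := by
      have := abs_sub (x 0 k) (x 1 k)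
      have p0 : |x 0 k| ≤ B := (norm_le_pi_norm (x 0) k).trans (hB 0)
      have p1 : |x 1 k| ≤ B := (norm_le_pi_norm (x 1) k).trans (hB 1)
      linarith
    have k4 : |∑ j, co (fun i => x i 1) j * (u j).1 1| ≤ 839 * e := by linarith
    have k5 := mul_le_mul k3 k4 (abs_nonneg _) (by linarith)
    have k6 := mul_le_mul_of_nonneg_right (show 198 / 100 ≤ x 0 1 - x 1 1 by linarith)
      (abs_nonneg (∑ j, co (fun i => x i 1) j * (u j).1 k))
    nlinarith
  rw [Prod.norm_def]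
  refine max_le ((pi_norm_le_iff_of_nonneg (by positivity)).2 h6) ?_
  rw [Real.norm_eq_abs]
  nlinarith

theorem alg_dot {x : Fin 3 → E n} (hx : Tri x) (h : E n) :
    ∑ i, co (fun i => x i 1) i * (h ⬝ᵥ x i) = 0 := by
  have e : ∑ i, co (fun i => x i 1) i * (h ⬝ᵥ x i)
      = ∑ k, h k * ∑ i, co (fun i => x i 1) i * x i k := by
    simp only [dotProduct, mul_sum]
    rw [sum_comm]
    refine sum_congr rfl fun k _ => sum_congr rfl fun i _ => by ring
  rw [e]
  exact sum_eq_zero fun k _ => by rw [hx.lin k, mul_zero]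

/-- the corrected coordinates of a deformation are linear at a triple point -/
theorem lin_corr {x : Fin 3 → E n} (hx : Tri x) (h1 h2 : E n) {a : ℝ} {u : Fin 3 → H n}
    (hu : XiRel x a u) (hφ : ∀ i, (u i).1 1 = h1 ⬝ᵥ x i + x i 1 * (h2 ⬝ᵥ x i))
    (k : Fin (n + 2)) :
    ∑ i, co (fun i => x i 1) i * ((u i).1 k - x i k * (h2 ⬝ᵥ x i)) = 0 := by
  obtain ⟨⟨a1, a2⟩, ⟨b1, b2⟩, c1, c2⟩ := alg_t hx.slope
  have hne : x 0 1 - x 1 1 ≠ 0 := ne_of_gt (by linarith)
  apply mul_left_cancel₀ hne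
  have e := hu.1 k
  have d1 := alg_dot hx h1
  have d2 := alg_dot hx h2
  have L := hx.lin k
  simp only [alg_sum, hφ] at e d1 d2 L ⊢
  linear_combination e + (x 0 k - x 1 k) * d1 - (x 0 1 * x 1 k - x 1 1 * x 0 k) * d2 -
    (x 0 1 - x 1 1) * (h2 ⬝ᵥ x 2) * L

end ECub.R
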