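import Pool.Agent.P.MP_029dcd_co.F.R.Geo

/-! Layer R: a deformation that is small on most auxiliary lines is small on all regular lines. -/

set_option autoImplicit false

namespace ECub.R

open CubicStab MeasureTheory Filter Topology Finset
open scoped ENNReal

/-- marks `ν`, a set `inA` of lines and a set `ta` of triple points of a galaxy -/
structure Dec (G : Gal) {n : ℕ} (ν : Lb → E n) (inA : Lb → Prop) (ta : Z2 → Prop) (B : ℝ) :
    Prop where
  ν_line : G.LineC ν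
  inA_line : G.LineC inA
  bdd : ∀ l, ‖ν l‖ ≤ B
  one : ∀ l, ν l 0 = 1
  slope : ∀ l, G.valid l → ν l 1 = G.t l
  tp : ∀ w, ta w → G.tp w = true
  mem : ∀ w, ta w → ∀ i, inA (G.tlab w i)
  tri : ∀ w, ta w → Tri fun i => ν (G.tlab w i)

open Classical in
/-- among many triple points of a line one has both other lines outside a small bad set -/
theorem bnd_pick {G : Gal} {k : ℕ} {C : ℝ} (hG : G.Ax k C) {ta : Z2 → Prop}
    (hta : ∀ w, ta w → G.tp w = true) {l : Lb} (hl : G.valid l) (Bad : Finset Lb)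
    (S : Finset ℤ) (hS : ∀ b ∈ S, Hit G ta l b) (hc : 2 * Bad.card < S.card) :
    ∃ b ∈ S, ∀ j, j ≠ G.fam l → G.rep (G.tlab (G.at' l b).1 j) ∉ Bad := by
  by_contra hno
  push Not at hno
  have hsub : S ⊆ (univ.erase (G.fam l)).biUnion
      fun j => S.filter fun b => G.rep (G.tlab (G.at' l b).1 j) ∈ Bad := by
    intro b hb
    obtain ⟨j, hj, hjb⟩ := hno b hb
    exact mem_biUnion.2 ⟨j, mem_erase.2 ⟨hj, mem_univ _⟩, mem_filter.2 ⟨hb, hjb⟩⟩
  have h1 : ∀ j ∈ univ.erase (G.fam l),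
      (S.filter fun b => G.rep (G.tlab (G.at' l b).1 j) ∈ Bad).card ≤ Bad.card := by
    intro j hj
    refine card_le_card_of_injOn (fun b => G.rep (G.tlab (G.at' l b).1 j)) ?_ ?_
    · intro b hb
      exact (mem_filter.1 (mem_coe.1 hb)).2
    · intro b hb b' hb' h
      have h1 := hS b (mem_filter.1 (mem_coe.1 hb)).1
      have h2 := hS b' (mem_filter.1 (mem_coe.1 hb')).1
      exact hit_inj hG hl (mem_erase.1 hj).1 (hta _ h1.1) h1.2 (hta _ h2.1) h2.2 h
  have h2 := (card_le_card hsub).trans (card_biUnion_le_card_mul _ _ _ h1)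
  have h3 : (univ.erase (G.fam l)).card = 2 := by
    rw [card_erase_of_mem (mem_univ _), card_univ, Fintype.card_fin]
  rw [h3] at h2
  omega

theorem bnd_reg {Λ : (ℝ × ℝ) ≃L[ℝ] (ℝ × ℝ)} (hΛ : LamOK Λ) (c1 : ℝ) (hc1 : 0 < c1) :
    ∃ (A0 : ℕ) (ε0 c2 : ℝ), 0 < ε0 ∧ 0 < c2 ∧ ∀ {G : Gal} {k : ℕ} {C : ℝ} {n : ℕ}
      {ν : Lb → E n} {inA : Lb → Prop} {ta : Z2 → Prop} {B : ℝ}, G.Ax k C → G.Lin Λ →
      Dec G ν inA ta B → ∀ᶠ u : ℕ in atTop, ∀ (η : Lb → H n) (e : ℝ) (Bad : Finset Lb),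
        G.LineC η →
        (∀ w, ta w → XiRel (fun i => ν (G.tlab w i)) ((G.v w).1 / G.R u)
          fun i => η (G.tlab w i)) →
        (Bad.card : ℝ) < c2 * u →
        (∀ j l, G.Ln j l → inA l → |G.s l| ≤ small j * G.R u → l ∉ Bad → ‖η l‖ ≤ e) →
        ∀ l, G.valid l → |G.s l| ≤ big (G.fam l) * G.R u → Dens G ta c1 ε0 A0 u l →
          ‖η l‖ ≤ 1000 * (B + 1) * e := by
  classical
  obtain ⟨A0, r, hr, hgeo⟩ := geo_int hΛ
  refine ⟨A0, c1 * r / 2, c1 * r / 4, by positivity, by positivity, ?_⟩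
  intro G k C n ν inA ta B hG hL hD
  filter_upwards [hgeo hG hL, (Gal.R_tendsto hG hΛ hL).eventually_gt_atTop 0] with u hu hR
  intro η e Bad hη hXi hBad hsm l hl hs hdens
  have hσ : |G.s l / G.R u| ≤ big (G.fam l) := by
    rw [abs_div, abs_of_pos hR, div_le_iff₀ hR]
    exact hs
  have hk := kap_mul_le (G.fam l) hσ
  have hs3 : |G.s l| ≤ 3 * G.R u :=
    hs.trans (mul_le_mul_of_nonneg_right (big_le _) hR.le)
  have good : ∀ x : ℝ, |x + kap (G.fam l) * (G.s l / G.R u)| ≤ 3 / 80 →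
      ∃ w, ta w ∧ η (G.tlab w (G.fam l)) = η l ∧ |(G.v w).1 / G.R u - x| ≤ 1 / 80 ∧
        ∀ j, j ≠ G.fam l → ‖η (G.tlab w j)‖ ≤ e := by
    intro x hx
    have hx2 : |x| ≤ 2 := by
      rw [abs_le] at hx hk ⊢
      constructor <;> linarith [hx.1, hx.2, hk.1, hk.2]
    obtain ⟨a1, a2, h1, h2, h3, h4, h5⟩ := hu l hl hs3 x hx2
    have hd := hdens a1 a2 h1 h2 h3
    have hc : 2 * Bad.card < ((Ico a1 a2).filter fun b => Hit G ta l b).card := by
      have h6 : c1 * (r * u) ≤ c1 * ((a2 - a1 : ℤ) : ℝ) := mul_le_mul_of_nonneg_left h4 hc1.le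
      have h7 : (2 : ℝ) * Bad.card < (((Ico a1 a2).filter fun b => Hit G ta l b).card : ℝ) := by
        nlinarith
      exact_mod_cast h7
    obtain ⟨b, hb, hgood⟩ := bnd_pick hG hD.tp hl Bad _ (fun b hb => (mem_filter.1 hb).2) hc
    obtain ⟨hbI, hta, htl⟩ := mem_filter.1 hb
    have htp := hD.tp _ hta
    have hnear := h5 b hbI htp htl
    obtain ⟨hcan, hsame, -⟩ := Gal.at'_spec hG hl b
    refine ⟨(G.at' l b).1, hta, ?_, hnear, ?_⟩
    · rw [htl]
      exact (hη l _ hl hcan.1 hsame).symm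
    · intro j hj
      have hcj := hG.tp_can _ htp j
      have hci := hG.tp_can _ htp (G.fam l)
      obtain ⟨hln, hsr⟩ := rep_spec hG hcj.1
      rw [hcj.2.1] at hln
      have hvr : G.valid (G.rep (G.tlab (G.at' l b).1 j)) := hln.1.1
      have hsi : G.s (G.tlab (G.at' l b).1 (G.fam l)) = G.s l := by
        rw [htl]
        exact (hG.same_s l _ hl hcan.1 hsame).symm
      have hti := hG.slope _ hci.1
      rw [hci.2.1] at hti
      have htj := hG.slope _ hcj.1
      rw [hcj.2.1] at htj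
      have hoff : |G.s (G.tlab (G.at' l b).1 j) / G.R u| ≤ small j := by
        refine off_small (x := (G.v (G.at' l b).1).1 / G.R u)
          (y := (G.v (G.at' l b).1).2 / G.R u) hj hti htj hσ ?_ ?_ ?_
        · rw [abs_le] at hx hnear ⊢
          constructor <;> linarith [hx.1, hx.2, hnear.1, hnear.2]
        · rw [hG.tp_on _ htp (G.fam l), hsi]
          ring
        · rw [hG.tp_on _ htp j]
          ring
      rw [abs_div, abs_of_pos hR, div_le_iff₀ hR] at hoff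
      rw [hη _ _ hcj.1 hvr hsr]
      refine hsm j _ hln ?_ ?_ (hgood j hj)
      · rw [← hD.inA_line _ _ hcj.1 hvr hsr]
        exact hD.mem _ hta j
      · rw [← hG.same_s _ _ hcj.1 hvr hsr]
        exact hoff
  obtain ⟨w, hw, hwl, hwx, hwe⟩ := good (-(kap (G.fam l) * (G.s l / G.R u)) - 3 / 80) (by
    rw [abs_le]; constructor <;> linarith)
  obtain ⟨w', hw', hwl', hwx', hwe'⟩ := good (-(kap (G.fam l) * (G.s l / G.R u)) + 3 / 80) (by
    rw [abs_le]; constructor <;> linarith)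
  rw [abs_le] at hwx hwx' hk
  have key := bnd_two (hD.tri w hw) (hD.tri w' hw') (fun j => hD.bdd _) (G.fam l) (hXi w hw)
    (hXi w' hw') (hwl.trans hwl'.symm)
    (by rw [abs_le]; constructor <;> linarith [hwx.1, hwx.2, hk.1, hk.2])
    (by rw [abs_le]; constructor <;> linarith [hwx'.1, hwx'.2, hk.1, hk.2])
    (by linarith [hwx.2, hwx'.1]) (fun j hj => ⟨hwe j hj, hwe' j hj⟩)
  rw [← hwl]
  exact key

end ECub.R
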