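import Pool.Agent.P.MP_029dcd_co.F.Defs

/-! Layer R, measure theory: conditional means, independence, lines that meet a square. -/

set_option autoImplicit false

namespace ECub.R

open CubicStab MeasureTheory Filter Topology Finset ProbabilityTheory
open scoped ENNReal

/-- conditional mean of the second coordinate given the first -/
theorem cond_mean {α V : Type*} [MeasurableSpace α] [NormedAddCommGroup V] [NormedSpace ℝ V]
    [CompleteSpace V] [MeasurableSpace V] [BorelSpace V] [SecondCountableTopology V]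
    (N : Measure (α × V)) [IsFiniteMeasure N] {B : ℝ} (hB0 : 0 ≤ B)
    (hB : ∀ᵐ p ∂N, ‖p.2‖ ≤ B) :
    ∃ hb : α → V, Measurable hb ∧ (∀ a, ‖hb a‖ ≤ B) ∧
      ∀ Φ : α → V →L[ℝ] ℝ, ∫ p, Φ p.1 (p.2 - hb p.1) ∂N = 0 := by
  classical
  set κ := N.condKernel with hκ
  have hdis : N.fst ⊗ₘ κ = N := N.disintegrate _
  set h0 : α → V := fun a => ∫ y, y ∂(κ a) with hh0
  have hm0 : Measurable h0 :=
    (StronglyMeasurable.integral_kernel (κ := κ) stronglyMeasurable_id).measurable
  have hae : ∀ᵐ a ∂N.fst, ∀ᵐ y ∂(κ a), ‖y‖ ≤ B := by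
    rw [← hdis] at hB
    exact Measure.ae_ae_of_ae_compProd hB
  refine ⟨fun a => if ‖h0 a‖ ≤ B then h0 a else 0, ?_, fun a => ?_, fun Φ => ?_⟩
  · exact Measurable.ite (measurableSet_le hm0.norm measurable_const) hm0 measurable_const
  · dsimp only
    split_ifs with h
    · exact h
    · simpa using hB0
  · by_cases hi : Integrable (fun p : α × V =>
        Φ p.1 (p.2 - if ‖h0 p.1‖ ≤ B then h0 p.1 else 0)) N
    · rw [← hdis] at hi ⊢
      rw [Measure.integral_compProd hi]
      refine integral_eq_zero_of_ae ?_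
      filter_upwards [hae] with a ha
      have hint : Integrable (fun y : V => y) (κ a) :=
        Integrable.of_bound aestronglyMeasurable_id B ha
      have hle : ‖h0 a‖ ≤ B := by
        have := norm_integral_le_of_norm_le_const ha
        simpa using this
      simp only [if_pos hle, Pi.zero_apply]
      have hint2 : Integrable (fun y : V => y - h0 a) (κ a) := hint.sub (integrable_const _)
      rw [(Φ a).integral_comp_comm hint2, integral_sub hint (integrable_const _)]
      simp [hh0]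
    · exact integral_undef hi

theorem integral_prod_zero_left {α β : Type*} [MeasurableSpace α] [MeasurableSpace β]
    (μ : Measure α) (ν : Measure β) [SFinite μ] [SFinite ν] (f : α × β → ℝ)
    (h : ∀ b, ∫ a, f (a, b) ∂μ = 0) : ∫ p, f p ∂(μ.prod ν) = 0 := by
  by_cases hi : Integrable f (μ.prod ν)
  · rw [integral_prod_symm f hi]
    simp [h]
  · exact integral_undef hi

theorem integral_prod_zero_right {α β : Type*} [MeasurableSpace α] [MeasurableSpace β]
    (μ : Measure α) (ν : Measure β) [SFinite μ] [SFinite ν] (f : α × β → ℝ)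
    (h : ∀ a, ∫ b, f (a, b) ∂ν = 0) : ∫ p, f p ∂(μ.prod ν) = 0 := by
  by_cases hi : Integrable f (μ.prod ν)
  · rw [integral_prod f hi]
    simp [h]
  · exact integral_undef hi

/-- conditional mean of the deformation given mark and offset -/
theorem cond_mean_dt {n : ℕ} (N : Measure (Dt n)) [IsFiniteMeasure N]
    (hB : ∀ᵐ d ∂N, ‖d.2.2‖ ≤ 1) :
    ∃ hb : E n × ℝ → H n, Measurable hb ∧ (∀ a, ‖hb a‖ ≤ 1) ∧
      ∀ Φ : E n × ℝ → H n →L[ℝ] ℝ,
        ∫ d, Φ (d.1, d.2.1) (d.2.2 - hb (d.1, d.2.1)) ∂N = 0 := by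
  set e : (E n × ℝ × H n) ≃ᵐ ((E n × ℝ) × H n) := MeasurableEquiv.prodAssoc.symm with he
  have hB' : ∀ᵐ p ∂(N.map e), ‖p.2‖ ≤ 1 := by
    rw [e.measurableEmbedding.ae_map_iff]
    exact hB
  obtain ⟨hb, h1, h2, h3⟩ := cond_mean (N.map e) zero_le_one hB'
  refine ⟨hb, h1, h2, fun Φ => ?_⟩
  have := h3 Φ
  rw [e.measurableEmbedding.integral_map] at this
  exact this

/-- the clipped function -/
noncomputable def clip (x : ℝ) : ℝ := max (-1) (min 1 x)

theorem measurable_clip : Measurable clip :=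
  measurable_const.max (measurable_const.min measurable_id)

theorem abs_clip_le (x : ℝ) : |clip x| ≤ 1 := by
  unfold clip
  rw [abs_le]
  exact ⟨le_max_left _ _, max_le (by norm_num) (min_le_left _ _)⟩

theorem clip_of_abs_le {x : ℝ} (h : |x| ≤ 1) : clip x = x := by
  obtain ⟨h1, h2⟩ := abs_le.1 h
  unfold clip
  rw [min_eq_right h2, max_eq_right h1]

theorem clip_mul_nonneg (x : ℝ) : 0 ≤ clip x * x := by
  unfold clip
  rcases le_total 0 x with h | h
  · exact mul_nonneg (le_max_of_le_right (le_min zero_le_one h)) h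
  · exact mul_nonneg_of_nonpos_of_nonpos
      (max_le (by norm_num) ((min_le_right _ _).trans h)) h

theorem eq_zero_of_clip_mul {x : ℝ} (h : clip x * x = 0) : x = 0 := by
  rcases mul_eq_zero.1 h with h | h
  · unfold clip at h
    rcases max_choice (-1 : ℝ) (min 1 x) with h1 | h1
    · rw [h1] at h; norm_num at h
    · rw [h1] at h
      rcases min_choice (1 : ℝ) x with h2 | h2
      · rw [h2] at h; norm_num at h
      · rwa [h2] at h
  · exact h

theorem ae_zero_of_clip {α : Type*} [MeasurableSpace α] {μ : Measure α} {ψ : α → ℝ}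
    (hi : Integrable (fun a => clip (ψ a) * ψ a) μ) (h : ∫ a, clip (ψ a) * ψ a ∂μ = 0) :
    ∀ᵐ a ∂μ, ψ a = 0 := by
  have := (integral_eq_zero_iff_of_nonneg (fun a => clip_mul_nonneg (ψ a)) hi).1 h
  filter_upwards [this] with a ha
  exact eq_zero_of_clip_mul ha

/-- independence passes to measures on labels -/
theorem ind_gen {Ω' Ω β ι : Type*} [MeasurableSpace Ω'] [MeasurableSpace Ω] [MeasurableSpace β]
    [MeasurableSpace ι] {μ' : Measure Ω'} {μ : Measure Ω} {lam : Measure β} [SFinite μ']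
    [SFinite μ] [SFinite lam] (c : Measure ι) [SFinite c] {π : Ω' → Ω} {Ψ : Ω' → β}
    (hπ : Measurable π) (hΨ : Measurable Ψ)
    (hlaw : μ'.map (fun ω => (π ω, Ψ ω)) = μ.prod lam) {R : Set (Ω × ι)}
    (hR : MeasurableSet R) :
    ((μ'.prod c).restrict {x | (π x.1, x.2) ∈ R}).map (fun x => ((π x.1, x.2), Ψ x.1))
      = ((μ.prod c).restrict R).prod lam := by
  have hf : Measurable fun x : Ω' × ι => ((π x.1, x.2), Ψ x.1) :=
    ((hπ.comp measurable_fst).prodMk measurable_snd).prodMk (hΨ.comp measurable_fst)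
  have h1 : (μ'.prod c).map (fun x : Ω' × ι => ((π x.1, x.2), Ψ x.1))
      = (μ.prod c).prod lam := by
    have hp : MeasurePreserving (fun ω => (π ω, Ψ ω)) μ' (μ.prod lam) := ⟨hπ.prodMk hΨ, hlaw⟩
    have h2 := hp.prod (MeasurePreserving.id c)
    have h3 := measurePreserving_prodAssoc μ lam c
    have h4 := (MeasurePreserving.id μ).prod (Measure.measurePreserving_swap (μ := lam) (ν := c))
    have h5 := (measurePreserving_prodAssoc μ c lam).symm
    exact (h5.comp (h4.comp (h3.comp h2))).map_eq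
  have h6 : {x : Ω' × ι | (π x.1, x.2) ∈ R}
      = (fun x : Ω' × ι => ((π x.1, x.2), Ψ x.1)) ⁻¹' (R ×ˢ Set.univ) := by
    ext x; simp
  rw [h6, ← Measure.restrict_map hf (hR.prod MeasurableSet.univ), h1,
    ← Measure.prod_restrict, Measure.restrict_univ]

theorem isOpen_Q (q : ℝ) : IsOpen (Q q) := isOpen_Ioo.prod isOpen_Ioo

theorem measurableSet_Q (q : ℝ) : MeasurableSet (Q q) := (isOpen_Q q).measurableSet

theorem Q_mono {q q' : ℝ} (h : q' ≤ q) : Q q' ⊆ Q q :=
  Set.prod_mono (Set.Ioo_subset_Ioo (neg_le_neg h) h) (Set.Ioo_subset_Ioo (neg_le_neg h) h)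

theorem volume_Q_ne_top (q : ℝ) : volume (Q q) ≠ ∞ := by
  unfold Q
  rw [Measure.volume_eq_prod, Measure.prod_prod]
  exact ENNReal.mul_ne_top (by simp) (by simp)

theorem volume_Q_ne_zero {q : ℝ} (hq : 0 < q) : volume (Q q) ≠ 0 :=
  ((isOpen_Q q).measure_pos volume ⟨(0, 0), by simp [Q, hq]⟩).ne'

theorem isOpen_chord (q s t : ℝ) : IsOpen {x : ℝ | (x, s + t * x) ∈ Q q} :=
  (isOpen_Q q).preimage (by fun_prop)

/-- a property that holds almost everywhere on a nonempty open set holds at two points -/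
theorem two_of_ae {U : Set ℝ} (hU : IsOpen U) (hne : U.Nonempty) {p : ℝ → Prop}
    (h : ∀ᵐ x, x ∈ U → p x) : ∃ x x', x ≠ x' ∧ x ∈ U ∧ x' ∈ U ∧ p x ∧ p x' := by
  have key : ∀ y : ℝ, ∃ x, x ≠ y ∧ x ∈ U ∧ p x := by
    intro y
    by_contra hcon
    have h2 : ∀ᵐ x : ℝ, x ∉ U := by
      filter_upwards [h, Measure.ae_ne volume y] with x hx hy hU'
      exact hcon ⟨x, hy, hU', hx hU'⟩
    have h3 : volume U = 0 := by
      rw [ae_iff] at h2
      simpa using h2
    exact (hU.measure_pos volume hne).ne' h3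
  obtain ⟨x, _, hx, hpx⟩ := key 0
  obtain ⟨x', hne', hx', hpx'⟩ := key x
  exact ⟨x, x', hne'.symm, hx, hx', hpx, hpx'⟩

theorem isOpen_meet {n : ℕ} (q : ℝ) :
    IsOpen {y : E n × ℝ | ∃ x : ℝ, (x, y.2 + y.1 1 * x) ∈ Q q} := by
  rw [Set.ofPred_exists]
  exact isOpen_iUnion fun x => (isOpen_Q q).preimage (by fun_prop)

theorem measurable_xp {n : ℕ} : Measurable fun y : Dt n × Dt n => xp y.1 y.2 := by
  unfold xp
  fun_prop

theorem measurableSet_cross {n : ℕ} (q : ℝ) :
    MeasurableSet {y : Dt n × Dt n | y.1.1 1 ≠ y.2.1 1 ∧ xp y.1 y.2 ∈ Q q} := by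
  refine MeasurableSet.inter ?_ (measurable_xp (measurableSet_Q q))
  exact (measurableSet_eq_fun (f := fun y : Dt n × Dt n => y.1.1 1) (by fun_prop)
    (g := fun y => y.2.1 1) (by fun_prop)).compl

/-- the law of the marks of crossing pairs dominates the product law -/
theorem pair_dom {n : ℕ} (m : Measure (E n)) [SFinite m] (N : Measure (Dt n)) [SFinite N]
    {q : ℝ} (hq : 0 < q)
    (hac : (m.prod volume).restrict {y : E n × ℝ | ∃ x : ℝ, (x, y.2 + y.1 1 * x) ∈ Q q}
      ≪ N.map fun d => (d.1, d.2.1))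
    {p : E n × E n → Prop} (hp : MeasurableSet {y | p y})
    (h : ∀ᵐ y ∂((N.prod N).restrict {y | y.1.1 1 ≠ y.2.1 1 ∧ xp y.1 y.2 ∈ Q q}),
      p (y.1.1, y.2.1)) :
    ∀ᵐ y ∂(m.prod m), y.1 1 ≠ y.2 1 → p y := by
  set M : Set (E n × ℝ) := {y | ∃ x : ℝ, (x, y.2 + y.1 1 * x) ∈ Q q} with hM
  have hMm : MeasurableSet M := (isOpen_meet q).measurableSet
  set cr : (E n × ℝ) × (E n × ℝ) → ℝ × ℝ := fun y =>
    ((y.2.2 - y.1.2) / (y.1.1 1 - y.2.1 1),
      y.1.2 + y.1.1 1 * ((y.2.2 - y.1.2) / (y.1.1 1 - y.2.1 1))) with hcr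
  have hcrm : Measurable cr := by simp only [hcr]; fun_prop
  set r : (E n × ℝ) × (E n × ℝ) → Prop := fun y =>
    y.1.1 1 ≠ y.2.1 1 → cr y ∈ Q q → p (y.1.1, y.2.1) with hr
  have hrm : MeasurableSet {y | r y} := by
    have h1 : MeasurableSet {y : (E n × ℝ) × (E n × ℝ) | y.1.1 1 = y.2.1 1} :=
      measurableSet_eq_fun (by fun_prop) (by fun_prop)
    have h2 : MeasurableSet {y : (E n × ℝ) × (E n × ℝ) | cr y ∈ Q q} :=
      hcrm (measurableSet_Q q)
    have h3 : MeasurableSet {y : (E n × ℝ) × (E n × ℝ) | p (y.1.1, y.2.1)} :=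
      (by fun_prop : Measurable fun y : (E n × ℝ) × (E n × ℝ) => (y.1.1, y.2.1)) hp
    convert h1.union (h2.compl.union h3) using 1
    ext y
    simp only [hr, Set.mem_ofPred_eq, Set.mem_union, Set.mem_compl_iff]
    tauto
  have hpm : Measurable fun d : Dt n => (d.1, d.2.1) := by fun_prop
  have h1 : ∀ᵐ y ∂((N.map fun d => (d.1, d.2.1)).prod (N.map fun d => (d.1, d.2.1))), r y := by
    rw [Measure.map_prod_map _ _ hpm hpm, ae_map_iff (hpm.prodMap hpm).aemeasurable hrm]
    rw [ae_restrict_iff' (measurableSet_cross q)] at h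
    filter_upwards [h] with y hy h1 h2
    exact hy ⟨h1, h2⟩
  have h2 := (hac.prod hac).ae_le h1
  rw [Measure.prod_restrict] at h2
  have h3 : ∀ᵐ y ∂((m.prod volume).prod (m.prod volume)), r y := by
    have h2' : ∀ᵐ y ∂(((m.prod volume).prod (m.prod volume)).restrict (M ×ˢ M)), r y := h2
    rw [ae_restrict_iff' (hMm.prod hMm)] at h2'
    filter_upwards [h2'] with y hy hne hQ
    refine hy ⟨⟨_, hQ⟩, ⟨(cr y).1, ?_⟩⟩ hne hQ
    have : y.2.2 + y.2.1 1 * (cr y).1 = (cr y).2 := by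
      have := sub_ne_zero.2 hne
      simp only [hcr]
      field_simp
      ring
    rw [this]
    exact hQ
  have h4 : ∀ᵐ a ∂m, ∀ᵐ s : ℝ, ∀ᵐ a' ∂m, ∀ᵐ s' : ℝ, r ((a, s), (a', s')) := by
    filter_upwards [Measure.ae_ae_of_ae_prod (Measure.ae_ae_of_ae_prod h3)] with a ha
    filter_upwards [ha] with s hs
    exact Measure.ae_ae_of_ae_prod hs
  have hgm : MeasurableSet {y : E n × E n | y.1 1 ≠ y.2 1 → p y} := by
    have h1 : MeasurableSet {y : E n × E n | y.1 1 = y.2 1} :=
      measurableSet_eq_fun (by fun_prop) (by fun_prop)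
    convert h1.union hp using 1
    ext y
    simp only [Set.mem_ofPred_eq, Set.mem_union]
    tauto
  rw [Measure.ae_prod_iff_ae_ae hgm]
  filter_upwards [h4] with a ha
  obtain ⟨s, _, _, hs, _, hs1, _⟩ := two_of_ae (U := Set.Ioo (-q) q) isOpen_Ioo
    ⟨0, by simp [hq]⟩ (p := fun s => ∀ᵐ a' ∂m, ∀ᵐ s' : ℝ, r ((a, s), (a', s')))
    (by filter_upwards [ha] with s hs _ using hs)
  filter_upwards [hs1] with a' ha' hne
  have hU : IsOpen {s' : ℝ | cr ((a, s), (a', s')) ∈ Q q} :=
    (isOpen_Q q).preimage (by simp only [hcr]; fun_prop)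
  obtain ⟨s', _, _, hs', _, h5, _⟩ := two_of_ae hU ⟨s, by
      simp only [hcr, Set.mem_ofPred_eq, sub_self, zero_div, mul_zero, add_zero]
      exact ⟨by simp [hq], hs⟩⟩ (p := fun s' => r ((a, s), (a', s')))
    (by filter_upwards [ha'] with s' h _ using h)
  exact h5 hne hs'

end ECub.R
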