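import Pool.Agent.P.MP_029dcd_co.F.R.Bnd

/-! Layer R: almost sure properties of galaxies. -/

set_option autoImplicit false

namespace ECub.R

open CubicStab MeasureTheory Filter Topology Finset
open scoped ENNReal

theorem ae_cells (D : Dyn) {p : D.Ω → Prop} (h : ∀ᵐ ω ∂D.μ, p ω) :
    ∀ᵐ ω ∂D.μ, ∀ w, p (D.T w ω) := by
  exact ae_all_iff.2 fun w => (D.mp w).quasiMeasurePreserving.ae h

variable (S : Sys)

theorem tx_T (ω : S.Ω) (w : Z2) (i : Fin 3) :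
    S.tx (S.T w ω) i = (S.T w ω, (S.Γ ω).tl w i) := by
  rw [Sys.tx, (S.shift ω w).tl, add_zero]

theorem valid_T (ω : S.Ω) (l : Lb) :
    (S.Γ (S.T l.1 ω)).valid (0, l.2) ↔ (S.Γ ω).valid l := by
  simp only [Gal.valid, (S.shift ω l.1).g, add_zero]

theorem sl_T (ω : S.Ω) (l : Lb) : S.sl (S.T l.1 ω, l.2) = (S.Γ ω).t l := by
  simp only [Sys.sl, (S.shift ω l.1).t, add_zero]

variable {S} {A : Set (S.Ω × ℕ)}

/-- extension of an almost sure property of canonical labels to all labels -/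
theorem ext_valid (hA : S.LineSet A) (i : Fin 3) {p : S.Ω × ℕ → Prop} (hp : S.LineFn p)
    (h : ∀ᵐ x ∂((S.mh i).restrict A), p x) :
    ∀ᵐ ω ∂S.μ, ∀ l, (S.Γ ω).valid l → (S.Γ ω).fam l = i → (S.T l.1 ω, l.2) ∈ A →
      p (S.T l.1 ω, l.2) := by
  filter_upwards [S.ae_gal i _ ((ae_restrict_iff' hA.1).1 h), hA.2, hp] with ω h2 hA2 hp2 l hl hf hlA
  obtain ⟨c1, c2, -⟩ := Gal.at'_spec (S.ax ω) hl 0
  exact (hp2 l _ hl c1.1 c2).mpr (h2 _ (hf ▸ c1) ((hA2 l _ hl c1.1 c2).mp hlA))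

theorem measurableSet_pair (hA : MeasurableSet A) :
    MeasurableSet {x : S.Ω × ℕ × ℕ | (x.1, x.2.1) ∈ A ∧ (x.1, x.2.2) ∈ A} := by
  exact ((measurable_fst.prodMk (measurable_fst.comp measurable_snd)) hA).inter
    ((measurable_fst.prodMk (measurable_snd.comp measurable_snd)) hA)

/-- almost sure facts about crossing pairs -/
theorem ae_pm (i j : Fin 3) : ∀ᵐ x ∂(S.pm i j), (S.Γ x.1).valid (0, x.2.1) ∧
    (S.Γ x.1).valid (0, x.2.2) ∧ (S.Γ x.1).fam (0, x.2.1) = i ∧ (S.Γ x.1).fam (0, x.2.2) = j ∧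
    S.sl (x.1, x.2.1) ≠ S.sl (x.1, x.2.2) := by
  have hm : MeasurableSet {x : S.Ω × ℕ × ℕ | (S.Γ x.1).cr 0 x.2.1 x.2.2 = true ∧
      (S.Γ x.1).fam (0, x.2.1) = i ∧ (S.Γ x.1).fam (0, x.2.2) = j ∧
      (S.Γ x.1).t (0, x.2.1) ≠ (S.Γ x.1).t (0, x.2.2)} :=
    measurableSet_setOfPred.2 (measurable_from_prod_countable_left fun y => measurableSet_setOfPred.1
      ((S.meas.cr 0 y.1 y.2 (measurableSet_singleton true)).inter
        ((S.meas.fam (0, y.1) (measurableSet_singleton i)).inter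
          ((S.meas.fam (0, y.2) (measurableSet_singleton j)).inter
            (measurableSet_eq_fun (S.meas.t (0, y.1)) (S.meas.t (0, y.2))).compl))))
  filter_upwards [ae_restrict_mem hm] with x hx
  obtain ⟨v1, v2, -⟩ := (S.ax x.1).cr_valid _ _ _ hx.1
  exact ⟨v1, v2, hx.2.1, hx.2.2.1, hx.2.2.2⟩

theorem ae_pm_of_ae (i j : Fin 3) {p : S.Ω → Prop} (h : ∀ᵐ ω ∂S.μ, p ω) :
    ∀ᵐ x ∂(S.pm i j), p x.1 := by
  exact ae_restrict_of_ae (Measure.quasiMeasurePreserving_fst.ae h)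

theorem ae_mh_of_ae (i : Fin 3) {p : S.Ω → Prop} (h : ∀ᵐ ω ∂S.μ, p ω) :
    ∀ᵐ x ∂(S.mh i), p x.1 := by
  exact ae_restrict_of_ae (Measure.quasiMeasurePreserving_fst.ae h)

theorem ae_mh_can (i : Fin 3) : ∀ᵐ x ∂(S.mh i), (S.Γ x.1).Can i (0, x.2) := by
  exact ae_restrict_mem (measurableSet_setOfPred.2 (measurable_from_prod_countable_left fun y =>
    measurableSet_setOfPred.1 ((measurableSet_lt measurable_const (S.meas.g 0)).inter
      ((S.meas.fam (0, y) (measurableSet_singleton i)).inter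
        (S.meas.can (0, y) (measurableSet_singleton true))))))

/-- extension to the two labels of a crossing pair -/
theorem ext_pm (hA : S.LineSet A) (i : Fin 3) {p : S.Ω × ℕ → Prop} (hp : S.LineFn p)
    (h : ∀ᵐ x ∂((S.mh i).restrict A), p x) :
    ∀ᵐ x ∂((S.pm i i).restrict {x | (x.1, x.2.1) ∈ A ∧ (x.1, x.2.2) ∈ A}),
      p (x.1, x.2.1) ∧ p (x.1, x.2.2) := by
  rw [ae_restrict_iff' (measurableSet_pair hA.1)]
  filter_upwards [ae_pm_of_ae i i (ext_valid hA i hp h), ae_pm i i] with x h2 h3 h4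
  have e1 := h2 (0, x.2.1) h3.1 h3.2.2.1
  have e2 := h2 (0, x.2.2) h3.2.1 h3.2.2.2.1
  simp only [S.T_zero] at e1 e2
  exact ⟨e1 h4.1, e2 h4.2⟩

/-- extension to the labels of triple points -/
theorem ext_tp (hA : MeasurableSet A) (i : Fin 3) {p : S.Ω × ℕ → Prop}
    (h : ∀ᵐ x ∂((S.mh i).restrict A), p x) : ∀ᵐ ω ∂S.μ, ω ∈ S.TA A → p (S.tx ω i) := by
  filter_upwards [S.ae_gal i _ ((ae_restrict_iff' hA).1 h)] with ω h1 hω
  have e := h1 _ ((S.ax ω).tp_can 0 hω.1 i)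
  simp only [Gal.tlab, S.T_zero] at e
  exact e (hω.2 i)

theorem slope_tx {n : ℕ} {ν : S.Ω × ℕ → E n} (hν : S.Marks0 ν) {ω : S.Ω}
    (hω : (S.Γ ω).tp 0 = true) (i : Fin 3) : ν (S.tx ω i) 1 = S.sl (S.tx ω i) := by
  exact hν.slope _ ((S.ax ω).tp_can 0 hω i).1

theorem ae_tri {n : ℕ} {ν : S.Ω × ℕ → E n} (hν : S.Marks A ν) :
    ∀ᵐ ω ∂S.μ, ω ∈ S.TA A → Tri fun i => ν (S.tx ω i) := by
  filter_upwards [ae_all_iff.2 hν.lin] with ω h1 hω
  refine ⟨fun i => hν.one _, fun i => ?_, fun k => ?_⟩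
  · have c := (S.ax ω).tp_can 0 hω.1 i
    have e := (S.ax ω).slope _ c.1
    rw [c.2.1] at e
    rw [slope_tx hν.toMarks0 hω.1]
    exact e
  · simp only [slope_tx hν.toMarks0 hω.1]
    exact h1 k hω

/-- the deterministic data of almost every galaxy -/
theorem ae_dec (hA : S.LineSet A) {n : ℕ} {ν : S.Ω × ℕ → E n} (hν : S.Marks A ν) {B : ℝ}
    (hB : ∀ x, ‖ν x‖ ≤ B) : ∀ᵐ ω ∂S.μ, Dec (S.Γ ω) (S.ev ν ω)
      (fun l => (S.T l.1 ω, l.2) ∈ A) (fun w => S.T w ω ∈ S.TA A) B := by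
  filter_upwards [hν.line, hA.2, ae_cells S.toDyn (ae_tri hν)] with ω h1 h2 h3
  refine ⟨h1, h2, fun l => hB _, fun l => hν.one _, fun l hl =>
    (hν.slope (S.T l.1 ω, l.2) ((valid_T S ω l).2 hl)).trans (sl_T S ω l), fun w hw => ?_,
    fun w hw i => ?_, fun w hw => ?_⟩
  · have e := hw.1
    rwa [(S.shift ω w).tp, add_zero] at e
  · have e := hw.2 i
    rwa [tx_T] at e
  · have e := h3 w hw
    simp only [tx_T] at e
    exact e

open Classical in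
/-- every line of the core is eventually regular, and most lines are regular at a given scale -/
theorem ae_dens (hS : S.toDyn.Erg) {Λ : (ℝ × ℝ) ≃L[ℝ] (ℝ × ℝ)} (hΛ : S.Lin Λ)
    (hA : S.LineSet A) {c1 : NNReal} (hcore : S.Core A c1) (A0 : ℕ) (ε0 : ℝ) (hε0 : 0 < ε0) :
    ∀ᵐ ω ∂S.μ, (∀ l, S.InA A ω l → ∀ᶠ u : ℕ in atTop,
        Dens (S.Γ ω) (fun w => S.T w ω ∈ S.TA A) c1 ε0 A0 u l) ∧
      ∀ (i : Fin 3) (δ : ℝ), 0 < δ → ∀ᶠ u : ℕ in atTop,
        (((S.lnsA A ω i (3 * (S.Γ ω).R u)).filter fun l =>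
          ¬ Dens (S.Γ ω) (fun w => S.T w ω ∈ S.TA A) c1 ε0 A0 u l).card : ℝ) ≤ δ * u := by
  let M : Fin 3 → Set (S.Ω × ℕ) := fun i => {x | x.1 ∈ S.TA A ∧ (S.Γ x.1).tl 0 i = x.2}
  have hM : ∀ i, MeasurableSet (M i) := fun i =>
    measurableSet_setOfPred.2 (measurable_from_prod_countable_left fun y => measurableSet_setOfPred.1
      ((S.measurableSet_TA hA.1).inter (S.meas.tl 0 i (measurableSet_singleton y))))
  have hμ : ∀ i B, MeasurableSet B → S.mh i (M i ∩ B) = S.μ (S.TA A ∩ {ω | S.tx ω i ∈ B}) := by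
    intro i B hB
    rw [← lintegral_indicator_one ((hM i).inter hB),
      S.lintegral_mh i _ (measurable_one.indicator ((hM i).inter hB)),
      ← lintegral_indicator_one (s := S.TA A ∩ {ω | S.tx ω i ∈ B})
        ((S.measurableSet_TA hA.1).inter (S.measurable_tx i hB))]
    refine lintegral_congr fun ω => ?_
    rw [tsum_eq_single ((S.Γ ω).tl 0 i) fun j hj => by
      rw [Set.indicator_of_notMem fun k => hj k.1.2.symm, ite_self]]
    by_cases h : ω ∈ S.TA A ∩ {ω | S.tx ω i ∈ B}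
    · rw [if_pos (show (S.Γ ω).Can i (0, (S.Γ ω).tl 0 i) from (S.ax ω).tp_can 0 h.1.1 i),
        Set.indicator_of_mem h,
        Set.indicator_of_mem (show (ω, (S.Γ ω).tl 0 i) ∈ M i ∩ B from ⟨⟨h.1, rfl⟩, h.2⟩)]
      rfl
    · rw [Set.indicator_of_notMem h, Set.indicator_of_notMem
        (show (ω, (S.Γ ω).tl 0 i) ∉ M i ∩ B from fun k => h ⟨k.1.1, k.2⟩), ite_self]
  have hF : ∀ i, Measurable ((M i).indicator (1 : S.Ω × ℕ → ℝ)) := fun i =>
    measurable_one.indicator (hM i)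
  choose Fb hm hline hint hB het using fun i => S.line_et i _ (hF i)
    ((integrable_const (1 : ℝ)).indicator (hM i))
  have hge : ∀ i, ∀ᵐ x ∂((S.mh i).restrict A), (c1 : ℝ) ≤ Fb i x := by
    intro i
    have b1 : S.LineSet {x | Fb i x < c1} := ⟨measurableSet_lt (hm i) measurable_const, by
      filter_upwards [hline i] with ω h l l' a b c
      exact congrArg (· < (c1 : ℝ)) (h l l' a b c)⟩
    have b2 : S.LineSet ({x | Fb i x < c1} ∩ A) := ⟨b1.1.inter hA.1, by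
      filter_upwards [b1.2, hA.2] with ω h h' l l' a b c
      exact congrArg₂ And (h l l' a b c) (h' l l' a b c)⟩
    have e1 := hB i _ b2
    rw [integral_indicator_one (hM i), measureReal_restrict_apply (hM i), Measure.real,
      hμ i _ b2.1] at e1
    have e2 : S.TA A ∩ {ω | S.tx ω i ∈ {x | Fb i x < c1} ∩ A} =
        S.TA A ∩ {ω | S.tx ω i ∈ {x | Fb i x < c1}} := by
      ext ω
      exact ⟨fun h => ⟨h.1, h.2.1⟩, fun h => ⟨h.1, h.2, h.1.2 i⟩⟩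
    have e3 := ENNReal.toReal_mono (measure_ne_top _ _) (hcore i _ b1)
    rw [← e2, ← e1, ENNReal.toReal_mul, ENNReal.coe_toReal] at e3
    have e4 : ¬ 0 < ∫ x in {x | Fb i x < c1} ∩ A, ((c1 : ℝ) - Fb i x) ∂(S.mh i) := by
      rw [integral_sub (integrable_const _) (hint i).integrableOn, setIntegral_const, smul_eq_mul,
        Measure.real]
      linarith
    rw [setIntegral_pos_iff_support_of_nonneg_ae (f := fun x => (c1 : ℝ) - Fb i x) (by
      filter_upwards [ae_restrict_mem b2.1] with x hx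
      exact sub_nonneg.2 (le_of_lt hx.1)) ((integrable_const _).sub (hint i)).integrableOn,
      not_lt, nonpos_iff_eq_zero] at e4
    rw [ae_restrict_iff' hA.1]
    refine measure_mono_null (fun x hx => ?_) e4
    simp only [Set.mem_compl_iff, Set.mem_ofPred_eq, Classical.not_imp, not_le] at hx
    exact ⟨(sub_pos.2 hx.2).ne', hx.2, hx.1⟩
  have hge' := fun i => ext_valid hA i (p := fun x => (c1 : ℝ) ≤ Fb i x) (by
    filter_upwards [hline i] with ω h l l' a b c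
    exact congrArg ((c1 : ℝ) ≤ ·) (h l l' a b c)) (hge i)
  have key : ∀ ω l (u : ℕ), (c1 : ℝ) ≤ S.ev (Fb ((S.Γ ω).fam l)) ω l → (∀ a1 a2 : ℤ,
      -((A0 : ℤ) * u) ≤ a1 → a1 ≤ a2 → a2 ≤ (A0 : ℤ) * u →
      |(∑ b ∈ Ico a1 a2, S.ev ((M ((S.Γ ω).fam l)).indicator 1) ω ((S.Γ ω).at' l b)) -
        ((a2 - a1 : ℤ) : ℝ) * S.ev (Fb ((S.Γ ω).fam l)) ω l| ≤ ε0 * u) →
      Dens (S.Γ ω) (fun w => S.T w ω ∈ S.TA A) c1 ε0 A0 u l := by
    intro ω l u h1 h2 a1 a2 b1 b2 b3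
    have e := (abs_le.1 (h2 a1 a2 b1 b2 b3)).1
    have e' : ∑ b ∈ Ico a1 a2, S.ev ((M ((S.Γ ω).fam l)).indicator (1 : S.Ω × ℕ → ℝ)) ω
        ((S.Γ ω).at' l b) = (((Ico a1 a2).filter fun b =>
          Hit (S.Γ ω) (fun w => S.T w ω ∈ S.TA A) l b).card : ℝ) := by
      rw [← sum_boole]
      refine sum_congr rfl fun b _ => ?_
      simp only [Sys.ev, Set.indicator, M, Set.mem_ofPred_eq, (S.shift ω _).tl, add_zero, Hit,
        Gal.tlab, Prod.ext_iff, true_and, Pi.one_apply]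
    have e2 : (0 : ℝ) ≤ ((a2 - a1 : ℤ) : ℝ) := by exact_mod_cast sub_nonneg.2 b2
    nlinarith [mul_le_mul_of_nonneg_left h1 e2]
  filter_upwards [ae_all_iff.2 hge', ae_all_iff.2 het, hΛ.lin, ae_all_iff.2 fun i =>
    ae_all_iff.2 fun m : ℕ => S.line_unif hS hΛ i _ _ (hF i) (hm i) (hline i) (het i) 3 A0 ε0
      (1 / ((m : ℝ) + 1)) hε0 (by positivity)] with ω h1 h2 h3 h4
  refine ⟨fun l hl => ?_, fun i δ hδ => ?_⟩
  · filter_upwards [h2 _ l hl.1 rfl A0 ε0 hε0] with u hu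
    exact key ω l u (h1 _ l hl.1 rfl hl.2) hu
  · obtain ⟨m, hm'⟩ := exists_nat_one_div_lt hδ
    filter_upwards [h4 i m] with u hu
    refine le_trans (le_trans (Nat.cast_le.2 (card_le_card fun l hl => ?_)) hu)
      (mul_le_mul_of_nonneg_right hm'.le (Nat.cast_nonneg _))
    obtain ⟨a1, a2⟩ := mem_filter.1 hl
    obtain ⟨a3, a4⟩ := mem_filter.1 a1
    obtain ⟨a5, rfl, -⟩ := ((Gal.mem_lns (S.ax ω) hΛ.ok h3 i _ l).1 a3).1.1
    exact mem_filter.2 ⟨a3, fun k => a2 (key ω l u (h1 _ l a5 rfl a4) k)⟩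

end ECub.R
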