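import Pool.Agent.P.MP_029dcd_co.F.LayU
import Pool.Agent.P.MP_029dcd_co.F.R.Alg

/-! Layer R, geometry: location of triple points on a line, counting lemmas. -/

set_option autoImplicit false

namespace ECub.R

open CubicStab MeasureTheory Filter Topology Finset
open scoped ENNReal

/-- bound for the offsets of regular lines -/
noncomputable def big : Fin 3 → ℝ := ![21 / 10, 21 / 10, 21 / 20]
/-- bound for the offsets of the auxiliary lines -/
noncomputable def small : Fin 3 → ℝ := ![17 / 10, 17 / 10, 17 / 20]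
/-- a slightly larger bound; such lines still meet the inner square -/
noncomputable def mid : Fin 3 → ℝ := ![9 / 5, 9 / 5, 9 / 10]
/-- the preferred abscissa on a line with offset `σ` is `-kap i * σ` -/
noncomputable def kap : Fin 3 → ℝ := ![2 / 3, -(2 / 3), 0]

theorem big_pos (i : Fin 3) : 0 < big i := by
  fin_cases i <;> norm_num [big]

theorem big_le (i : Fin 3) : big i ≤ 3 := by
  fin_cases i <;> norm_num [big]

theorem small_le_big (i : Fin 3) : small i ≤ big i := by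
  fin_cases i <;> norm_num [big, small]

theorem small_add_le_mid (i : Fin 3) : small i + 1 / 20 ≤ mid i := by
  fin_cases i <;> norm_num [mid, small]

theorem kap_mul_le (i : Fin 3) {σ : ℝ} (hσ : |σ| ≤ big i) : |kap i * σ| ≤ 7 / 5 := by
  rw [abs_le] at hσ ⊢
  fin_cases i <;> simp only [big, kap, Fin.zero_eta, Fin.mk_one, Fin.reduceFinMk,
    Matrix.cons_val_zero, Matrix.cons_val_one, Matrix.cons_val] at hσ ⊢ <;>
    constructor <;> linarith [hσ.1, hσ.2]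

theorem off_small {i j : Fin 3} (hij : j ≠ i) {t t' σ σ' x y : ℝ} (ht : |t - ctr i| ≤ 1 / 100)
    (ht' : |t' - ctr j| ≤ 1 / 100) (hσ : |σ| ≤ big i) (hx : |x + kap i * σ| ≤ 1 / 20)
    (h1 : y = t * x + σ) (h2 : y = t' * x + σ') : |σ'| ≤ small j := by
  have hk := kap_mul_le i hσ
  have hx' : |x| ≤ 29 / 20 := by
    rw [abs_le] at hk hx ⊢
    constructor <;> linarith [hk.1, hk.2, hx.1, hx.2]
  have hd : |(t - ctr i) - (t' - ctr j)| ≤ 2 / 100 := by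
    rw [abs_le] at ht ht' ⊢
    constructor <;> linarith [ht.1, ht.2, ht'.1, ht'.2]
  have hp : |((t - ctr i) - (t' - ctr j)) * x| ≤ 2 / 100 * (29 / 20) := by
    rw [abs_mul]
    exact mul_le_mul hd hx' (abs_nonneg _) (by norm_num)
  have he : σ' = ((t - ctr i) - (t' - ctr j)) * x + (ctr i - ctr j) * x + σ := by linarith
  generalize ((t - ctr i) - (t' - ctr j)) * x = p at hp he
  rw [abs_le] at hσ hx hp ⊢
  clear ht ht' hd h1 h2 hk
  fin_cases i <;> fin_cases j <;> first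
    | exact absurd rfl hij
    | (simp only [big, small, kap, ctr, Fin.zero_eta, Fin.mk_one, Fin.reduceFinMk,
        Matrix.cons_val_zero, Matrix.cons_val_one, Matrix.cons_val] at hσ hx he ⊢
       constructor <;> linarith [hσ.1, hσ.2, hx.1, hx.2, hp.1, hp.2])

theorem off_big {i : Fin 3} {t σ x y : ℝ} (ht : |t - ctr i| ≤ 1 / 100) (hx : |x| ≤ 101 / 100)
    (hy : |y| ≤ 101 / 100) (h : y = t * x + σ) : |σ| ≤ big i := by
  have hp : |(t - ctr i) * x| ≤ 1 / 100 * (101 / 100) := by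
    rw [abs_mul]
    exact mul_le_mul ht hx (abs_nonneg _) (by norm_num)
  have he : σ = y - (t - ctr i) * x - ctr i * x := by linarith
  generalize (t - ctr i) * x = p at hp he
  rw [abs_le] at hx hy hp ⊢
  clear ht h
  fin_cases i <;> simp only [big, ctr, Fin.zero_eta, Fin.mk_one, Fin.reduceFinMk,
    Matrix.cons_val_zero, Matrix.cons_val_one, Matrix.cons_val] at he ⊢ <;>
    constructor <;> linarith [hx.1, hx.2, hy.1, hy.2, hp.1, hp.2]

theorem meet_mid {i : Fin 3} {t σ : ℝ} (ht : |t - ctr i| ≤ 1 / 100) (hσ : |σ| ≤ mid i) :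
    ∃ x : ℝ, (x, σ + t * x) ∈ Q (19 / 20) := by
  have hm : mid i ≤ 2 := by fin_cases i <;> norm_num [mid]
  have hp : |(t - ctr i) * σ| ≤ 1 / 100 * 2 := by
    rw [abs_mul]
    exact mul_le_mul ht (hσ.trans hm) (abs_nonneg _) (by norm_num)
  refine ⟨-(ctr i * σ / 2), ?_⟩
  have he : σ + t * -(ctr i * σ / 2) =
      σ - ctr i * ((t - ctr i) * σ) / 2 - ctr i * ctr i * σ / 2 := by ring
  rw [he]
  generalize (t - ctr i) * σ = p at hp
  rw [abs_le] at hσ hp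
  clear ht he hm
  fin_cases i <;> simp only [mid, ctr, Q, Fin.zero_eta, Fin.mk_one, Fin.reduceFinMk,
    Matrix.cons_val_zero, Matrix.cons_val_one, Matrix.cons_val, Set.mem_prod,
    Set.mem_Ioo] at hσ ⊢ <;>
    refine ⟨⟨?_, ?_⟩, ?_, ?_⟩ <;> linarith [hσ.1, hσ.2, hp.1, hp.2]

/-- the cell of the canonical label with index `b` of the line of `l` has a triple point on this
line that belongs to `ta` -/
def Hit (G : Gal) (ta : Z2 → Prop) (l : Lb) (b : ℤ) : Prop :=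
  ta (G.at' l b).1 ∧ G.tlab (G.at' l b).1 (G.fam l) = G.at' l b

open Classical in
/-- the line of `l` has density `c1` of triple points of `ta` at scale `u` -/
def Dens (G : Gal) (ta : Z2 → Prop) (c1 ε0 : ℝ) (A0 u : ℕ) (l : Lb) : Prop :=
  ∀ a1 a2 : ℤ, -((A0 : ℤ) * u) ≤ a1 → a1 ≤ a2 → a2 ≤ (A0 : ℤ) * u →
    c1 * ((a2 - a1 : ℤ) : ℝ) - ε0 * u ≤ (((Ico a1 a2).filter fun b => Hit G ta l b).card : ℝ)

variable {Λ : (ℝ × ℝ) ≃L[ℝ] (ℝ × ℝ)}

/-- the real coordinate that parametrises the lines of family `i` -/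
def pr (i : Fin 3) (z : ℝ × ℝ) : ℝ := if i = 1 then z.1 else z.2

theorem abs_pr_le (i : Fin 3) (z : ℝ × ℝ) : |pr i z| ≤ ‖z‖ := by
  unfold pr
  split_ifs
  · exact norm_fst_le z
  · exact norm_snd_le z

theorem lin_div {v p : ℝ × ℝ} {R ε : ℝ} (hR : 0 < R) (h : ‖v - R • p‖ ≤ ε * R) :
    ‖R⁻¹ • v - p‖ ≤ ε := by
  have h1 : R⁻¹ • v - p = R⁻¹ • (v - R • p) := by
    rw [smul_sub, smul_smul, inv_mul_cancel₀ hR.ne', one_smul]
  rw [h1, norm_smul, Real.norm_eq_abs, abs_of_pos (inv_pos.2 hR), inv_mul_le_iff₀ hR]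
  linarith

/-- an interval of indices on which the triple points of a line have a prescribed abscissa -/
theorem geo_int (hΛ : LamOK Λ) : ∃ (A0 : ℕ) (r : ℝ), 0 < r ∧ ∀ {G : Gal} {k : ℕ} {C : ℝ},
    G.Ax k C → G.Lin Λ → ∀ᶠ u : ℕ in atTop, ∀ l, G.valid l → |G.s l| ≤ 3 * G.R u →
      ∀ x : ℝ, |x| ≤ 2 → ∃ a1 a2 : ℤ, -((A0 : ℤ) * u) ≤ a1 ∧ a1 ≤ a2 ∧ a2 ≤ (A0 : ℤ) * u ∧
        r * u ≤ ((a2 - a1 : ℤ) : ℝ) ∧ ∀ b ∈ Ico a1 a2, G.tp (G.at' l b).1 = true →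
          G.tlab (G.at' l b).1 (G.fam l) = G.at' l b →
          |(G.v (G.at' l b).1).1 / G.R u - x| ≤ 1 / 80 := by
  obtain ⟨r1, r2, hr1, hr⟩ := rho_bounds hΛ
  set M := ‖(Λ.symm : (ℝ × ℝ) →L[ℝ] (ℝ × ℝ))‖ with hM
  have hM0 : 0 ≤ M := norm_nonneg _
  obtain ⟨A0, hA0⟩ := exists_nat_ge (2 * r2 + 3 * M + r1 / 200 + 2)
  obtain ⟨A, hA⟩ := Gal.vis hΛ 3 A0
  refine ⟨A0, r1 / 200, by positivity, fun {G k C} hG hL => ?_⟩
  have hε : 0 < r1 / 400 / (M + 1) := by positivity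
  filter_upwards [hA hG hL, hL A _ hε, eventually_ge_atTop 1,
    (tendsto_natCast_atTop_atTop (R := ℝ)).eventually_ge_atTop (800 / r1)]
    with u h1 h2 hu1 hu2 l hl hs x hx
  obtain ⟨hR, h2⟩ := h2
  have hu0 : (1 : ℝ) ≤ u := by exact_mod_cast hu1
  have hu0' : (0 : ℝ) < u := by linarith
  obtain ⟨hρ1, hρ2⟩ := hr (G.fam l) (G.t l) (hG.slope l hl)
  change r1 ≤ |pr (G.fam l) (Λ.symm (1, G.t l))| at hρ1
  change |pr (G.fam l) (Λ.symm (1, G.t l))| ≤ r2 at hρ2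
  set lam := pr (G.fam l) (Λ.symm (1, G.t l)) with hlam
  set kp := pr (G.fam l) (Λ.symm (0, 1)) with hkp
  have hk : |kp| ≤ M := by
    have := (Λ.symm : (ℝ × ℝ) →L[ℝ] (ℝ × ℝ)).le_opNorm (0, 1)
    rw [show ‖((0, 1) : ℝ × ℝ)‖ = 1 by simp, mul_one] at this
    exact (abs_pr_le _ _).trans this
  have hσ : |G.s l / G.R u| ≤ 3 := by
    rw [abs_div, abs_of_pos hR, div_le_iff₀ hR]
    exact hs
  set σ := G.s l / G.R u with hσd
  have hc : |lam * x + kp * σ| ≤ 2 * r2 + 3 * M := by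
    refine (abs_add_le _ _).trans ?_
    rw [abs_mul, abs_mul]
    nlinarith [abs_nonneg lam, abs_nonneg kp, abs_nonneg x, abs_nonneg σ]
  set c := lam * x + kp * σ with hcd
  have c1 := Int.le_ceil (c * u)
  have c2 := Int.ceil_lt_add_one (c * u)
  have c3 := Int.le_ceil (r1 / 200 * u)
  have c4 := Int.ceil_lt_add_one (r1 / 200 * u)
  have c5 := mul_le_mul_of_nonneg_right (abs_le.1 hc).1 hu0'.le
  have c6 := mul_le_mul_of_nonneg_right (abs_le.1 hc).2 hu0'.le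
  have c7 := mul_le_mul_of_nonneg_right hA0 hu0'.le
  have c8 : 0 ≤ r1 / 200 * u := by positivity
  have b1 : -((A0 : ℤ) * u) ≤ ⌈c * u⌉ := by
    have : -((A0 : ℝ) * u) ≤ (⌈c * u⌉ : ℝ) := by nlinarith
    exact_mod_cast this
  have b2 : ⌈c * u⌉ + ⌈r1 / 200 * u⌉ ≤ (A0 : ℤ) * u := by
    have : (⌈c * u⌉ : ℝ) + (⌈r1 / 200 * u⌉ : ℝ) ≤ (A0 : ℝ) * u := by nlinarith
    exact_mod_cast this
  refine ⟨⌈c * u⌉, ⌈c * u⌉ + ⌈r1 / 200 * u⌉, b1, le_add_of_nonneg_right (Int.ceil_nonneg c8), b2,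
    by push_cast; linarith, fun b hb htp htl => ?_⟩
  rw [Finset.mem_Ico] at hb
  obtain ⟨s1, s2, s3⟩ := Gal.at'_spec hG hl b
  have hw := h2 _ (h1 l hl hs b (abs_le.2 ⟨b1.trans hb.1, hb.2.le.trans b2⟩))
  have hon := hG.tp_on _ htp (G.fam l)
  rw [htl, ← hG.same_t _ _ hl s1.1 s2, ← hG.same_s _ _ hl s1.1 s2] at hon
  generalize (G.at' l b).1 = w at hw hon s3
  have h3 := (Λ.symm : (ℝ × ℝ) →L[ℝ] (ℝ × ℝ)).le_opNorm
    ((G.R u)⁻¹ • G.v w - Λ ((w.1 : ℝ) / u, (w.2 : ℝ) / u))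
  have h4 : (G.R u)⁻¹ • G.v w = ((G.v w).1 / G.R u) • ((1, G.t l) : ℝ × ℝ) +
      σ • ((0, 1) : ℝ × ℝ) := by
    refine Prod.ext ?_ ?_
    · simp [div_eq_inv_mul]
    · simp only [Prod.smul_snd, Prod.snd_add, smul_eq_mul, hon, hσd]
      ring
  have h5 : pr (G.fam l) ((Λ.symm : (ℝ × ℝ) →L[ℝ] (ℝ × ℝ))
      ((G.R u)⁻¹ • G.v w - Λ ((w.1 : ℝ) / u, (w.2 : ℝ) / u))) =
      (G.v w).1 / G.R u * lam + σ * kp - (b : ℝ) / u := by
    rw [h4, ContinuousLinearEquiv.coe_coe, map_sub, map_add, map_smul, map_smul,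
      ContinuousLinearEquiv.symm_apply_apply, ← s3, hlam, hkp]
    unfold pr idx
    split_ifs <;> simp
  have h6 : |(G.v w).1 / G.R u * lam + σ * kp - (b : ℝ) / u| ≤ r1 / 400 := by
    rw [← h5]
    refine ((abs_pr_le _ _).trans h3).trans ((mul_le_mul_of_nonneg_left (lin_div hR hw) hM0).trans ?_)
    rw [mul_div_assoc', div_le_iff₀ (by positivity)]
    nlinarith
  have d1 : (⌈c * u⌉ : ℝ) ≤ b := by exact_mod_cast hb.1
  have d2 : (b : ℝ) ≤ (⌈c * u⌉ : ℝ) + (⌈r1 / 200 * u⌉ : ℝ) := by exact_mod_cast hb.2.le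
  have d3 : c ≤ (b : ℝ) / u := by rw [le_div_iff₀ hu0']; linarith
  have d4 : (b : ℝ) / u ≤ c + r1 / 200 + r1 / 400 := by
    rw [div_le_iff₀ hu0']
    rw [div_le_iff₀ hr1] at hu2
    nlinarith
  have h7 : |lam| * |(G.v w).1 / G.R u - x| ≤ r1 / 100 := by
    rw [← abs_mul, abs_le]
    rw [abs_le] at h6
    constructor <;> nlinarith [h6.1, h6.2]
  nlinarith [abs_nonneg ((G.v w).1 / G.R u - x)]

theorem cellsQ_sub (Λ : (ℝ × ℝ) ≃L[ℝ] (ℝ × ℝ)) :
    ∃ A1 : ℕ, ∀ u : ℕ, cellsQ Λ 1 u ⊆ box 0 (A1 * u) := by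
  classical
  exact ⟨_, fun _ => Finset.filter_subset _ _⟩

variable {G : Gal} {k : ℕ} {C : ℝ}

/-- vertices of the cells of the macroscopic square -/
theorem cellsQ_near (hL : G.Lin Λ) (ε : ℝ) (hε : 0 < ε) : ∀ᶠ u : ℕ in atTop, 0 < G.R u ∧
    ∀ w ∈ cellsQ Λ 1 u,
      |(G.v w).1 / G.R u - (Λ ((w.1 : ℝ) / u, (w.2 : ℝ) / u)).1| ≤ ε ∧
      |(G.v w).2 / G.R u - (Λ ((w.1 : ℝ) / u, (w.2 : ℝ) / u)).2| ≤ ε := by
  obtain ⟨A1, hA1⟩ := cellsQ_sub Λ
  filter_upwards [hL A1 ε hε] with u hu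
  refine ⟨hu.1, fun w hw => ?_⟩
  have h := lin_div hu.1 (hu.2 w (hA1 u hw))
  refine ⟨le_trans (le_of_eq ?_) ((norm_fst_le _).trans h),
    le_trans (le_of_eq ?_) ((norm_snd_le _).trans h)⟩ <;>
    simp [div_eq_inv_mul]

/-- the lines of triple points in the macroscopic square have bounded offsets -/
theorem cellsQ_big (hG : G.Ax k C) (hL : G.Lin Λ) : ∀ᶠ u : ℕ in atTop,
    ∀ w ∈ cellsQ Λ 1 u, G.tp w = true → ∀ i, |G.s (G.tlab w i)| ≤ big i * G.R u := by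
  classical
  filter_upwards [cellsQ_near hL (1 / 100) (by norm_num)] with u hu w hw htp i
  obtain ⟨hR, hu⟩ := hu
  obtain ⟨h1, h2⟩ := hu w hw
  obtain ⟨⟨q1, q2⟩, q3, q4⟩ := (Finset.mem_filter.1 hw).2
  obtain ⟨c1, c2, -⟩ := hG.tp_can w htp i
  have hs := hG.slope _ c1
  rw [c2] at hs
  rw [abs_le] at h1 h2
  have h := off_big (σ := G.s (G.tlab w i) / G.R u) (x := (G.v w).1 / G.R u)
    (y := (G.v w).2 / G.R u) hs (abs_le.2 ⟨by linarith [h1.1], by linarith [h1.2]⟩)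
    (abs_le.2 ⟨by linarith [h2.1], by linarith [h2.2]⟩) (by rw [hG.tp_on w htp i]; ring)
  rwa [abs_div, abs_of_pos hR, div_le_iff₀ hR] at h

theorem rep_spec (hG : G.Ax k C) {l : Lb} (hl : G.valid l) :
    G.Ln (G.fam l) (G.rep l) ∧ G.same l (G.rep l) = true := by
  obtain ⟨h1, h2, h3⟩ := Gal.at'_spec hG hl 0
  exact ⟨⟨h1, h3⟩, h2⟩

theorem rep_of_ln (hG : G.Ax k C) {i : Fin 3} {l : Lb} (hl : G.Ln i l) : G.rep l = l := by
  have h := Gal.at'_self hG hl.1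
  rwa [hl.2] at h

/-- a line has at most one triple point in each row -/
theorem card_cells_line (hG : G.Ax k C) (i : Fin 3) (m : ℕ) (L : Finset Lb) (W : Finset Z2)
    (hW : ∀ w ∈ W, w ∈ box 0 m ∧ G.tp w = true ∧ G.rep (G.tlab w i) ∈ L) :
    W.card ≤ L.card * (2 * m + 1) := by
  have h : W.card ≤ (L ×ˢ Icc (-(m : ℤ)) m).card := by
    refine Finset.card_le_card_of_injOn (fun w => (G.rep (G.tlab w i), idx i w)) ?_ ?_
    · intro w hw
      obtain ⟨h1, -, h3⟩ := hW w hw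
      simp only [box, Finset.mem_product, Finset.mem_Icc, Prod.fst_zero, Prod.snd_zero, zero_sub,
        zero_add] at h1
      refine Finset.mem_coe.2 (Finset.mem_product.2 ⟨h3, Finset.mem_Icc.2 ?_⟩)
      unfold idx
      split_ifs
      · exact h1.1
      · exact h1.2
    · intro w hw w' hw' h
      simp only [Prod.mk.injEq] at h
      have c := hG.tp_can w (hW w hw).2.1 i
      have c' := hG.tp_can w' (hW w' hw').2.1 i
      exact congrArg Prod.fst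
        (hG.can_uniq i _ _ c c' ((Gal.rep_eq_iff hG c.1 c'.1).1 h.1) h.2)
  rw [Finset.card_product, Int.card_Icc] at h
  refine h.trans (le_of_eq ?_)
  congr 1
  omega

/-- different triple points of a line have different lines of another family -/
theorem hit_inj (hG : G.Ax k C) {l : Lb} (hl : G.valid l) {j : Fin 3} (hj : j ≠ G.fam l)
    {b b' : ℤ} (hb : G.tp (G.at' l b).1 = true)
    (hb2 : G.tlab (G.at' l b).1 (G.fam l) = G.at' l b) (hb' : G.tp (G.at' l b').1 = true)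
    (hb2' : G.tlab (G.at' l b').1 (G.fam l) = G.at' l b')
    (h : G.rep (G.tlab (G.at' l b).1 j) = G.rep (G.tlab (G.at' l b').1 j)) : b = b' := by
  obtain ⟨s1, s2, s3⟩ := Gal.at'_spec hG hl b
  obtain ⟨s1', s2', s3'⟩ := Gal.at'_spec hG hl b'
  have h1 : G.same (G.tlab (G.at' l b).1 (G.fam l)) (G.tlab (G.at' l b').1 (G.fam l)) = true := by
    rw [hb2, hb2']
    exact hG.same_trans _ _ _ s1.1 hl s1'.1 (hG.same_symm _ _ hl s1.1 s2) s2'
  have h2 := (Gal.rep_eq_iff hG (hG.tp_can _ hb j).1 (hG.tp_can _ hb' j).1).1 h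
  have h3 := hG.cr_uniq _ _ _ _ _ _ (hG.tp_cr _ hb _ _ hj.symm) (hG.tp_cr _ hb' _ _ hj.symm) h1 h2
  rw [← s3, ← s3', h3]

end ECub.R
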