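import Pool.Agent.P.MP_029dcd_co.F.LayT
import Pool.Agent.P.MP_029dcd_co.F.R.Gen
import Pool.Agent.P.MP_029dcd_co.F.R.CM

/-! Layer R: transfer of almost sure statements between the measures of a tangent system. -/

set_option autoImplicit false

namespace ECub.R

open CubicStab MeasureTheory Filter Topology Finset
open scoped ENNReal

theorem measurableSet_prod_cnt {Ω ι : Type*} [MeasurableSpace Ω] [MeasurableSpace ι] [Countable ι]
    [MeasurableSingletonClass ι] {p : Ω → ι → Prop} (h : ∀ j, MeasurableSet {ω | p ω j}) :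
    MeasurableSet {x : Ω × ι | p x.1 x.2} := by
  have : {x : Ω × ι | p x.1 x.2} = ⋃ j, {ω | p ω j} ×ˢ {j} := by
    ext x; simp
  rw [this]
  exact MeasurableSet.iUnion fun j => (h j).prod (measurableSet_singleton j)

theorem measurableSet_can (S : Sys) (i : Fin 3) :
    MeasurableSet {x : S.Ω × ℕ | (S.Γ x.1).Can i (0, x.2)} := by
  refine measurableSet_prod_cnt (p := fun ω j => (S.Γ ω).Can i (0, j)) fun j => ?_
  exact (measurableSet_lt measurable_const (S.meas.g 0)).inter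
    ((S.meas.fam (0, j) (measurableSet_singleton i)).inter
      (S.meas.can (0, j) (measurableSet_singleton true)))

theorem measurableSet_crs (S : Sys) (i j : Fin 3) :
    MeasurableSet {x : S.Ω × ℕ × ℕ | (S.Γ x.1).cr 0 x.2.1 x.2.2 = true ∧
      (S.Γ x.1).fam (0, x.2.1) = i ∧ (S.Γ x.1).fam (0, x.2.2) = j ∧
      (S.Γ x.1).t (0, x.2.1) ≠ (S.Γ x.1).t (0, x.2.2)} := by
  refine measurableSet_prod_cnt (p := fun ω (y : ℕ × ℕ) => (S.Γ ω).cr 0 y.1 y.2 = true ∧
      (S.Γ ω).fam (0, y.1) = i ∧ (S.Γ ω).fam (0, y.2) = j ∧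
      (S.Γ ω).t (0, y.1) ≠ (S.Γ ω).t (0, y.2)) fun y => ?_
  exact (S.meas.cr 0 y.1 y.2 (measurableSet_singleton true)).inter
    ((S.meas.fam (0, y.1) (measurableSet_singleton i)).inter
      ((S.meas.fam (0, y.2) (measurableSet_singleton j)).inter
        (measurableSet_eq_fun (S.meas.t (0, y.1)) (S.meas.t (0, y.2))).compl))

variable {S : Sys} {Λ : (ℝ × ℝ) ≃L[ℝ] (ℝ × ℝ)} {A : Set (S.Ω × ℕ)} {n : ℕ}
  {ν : S.Ω × ℕ → E n} {q : ℝ} (τ : Tan S Λ A ν q)

/-- the galaxy system on the extension -/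
noncomputable abbrev sp : Sys := S.pull τ.D τ.π τ.fac

/-- canonical labels of the extension -/
noncomputable def W0 (i : Fin 3) : Measure (τ.D.Ω × ℕ) :=
  ((sp τ).mh i).restrict (pullS τ.π A)

/-- crossing pairs of the extension -/
noncomputable def V0 (i : Fin 3) : Measure (τ.D.Ω × ℕ × ℕ) :=
  ((sp τ).pm i i).restrict {x | (x.1, x.2.1) ∈ pullS τ.π A ∧ (x.1, x.2.2) ∈ pullS τ.π A}

/-- macroscopic lines with a point in the square -/
noncomputable def W1 (i : Fin 3) : Measure (Dt n × ℝ) :=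
  ((τ.nm i).prod volume).restrict {y | (y.2, y.1.2.1 + y.1.1 1 * y.2) ∈ Q q}

/-- pairs of macroscopic lines that cross in the square -/
noncomputable def V1 (i : Fin 3) : Measure (Dt n × Dt n) :=
  ((τ.nm i).prod (τ.nm i)).restrict {y | y.1.1 1 ≠ y.2.1 1 ∧ xp y.1 y.2 ∈ Q q}

/-- the data of a label -/
def dt (x : τ.D.Ω × ℕ) : Dt n := dat τ.π ν τ.X τ.h x

/-- the mark of a label -/
def mk (x : τ.D.Ω × ℕ) : E n := ν (τ.π x.1, x.2)

/-- mark and macroscopic offset of a label -/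
def ms (x : τ.D.Ω × ℕ) : E n × ℝ := (mk τ x, (τ.X x.1).2 - mk τ x 1 * (τ.X x.1).1)

theorem dt_eq (x : τ.D.Ω × ℕ) : dt τ x = (mk τ x, (ms τ x).2, τ.h x) := rfl

theorem measurable_lift (ι : Type) [MeasurableSpace ι] :
    Measurable fun x : τ.D.Ω × ι => (τ.π x.1, x.2) :=
  (τ.fac.mp.measurable.comp measurable_fst).prodMk measurable_snd

theorem measurable_mk (hν : Measurable ν) : Measurable (mk τ) := hν.comp (measurable_lift τ ℕ)

theorem measurable_X : Measurable fun x : τ.D.Ω × ℕ => τ.X x.1 := τ.X_meas.comp measurable_fst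

theorem measurable_ms (hν : Measurable ν) : Measurable (ms τ) := by
  have h1 := measurable_mk τ hν
  have h2 := measurable_X τ
  exact h1.prodMk (h2.snd.sub (((measurable_pi_apply 1).comp h1).mul h2.fst))

theorem measurable_dt (hν : Measurable ν) : Measurable (dt τ) :=
  (measurable_mk τ hν).prodMk ((measurable_ms τ hν).snd.prodMk τ.h_meas)

instance (i : Fin 3) : IsFiniteMeasure (τ.nm i) := τ.nm_fin i

instance (i : Fin 3) : IsFiniteMeasure (W0 τ i) := by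
  have := Sys.mh_finite (sp τ) i
  exact isFiniteMeasureRestrict ((sp τ).mh i) _

instance (i : Fin 3) : IsFiniteMeasure (V0 τ i) := by
  have := Sys.pm_finite (sp τ) i i
  exact isFiniteMeasureRestrict ((sp τ).pm i i) _

instance (i : Fin 3) : IsFiniteMeasure (S.mA A ν i) := by
  unfold Sys.mA
  infer_instance

theorem W0_ind (hA : MeasurableSet A) (i : Fin 3) {β : Type*} [MeasurableSpace β]
    {lam : Measure β} [SFinite lam] {Ψ : τ.D.Ω → β} (hΨ : Measurable Ψ)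
    (hlaw : τ.D.μ.map (fun ω => (τ.π ω, Ψ ω)) = S.μ.prod lam) :
    (W0 τ i).map (fun x => ((τ.π x.1, x.2), Ψ x.1)) = ((S.mh i).restrict A).prod lam := by
  have h1 : W0 τ i = (τ.D.μ.prod Measure.count).restrict
      {x | (τ.π x.1, x.2) ∈ A ∩ {x : S.Ω × ℕ | (S.Γ x.1).Can i (0, x.2)}} :=
    Measure.restrict_restrict (μ := τ.D.μ.prod Measure.count) (measurable_lift τ ℕ hA)
  have h2 : (S.mh i).restrict A = (S.μ.prod Measure.count).restrict
      (A ∩ {x : S.Ω × ℕ | (S.Γ x.1).Can i (0, x.2)}) := Measure.restrict_restrict hA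
  rw [h1, h2]
  exact ind_gen Measure.count τ.fac.mp.measurable hΨ hlaw (hA.inter (measurableSet_can S i))

theorem V0_ind (hA : MeasurableSet A) (i : Fin 3) {β : Type*} [MeasurableSpace β]
    {lam : Measure β} [SFinite lam] {Ψ : τ.D.Ω → β} (hΨ : Measurable Ψ)
    (hlaw : τ.D.μ.map (fun ω => (τ.π ω, Ψ ω)) = S.μ.prod lam) :
    (V0 τ i).map (fun x => ((τ.π x.1, x.2), Ψ x.1))
      = ((S.pm i i).restrict {x | (x.1, x.2.1) ∈ A ∧ (x.1, x.2.2) ∈ A}).prod lam := by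
  have hP := measurableSet_pair (S := S) hA
  have h1 : V0 τ i = (τ.D.μ.prod (Measure.count.prod Measure.count)).restrict
      {x | (τ.π x.1, x.2) ∈ {x : S.Ω × ℕ × ℕ | (x.1, x.2.1) ∈ A ∧ (x.1, x.2.2) ∈ A} ∩
        {x : S.Ω × ℕ × ℕ | (S.Γ x.1).cr 0 x.2.1 x.2.2 = true ∧
          (S.Γ x.1).fam (0, x.2.1) = i ∧ (S.Γ x.1).fam (0, x.2.2) = i ∧
          (S.Γ x.1).t (0, x.2.1) ≠ (S.Γ x.1).t (0, x.2.2)}} :=
    Measure.restrict_restrict (μ := τ.D.μ.prod (Measure.count.prod Measure.count))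
      (measurable_lift τ (ℕ × ℕ) hP)
  have h2 := Measure.restrict_restrict (μ := S.μ.prod (Measure.count.prod Measure.count))
    (t := {x : S.Ω × ℕ × ℕ | (S.Γ x.1).cr 0 x.2.1 x.2.2 = true ∧
          (S.Γ x.1).fam (0, x.2.1) = i ∧ (S.Γ x.1).fam (0, x.2.2) = i ∧
          (S.Γ x.1).t (0, x.2.1) ≠ (S.Γ x.1).t (0, x.2.2)}) hP
  rw [h1, ind_gen (Measure.count.prod Measure.count) τ.fac.mp.measurable hΨ hlaw
    (hP.inter (measurableSet_crs S i i)), ← h2]
  rfl

theorem W0_map2 (hA : MeasurableSet A) (hν : Measurable ν) (i : Fin 3) :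
    (W0 τ i).map (fun x => (τ.X x.1, mk τ x))
      = (volume (Q q))⁻¹ • (volume.restrict (Q q)).prod (S.mA A ν i) := by
  have h1 := W0_ind τ hA i τ.X_meas τ.law
  have hf : Measurable fun x : τ.D.Ω × ℕ => ((τ.π x.1, x.2), τ.X x.1) :=
    (measurable_lift τ ℕ).prodMk (measurable_X τ)
  have hg : Measurable (Prod.swap ∘ Prod.map ν (id : ℝ × ℝ → ℝ × ℝ)) :=
    measurable_swap.comp (hν.prodMap measurable_id)
  have h2 : (fun x : τ.D.Ω × ℕ => (τ.X x.1, mk τ x))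
      = (Prod.swap ∘ Prod.map ν id) ∘ fun x => ((τ.π x.1, x.2), τ.X x.1) := rfl
  rw [h2, ← Measure.map_map hg hf, h1,
    ← Measure.map_map measurable_swap (hν.prodMap measurable_id),
    ← Measure.map_prod_map _ _ hν measurable_id, Measure.map_id, Measure.prod_swap,
    Measure.prod_smul_left]
  rfl

theorem w0_of_w2 (hA : MeasurableSet A) (hν : Measurable ν) (i : Fin 3)
    {p : (ℝ × ℝ) × E n → Prop}
    (h : ∀ᵐ y ∂((volume.restrict (Q q)).prod (S.mA A ν i)), p y) :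
    ∀ᵐ x ∂(W0 τ i), p (τ.X x.1, mk τ x) := by
  refine ae_of_ae_map ((measurable_X τ).prodMk (measurable_mk τ hν)).aemeasurable ?_
  rw [W0_map2 τ hA hν]
  exact Measure.ae_smul_measure h _

theorem w2_of_w0 (hA : MeasurableSet A) (hν : Measurable ν) (i : Fin 3)
    {p : (ℝ × ℝ) × E n → Prop} (hp : MeasurableSet {y | p y})
    (h : ∀ᵐ x ∂(W0 τ i), p (τ.X x.1, mk τ x)) :
    ∀ᵐ y ∂((volume.restrict (Q q)).prod (S.mA A ν i)), p y := by
  have h1 := (ae_map_iff ((measurable_X τ).prodMk (measurable_mk τ hν)).aemeasurable hp).2 h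
  rw [W0_map2 τ hA hν] at h1
  exact (Measure.ae_ennreal_smul_measure_iff (ENNReal.inv_ne_zero.2 (volume_Q_ne_top q))).1 h1

theorem measurable_rho (i : Fin 3) : Measurable (rho Λ i) := by
  unfold rho
  split_ifs
  · exact (by fun_prop : Continuous fun t : ℝ => |(Λ.symm (1, t)).1|).measurable
  · exact (by fun_prop : Continuous fun t : ℝ => |(Λ.symm (1, t)).2|).measurable

theorem measurable_dens (i : Fin 3) :
    Measurable fun y : Dt n × ℝ => ENNReal.ofReal (rho Λ i (y.1.1 1)) :=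
  ((measurable_rho i).comp (by fun_prop)).ennreal_ofReal

theorem W0_map1 (i : Fin 3) : (W0 τ i).map (fun x => (dt τ x, (τ.X x.1).1))
    = τ.c • (W1 τ i).withDensity fun y => ENNReal.ofReal (rho Λ i (y.1.1 1)) := τ.p1 i

theorem V0_map1 (i : Fin 3) : (V0 τ i).map (fun x => (dt τ (x.1, x.2.1), dt τ (x.1, x.2.2)))
    = τ.c • V1 τ i := τ.p2 i i

theorem measurable_f1 (hν : Measurable ν) :
    Measurable fun x : τ.D.Ω × ℕ => (dt τ x, (τ.X x.1).1) :=
  (measurable_dt τ hν).prodMk (measurable_X τ).fst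

theorem measurable_g1 (hν : Measurable ν) :
    Measurable fun x : τ.D.Ω × ℕ × ℕ => (dt τ (x.1, x.2.1), dt τ (x.1, x.2.2)) :=
  ((measurable_dt τ hν).comp (by fun_prop)).prodMk ((measurable_dt τ hν).comp (by fun_prop))

theorem w0_of_w1 (hν : Measurable ν) (i : Fin 3) {p : Dt n × ℝ → Prop}
    (h : ∀ᵐ y ∂(W1 τ i), p y) : ∀ᵐ x ∂(W0 τ i), p (dt τ x, (τ.X x.1).1) := by
  refine ae_of_ae_map (measurable_f1 τ hν).aemeasurable ?_
  rw [W0_map1]
  exact Measure.ae_smul_measure ((withDensity_absolutelyContinuous _ _).ae_le h) _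

theorem w1_of_nm (i : Fin 3) {p : Dt n → Prop}
    (h : ∀ᵐ d ∂(τ.nm i), (∃ x : ℝ, (x, d.2.1 + d.1 1 * x) ∈ Q q) → p d) :
    ∀ᵐ y ∂(W1 τ i), p y.1 := by
  have hm : MeasurableSet {y : Dt n × ℝ | (y.2, y.1.2.1 + y.1.1 1 * y.2) ∈ Q q} :=
    (by fun_prop : Measurable fun y : Dt n × ℝ => (y.2, y.1.2.1 + y.1.1 1 * y.2))
      (measurableSet_Q q)
  unfold W1
  rw [ae_restrict_iff' hm]
  filter_upwards [Measure.quasiMeasurePreserving_fst.ae h] with y hy hQ
  exact hy ⟨_, hQ⟩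

theorem w1_of_w0 (hΛ : LamOK Λ) (hν : Measurable ν) (i : Fin 3) {p : Dt n × ℝ → Prop}
    (hp : MeasurableSet {y | p y}) (h : ∀ᵐ x ∂(W0 τ i), p (dt τ x, (τ.X x.1).1)) :
    ∀ᵐ y ∂(W1 τ i), p y := by
  have h1 := (ae_map_iff (measurable_f1 τ hν).aemeasurable hp).2 h
  rw [W0_map1] at h1
  have hc : (τ.c : ℝ≥0∞) ≠ 0 := by exact_mod_cast τ.c_pos.ne'
  have h2 := (Measure.ae_ennreal_smul_measure_iff hc).1 h1
  rw [ae_withDensity_iff (measurable_dens i)] at h2
  obtain ⟨r1, r2, hr1, hr⟩ := rho_bounds hΛ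
  obtain ⟨B, hB⟩ := τ.nm_supp
  have h3 := w1_of_nm τ i (p := fun d => |d.1 1 - ctr i| ≤ 1 / 100)
    (by filter_upwards [hB i] with d hd _ using hd.2.2.1)
  filter_upwards [h2, h3] with y hy hs
  exact hy (ENNReal.ofReal_pos.2 (hr1.trans_le (hr i _ hs).1)).ne'

theorem w1_ae_ae (i : Fin 3) {p : Dt n × ℝ → Prop} (h : ∀ᵐ y ∂(W1 τ i), p y) :
    ∀ᵐ d ∂(τ.nm i), ∀ᵐ x : ℝ, (x, d.2.1 + d.1 1 * x) ∈ Q q → p (d, x) :=
  Measure.ae_ae_of_ae_prod (ae_imp_of_ae_restrict h)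

theorem nm_of_w1 (i : Fin 3) {q' : ℝ} (hq : q' ≤ q) {p : Dt n → Prop}
    (h : ∀ᵐ y ∂(W1 τ i), (y.2, y.1.2.1 + y.1.1 1 * y.2) ∈ Q q' → p y.1) :
    ∀ᵐ d ∂(τ.nm i), (∃ x : ℝ, (x, d.2.1 + d.1 1 * x) ∈ Q q') → p d := by
  filter_upwards [w1_ae_ae τ i h] with d hd hne
  obtain ⟨x, _, _, _, _, hx, _⟩ := two_of_ae (isOpen_chord q' d.2.1 (d.1 1)) hne
    (p := fun _ => p d) (by filter_upwards [hd] with x hx hQ using hx (Q_mono hq hQ) hQ)
  exact hx

/-- an affine function that vanishes along the chord has slope zero -/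
theorem slope_of_w1 (i : Fin 3) {a b : Dt n → ℝ}
    (h : ∀ᵐ y ∂(W1 τ i), y.2 * b y.1 + a y.1 = 0) :
    ∀ᵐ d ∂(τ.nm i), (∃ x : ℝ, (x, d.2.1 + d.1 1 * x) ∈ Q q) → b d = 0 := by
  filter_upwards [w1_ae_ae τ i h] with d hd hne
  obtain ⟨x, x', hxx, _, _, hx, hx'⟩ := two_of_ae (isOpen_chord q d.2.1 (d.1 1)) hne
    (p := fun x => x * b d + a d = 0) hd
  have : (x - x') * b d = 0 := by linarith
  exact (mul_eq_zero.1 this).resolve_left (sub_ne_zero.2 hxx)

/-- an integral over canonical labels vanishes if it vanishes at every abscissa -/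
theorem int_W0_zero (hν : Measurable ν) (i : Fin 3) {F : Dt n × ℝ → ℝ} (hF : Measurable F)
    (h : ∀ (x : ℝ) (g : E n × ℝ → ℝ), ∫ d, g (d.1, d.2.1) * F (d, x) ∂(τ.nm i) = 0) :
    ∫ x, F (dt τ x, (τ.X x.1).1) ∂(W0 τ i) = 0 := by
  classical
  have hm : MeasurableSet {y : Dt n × ℝ | (y.2, y.1.2.1 + y.1.1 1 * y.2) ∈ Q q} :=
    (by fun_prop : Measurable fun y : Dt n × ℝ => (y.2, y.1.2.1 + y.1.1 1 * y.2))
      (measurableSet_Q q)
  rw [← integral_map (measurable_f1 τ hν).aemeasurable hF.aestronglyMeasurable, W0_map1,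
    integral_smul_nnreal_measure, integral_withDensity_eq_integral_toReal_smul
      (measurable_dens i) (ae_of_all _ fun _ => ENNReal.ofReal_lt_top)]
  unfold W1
  rw [← integral_indicator hm, integral_prod_zero_left, smul_zero]
  intro x
  rw [← h x fun a => if (x, a.2 + a.1 1 * x) ∈ Q q then
    (ENNReal.ofReal (rho Λ i (a.1 1))).toReal else 0]
  refine integral_congr_ae (ae_of_all _ fun d => ?_)
  simp only [Set.indicator, Set.mem_ofPred_eq, smul_eq_mul]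
  split_ifs <;> simp

/-- an integral over crossing pairs vanishes if it vanishes for every second line -/
theorem int_V0_zero (hν : Measurable ν) (i : Fin 3) {F : Dt n × Dt n → ℝ} (hF : Measurable F)
    (h : ∀ (d' : Dt n) (g : E n × ℝ → ℝ), ∫ d, g (d.1, d.2.1) * F (d, d') ∂(τ.nm i) = 0) :
    ∫ x, F (dt τ (x.1, x.2.1), dt τ (x.1, x.2.2)) ∂(V0 τ i) = 0 := by
  classical
  rw [← integral_map (measurable_g1 τ hν).aemeasurable hF.aestronglyMeasurable, V0_map1,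
    integral_smul_nnreal_measure]
  unfold V1
  rw [← integral_indicator (measurableSet_cross q), integral_prod_zero_left, smul_zero]
  intro d'
  rw [← h d' fun a => if a.1 1 ≠ d'.1 1 ∧ xp (a.1, a.2, 0) d' ∈ Q q then 1 else 0]
  refine integral_congr_ae (ae_of_all _ fun d => ?_)
  have : xp (d.1, d.2.1, (0 : H n)) d' = xp d d' := rfl
  simp only [Set.indicator, Set.mem_ofPred_eq, this]
  split_ifs <;> simp

theorem v1_of_v0 (hν : Measurable ν) (i : Fin 3) {p : Dt n × Dt n → Prop}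
    (hp : MeasurableSet {y | p y})
    (h : ∀ᵐ x ∂(V0 τ i), p (dt τ (x.1, x.2.1), dt τ (x.1, x.2.2))) : ∀ᵐ y ∂(V1 τ i), p y := by
  have h1 := (ae_map_iff (measurable_g1 τ hν).aemeasurable hp).2 h
  rw [V0_map1] at h1
  have hc : (τ.c : ℝ≥0∞) ≠ 0 := by exact_mod_cast τ.c_pos.ne'
  exact (Measure.ae_ennreal_smul_measure_iff hc).1 h1

theorem marg_ac (hΛ : S.Lin Λ) (hA : S.LineSet A) (hν : S.Marks0 ν) (hq : 0 < q) (i : Fin 3) :
    ((S.mA A ν i).prod volume).restrict {y : E n × ℝ | ∃ x : ℝ, (x, y.2 + y.1 1 * x) ∈ Q q}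
      ≪ (τ.nm i).map fun d => (d.1, d.2.1) := by
  refine Measure.AbsolutelyContinuous.trans ?_
    (Measure.absolutelyContinuous_of_le (Measure.restrict_le_self
      (s := {y : E n × ℝ | ∃ x : ℝ, (x, y.2 + y.1 1 * x) ∈ Q q})))
  rw [Tan.marg hΛ hA hν hq τ i]
  refine Measure.AbsolutelyContinuous.restrict (Measure.AbsolutelyContinuous.prod ?_ ?_) _
  · refine withDensity_absolutelyContinuous' ?_ (ae_of_all _ fun a => ?_)
    · exact ((((measurable_rho i).comp (measurable_pi_apply 1)).ennreal_ofReal.const_mul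
        _).inv).aemeasurable
    · exact ENNReal.inv_ne_zero.2 (ENNReal.mul_ne_top
        (ENNReal.mul_ne_top ENNReal.coe_ne_top (volume_Q_ne_top q)) ENNReal.ofReal_ne_top)
  · exact Measure.AbsolutelyContinuous.rfl

/-- from crossing pairs of the extension to pairs of marks -/
theorem pair_of_v0 (hΛ : S.Lin Λ) (hA : S.LineSet A) (hν : S.Marks0 ν) (hq : 0 < q) (i : Fin 3)
    {p : E n × E n → Prop} (hp : MeasurableSet {y | p y})
    (h : ∀ᵐ x ∂(V0 τ i), p (mk τ (x.1, x.2.1), mk τ (x.1, x.2.2))) :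
    ∀ᵐ y ∂((S.mA A ν i).prod (S.mA A ν i)), y.1 1 ≠ y.2 1 → p y :=
  pair_dom _ (τ.nm i) hq (marg_ac τ hΛ hA hν hq i) hp
    (v1_of_v0 τ hν.meas i (p := fun y => p (y.1.1, y.2.1))
      ((by fun_prop : Measurable fun y : Dt n × Dt n => (y.1.1, y.2.1)) hp) h)

end ECub.R
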