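import Pool.Agent.P.MP_029dcd_co.F.LayM
import Pool.Agent.P.MP_029dcd_co.F.R.World

/-! Layer R: functions of lines that are linear on triple points are macroscopic. -/

set_option autoImplicit false

namespace ECub.R

open CubicStab MeasureTheory Filter Topology Finset
open scoped ENNReal

variable {n : ℕ}

/-- the scalar product with a fixed vector -/
noncomputable def dotL (a : E n) : E n →L[ℝ] ℝ := ∑ k, a k • ContinuousLinearMap.proj k

theorem dotL_apply (a v : E n) : dotL a v = v ⬝ᵥ a := by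
  simp [dotL, dotProduct, mul_comm]

theorem measurable_dot {α : Type*} [MeasurableSpace α] {f g : α → E n} (hf : Measurable f)
    (hg : Measurable g) : Measurable fun x => f x ⬝ᵥ g x := by
  unfold dotProduct
  exact Finset.measurable_sum _ fun k _ =>
    ((measurable_pi_apply k).comp hf).mul ((measurable_pi_apply k).comp hg)

theorem abs_dot_le {a b : E n} {B B' : ℝ} (ha : ‖a‖ ≤ B) (hb : ‖b‖ ≤ B') :
    |a ⬝ᵥ b| ≤ (n + 2) * (B * B') := by
  unfold dotProduct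
  refine (Finset.abs_sum_le_sum_abs _ _).trans ?_
  have : ∀ k ∈ (Finset.univ : Finset (Fin (n + 2))), |a k * b k| ≤ B * B' := fun k _ => by
    rw [abs_mul]
    exact mul_le_mul ((norm_le_pi_norm a k).trans ha) ((norm_le_pi_norm b k).trans hb)
      (abs_nonneg _) ((norm_nonneg _).trans ha)
  refine (Finset.sum_le_card_nsmul _ _ _ this).trans (le_of_eq ?_)
  simp

theorem integrable_bdd {α : Type*} [MeasurableSpace α] {μ : Measure α} [IsFiniteMeasure μ]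
    {f : α → ℝ} (hf : Measurable f) {B : ℝ} (h : ∀ a, |f a| ≤ B) : Integrable f μ :=
  Integrable.of_bound hf.aestronglyMeasurable B (ae_of_all _ h)

theorem abs_mul_le' {a b A B : ℝ} (ha : |a| ≤ A) (hb : |b| ≤ B) : |a * b| ≤ A * B := by
  rw [abs_mul]
  exact mul_le_mul ha hb (abs_nonneg _) ((abs_nonneg _).trans ha)

theorem int_zero_of_map {Ω α β : Type*} [MeasurableSpace Ω] [MeasurableSpace α]
    [MeasurableSpace β] {μ : Measure Ω} {ρ : Measure α} {lam : Measure β} [SFinite ρ]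
    [SFinite lam] {f : Ω → α × β} (hf : Measurable f) (hmap : μ.map f = ρ.prod lam)
    {F : α × β → ℝ} (hF : Measurable F) (h : ∀ a, ∫ b, F (a, b) ∂lam = 0) :
    ∫ x, F (f x) ∂μ = 0 := by
  rw [← integral_map hf.aemeasurable hF.aestronglyMeasurable, hmap]
  exact integral_prod_zero_right _ _ _ h

/-- the covariance matrix of a bounded random vector -/
noncomputable def covM {α : Type*} [MeasurableSpace α] (μ : Measure α) (δ : α → E n) :
    Matrix (Fin (n + 2)) (Fin (n + 2)) ℝ := fun k j => ∫ p, δ p k * δ p j ∂μ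

section cov

variable {α : Type*} [MeasurableSpace α] {μ : Measure α} [IsFiniteMeasure μ] {δ : α → E n}
  {B : ℝ}

theorem integrable_cov (hδ : Measurable δ) (hB : ∀ᵐ p ∂μ, ‖δ p‖ ≤ B) (k j : Fin (n + 2)) :
    Integrable (fun p => δ p k * δ p j) μ := by
  refine Integrable.of_bound (((measurable_pi_apply k).comp hδ).mul
    ((measurable_pi_apply j).comp hδ)).aestronglyMeasurable (B * B) ?_
  filter_upwards [hB] with p hp
  exact abs_mul_le' ((norm_le_pi_norm (δ p) k).trans hp) ((norm_le_pi_norm (δ p) j).trans hp)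

theorem dot_mul_dot (v a a' : E n) :
    (v ⬝ᵥ a) * (v ⬝ᵥ a') = ∑ k, ∑ j, a k * a' j * (v k * v j) := by
  unfold dotProduct
  rw [Finset.sum_mul_sum]
  exact Finset.sum_congr rfl fun k _ => Finset.sum_congr rfl fun j _ => by ring

theorem integrable_dot_dot (hδ : Measurable δ) (hB : ∀ᵐ p ∂μ, ‖δ p‖ ≤ B) (a a' : E n) :
    Integrable (fun p => (δ p ⬝ᵥ a) * (δ p ⬝ᵥ a')) μ := by
  simp only [dot_mul_dot]
  exact integrable_finsetSum _ fun k _ => integrable_finsetSum _ fun j _ =>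
    (integrable_cov hδ hB k j).const_mul _

theorem cov_form (hδ : Measurable δ) (hB : ∀ᵐ p ∂μ, ‖δ p‖ ≤ B) (a a' : E n) :
    ∫ p, (δ p ⬝ᵥ a) * (δ p ⬝ᵥ a') ∂μ = a ⬝ᵥ (covM μ δ).mulVec a' := by
  simp only [dot_mul_dot]
  rw [integral_finsetSum _ fun k _ => integrable_finsetSum _ fun j _ =>
    (integrable_cov hδ hB k j).const_mul _]
  unfold dotProduct Matrix.mulVec dotProduct covM
  refine Finset.sum_congr rfl fun k _ => ?_
  rw [integral_finsetSum _ fun j _ => (integrable_cov hδ hB k j).const_mul _, Finset.mul_sum]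
  refine Finset.sum_congr rfl fun j _ => ?_
  rw [integral_const_mul]
  ring

theorem cov_psd (hδ : Measurable δ) (hB : ∀ᵐ p ∂μ, ‖δ p‖ ≤ B) : (covM μ δ).PosSemidef := by
  refine Matrix.PosSemidef.of_dotProduct_mulVec_nonneg ?_ fun v => ?_
  · ext k j
    simp [covM, mul_comm]
  · rw [star_trivial, ← cov_form hδ hB]
    exact integral_nonneg fun p => mul_self_nonneg _

theorem ae_zero_of_cov (hδ : Measurable δ) (hB : ∀ᵐ p ∂μ, ‖δ p‖ ≤ B) (h : covM μ δ = 0) :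
    ∀ᵐ p ∂μ, δ p = 0 := by
  have : ∀ k, ∀ᵐ p ∂μ, δ p k = 0 := fun k => by
    have h1 : ∫ p, δ p k * δ p k ∂μ = 0 := congrFun (congrFun h k) k
    filter_upwards [(integral_eq_zero_iff_of_nonneg (fun p => mul_self_nonneg (δ p k))
      (integrable_cov hδ hB k k)).1 h1] with p hp
    exact mul_self_eq_zero.1 hp
  filter_upwards [ae_all_iff.2 this] with p hp
  exact funext hp

end cov

variable {S : Sys} {Λ : (ℝ × ℝ) ≃L[ℝ] (ℝ × ℝ)} {A : Set (S.Ω × ℕ)} {ν : S.Ω × ℕ → E n} {q : ℝ}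

/-- `hb i` is the conditional mean of the deformation -/
structure CMean (τ : Tan S Λ A ν q) (hb : Fin 3 → E n × ℝ → H n) : Prop where
  meas : ∀ i, Measurable (hb i)
  bdd : ∀ i a, ‖hb i a‖ ≤ 1
  orth : ∀ i (Φ : E n × ℝ → H n →L[ℝ] ℝ),
    ∫ d, Φ (d.1, d.2.1) (d.2.2 - hb i (d.1, d.2.1)) ∂(τ.nm i) = 0

theorem exists_cmean (τ : Tan S Λ A ν q) : ∃ hb, CMean τ hb := by
  obtain ⟨B, hB⟩ := τ.nm_supp
  choose hb h1 h2 h3 using fun i => cond_mean_dt (τ.nm i)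
    (by filter_upwards [hB i] with d hd using hd.2.2.2.2)
  exact ⟨hb, h1, h2, h3⟩

theorem X_back (τ : Tan S Λ A ν q) (x : τ.D.Ω × ℕ) :
    ((τ.X x.1).1, (dt τ x).2.1 + (dt τ x).1 1 * (τ.X x.1).1) = τ.X x.1 := by
  refine Prod.ext rfl ?_
  simp only [dt_eq, ms]
  ring

theorem xp_dt (τ : Tan S Λ A ν q) (ω : τ.D.Ω) (j j' : ℕ)
    (h : mk τ (ω, j) 1 ≠ mk τ (ω, j') 1) : xp (dt τ (ω, j)) (dt τ (ω, j')) = τ.X ω := by
  have := sub_ne_zero.2 h
  refine Prod.ext ?_ ?_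
  · simp only [xp, dt_eq, ms]
    field_simp
    ring
  · simp only [xp, dt_eq, ms]
    field_simp
    ring

theorem lineFn_of (τ : Tan S Λ A ν q) (hν : S.Marks0 ν) {β γ : Type*} {Ψ : τ.D.Ω → γ}
    (hΨ : ∀ w ω, Ψ (τ.D.T w ω) = Ψ ω) (F : γ → E n → H n → β) :
    (sp τ).LineFn fun x : τ.D.Ω × ℕ => F (Ψ x.1) (mk τ x) (τ.h x) := by
  filter_upwards [τ.h_line, hν.line.pull τ.D τ.π τ.fac] with ω h1 h2 l l' hl hl' hs
  have e1 : τ.h (τ.D.T l.1 ω, l.2) = τ.h (τ.D.T l'.1 ω, l'.2) := h1 l l' hl hl' hs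
  have e2 : mk τ (τ.D.T l.1 ω, l.2) = mk τ (τ.D.T l'.1 ω, l'.2) := h2 l l' hl hl' hs
  show F (Ψ (τ.D.T l.1 ω)) (mk τ (τ.D.T l.1 ω, l.2)) (τ.h (τ.D.T l.1 ω, l.2))
    = F (Ψ (τ.D.T l'.1 ω)) (mk τ (τ.D.T l'.1 ω, l'.2)) (τ.h (τ.D.T l'.1 ω, l'.2))
  rw [e1, e2, hΨ, hΨ]

theorem mac (hS : S.toDyn.Erg) (hΛ : S.Lin Λ) (hA : S.LineSet A) (hν : S.Marks0 ν)
    {C0 c1 : NNReal} {b c : Fin 3} (hms : MS (S.mA A ν) (S.κA A ν) C0 c1 b c)
    (hmax : S.MaxP A ν) (hq : 0 < q) (τ : Tan S Λ A ν q) {hb : Fin 3 → E n × ℝ → H n}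
    (hcm : CMean τ hb) (L : ℝ × ℝ → H n →L[ℝ] ℝ)
    (hL : Measurable fun p : (ℝ × ℝ) × H n => L p.1 p.2) {BL : ℝ}
    (hLb : ∀ X h, ‖h‖ ≤ 1 → |L X h| ≤ BL) (w : (ℝ × ℝ) × E n → ℝ) (hw : Measurable w) {Bw : ℝ}
    (hwb : ∀ X x, |w (X, ν x)| ≤ Bw)
    (hlin : (sp τ).LinT (pullS τ.π A) fun x : τ.D.Ω × ℕ =>
      L (τ.X x.1) (τ.h x) - w (τ.X x.1, mk τ x)) :
    ∃ K : ℝ × ℝ → E n, Measurable K ∧ (∃ B : ℝ, ∀ X, ‖K X‖ ≤ B) ∧ ∀ i, ∀ᵐ x ∂(W0 τ i),
      L (τ.X x.1) (τ.h x - hb i (ms τ x)) = 0 ∧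
      L (τ.X x.1) (hb i (ms τ x)) - w (τ.X x.1, mk τ x) = K (τ.X x.1) ⬝ᵥ mk τ x := by
  obtain ⟨Bν, hBν⟩ := hν.bdd
  have hmk := measurable_mk τ hν.meas
  have hX := measurable_X τ
  have hmsm := measurable_ms τ hν.meas
  have hmkb : ∀ x, ‖mk τ x‖ ≤ Bν := fun x => hBν _
  have hLm : ∀ {α : Type} [MeasurableSpace α] {f : α → ℝ × ℝ} {g : α → H n}, Measurable f →
      Measurable g → Measurable fun a => L (f a) (g a) := fun hf hg => hL.comp (hf.prodMk hg)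
  obtain ⟨K, hKm, ⟨BK, hBK⟩, hKinv, hK⟩ := hmax τ.D τ.π τ.fac
    (fun x : τ.D.Ω × ℕ => L (τ.X x.1) (τ.h x) - w (τ.X x.1, mk τ x))
    ((hLm hX τ.h_meas).sub (hw.comp (hX.prodMk hmk)))
    ⟨BL + Bw, fun x => (abs_sub _ _).trans (add_le_add (hLb _ _ (τ.h_bdd x)) (hwb _ _))⟩
    (lineFn_of τ hν τ.X_inv fun X a h => L X h - w (X, a)) hlin
  have hK' : ∀ i, ∀ᵐ x ∂(W0 τ i),
      L (τ.X x.1) (τ.h x) - w (τ.X x.1, mk τ x) = K x.1 ⬝ᵥ mk τ x := hK
  have hBK0 : 0 ≤ BK := by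
    obtain ⟨ω⟩ : Nonempty τ.D.Ω := nonempty_of_isProbabilityMeasure τ.D.μ
    exact (norm_nonneg _).trans (hBK ω)
  have hΨ : Measurable fun ω => (τ.X ω, K ω) := τ.X_meas.prodMk hKm
  set lam : Measure ((ℝ × ℝ) × E n) := τ.D.μ.map fun ω => (τ.X ω, K ω) with hlam
  have : IsProbabilityMeasure lam := Measure.isProbabilityMeasure_map hΨ.aemeasurable
  have hlaw := indep_fac τ.D S.toDyn τ.π τ.fac hS (fun ω => (τ.X ω, K ω)) hΨ
    (fun v ω => by rw [τ.X_inv, hKinv])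
  have hlamb : ∀ᵐ p ∂lam, ‖p.2‖ ≤ BK :=
    (ae_map_iff hΨ.aemeasurable (measurableSet_le measurable_snd.norm measurable_const)).2
      (ae_of_all _ hBK)
  obtain ⟨Kb, hKbm, hKbb, hKb⟩ := cond_mean lam hBK0 hlamb
  have hδb : ∀ ω, ‖K ω - Kb (τ.X ω)‖ ≤ BK + BK := fun ω =>
    (norm_sub_le _ _).trans (add_le_add (hBK ω) (hKbb _))
  have hδm : Measurable fun ω => K ω - Kb (τ.X ω) := hKm.sub (hKbm.comp τ.X_meas)
  have hLd : ∀ X i a (h : H n), ‖h‖ ≤ 1 → |L X (h - hb i a)| ≤ BL + BL := fun X i a h hh => by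
    rw [map_sub]
    exact (abs_sub _ _).trans (add_le_add (hLb _ _ hh) (hLb _ _ (hcm.bdd i a)))
  -- first moments
  set ψ : Fin 3 → (ℝ × ℝ) × E n → ℝ := fun i y =>
    L y.1 (hb i (y.2, y.1.2 - y.2 1 * y.1.1)) - w y - Kb y.1 ⬝ᵥ y.2 with hψ
  have hψm : ∀ i, Measurable (ψ i) := fun i =>
    ((hLm measurable_fst ((hcm.meas i).comp (by fun_prop))).sub hw).sub
      (measurable_dot (hKbm.comp measurable_fst) measurable_snd)
  have hfirst : ∀ i, ∀ᵐ x ∂(W0 τ i), ψ i (τ.X x.1, mk τ x) = 0 := by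
    intro i
    have hc : Measurable fun x : τ.D.Ω × ℕ => clip (ψ i (τ.X x.1, mk τ x)) :=
      measurable_clip.comp ((hψm i).comp (hX.prodMk hmk))
    have i1 : Integrable (fun x : τ.D.Ω × ℕ => clip (ψ i (τ.X x.1, mk τ x)) *
        ((K x.1 - Kb (τ.X x.1)) ⬝ᵥ mk τ x)) (W0 τ i) :=
      integrable_bdd (hc.mul (measurable_dot (hδm.comp measurable_fst) hmk)) fun x =>
        abs_mul_le' (abs_clip_le _) (abs_dot_le (hδb _) (hmkb x))
    have i2 : Integrable (fun x : τ.D.Ω × ℕ => clip (ψ i (τ.X x.1, mk τ x)) *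
        L (τ.X x.1) (τ.h x - hb i (ms τ x))) (W0 τ i) :=
      integrable_bdd (hc.mul (hLm hX (τ.h_meas.sub ((hcm.meas i).comp hmsm)))) fun x =>
        abs_mul_le' (abs_clip_le _) (hLd _ _ _ _ (τ.h_bdd x))
    have e1 : ∫ x, clip (ψ i (τ.X x.1, mk τ x)) * ((K x.1 - Kb (τ.X x.1)) ⬝ᵥ mk τ x)
        ∂(W0 τ i) = 0 := by
      have hF : Measurable fun y : (S.Ω × ℕ) × (ℝ × ℝ) × E n =>
          clip (ψ i (y.2.1, ν y.1)) * ((y.2.2 - Kb y.2.1) ⬝ᵥ ν y.1) :=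
        (measurable_clip.comp ((hψm i).comp (measurable_snd.fst.prodMk
          (hν.meas.comp measurable_fst)))).mul (measurable_dot (measurable_snd.snd.sub
            (hKbm.comp measurable_snd.fst)) (hν.meas.comp measurable_fst))
      refine int_zero_of_map (f := fun x : τ.D.Ω × ℕ => ((τ.π x.1, x.2), (τ.X x.1, K x.1)))
        ((measurable_lift τ ℕ).prodMk (hΨ.comp measurable_fst)) (W0_ind τ hA.1 i hΨ hlaw) hF
        fun a => ?_
      have := hKb fun X => clip (ψ i (X, ν a)) • dotL (ν a)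
      simp only [_root_.smul_apply, dotL_apply, smul_eq_mul] at this
      exact this
    have e2 : ∫ x, clip (ψ i (τ.X x.1, mk τ x)) * L (τ.X x.1) (τ.h x - hb i (ms τ x))
        ∂(W0 τ i) = 0 := by
      have hpt : Measurable fun y : Dt n × ℝ => (y.2, y.1.2.1 + y.1.1 1 * y.2) := by fun_prop
      have h1 := int_W0_zero τ hν.meas i (F := fun y =>
        clip (ψ i ((y.2, y.1.2.1 + y.1.1 1 * y.2), y.1.1)) *
          L (y.2, y.1.2.1 + y.1.1 1 * y.2) (y.1.2.2 - hb i (y.1.1, y.1.2.1)))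
        ((measurable_clip.comp ((hψm i).comp (hpt.prodMk measurable_fst.fst))).mul
          (hLm hpt (measurable_fst.snd.snd.sub ((hcm.meas i).comp (by fun_prop)))))
        fun x g => by
          rw [← hcm.orth i fun a => (g a * clip (ψ i ((x, a.2 + a.1 1 * x), a.1))) •
            L (x, a.2 + a.1 1 * x)]
          simp [mul_assoc]
      simp only [X_back] at h1
      exact h1
    have heq : ∀ᵐ x ∂(W0 τ i), clip (ψ i (τ.X x.1, mk τ x)) * ((K x.1 - Kb (τ.X x.1)) ⬝ᵥ mk τ x)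
        - clip (ψ i (τ.X x.1, mk τ x)) * L (τ.X x.1) (τ.h x - hb i (ms τ x))
        = clip (ψ i (τ.X x.1, mk τ x)) * ψ i (τ.X x.1, mk τ x) := by
      filter_upwards [hK' i] with x hx
      have : ψ i (τ.X x.1, mk τ x) = L (τ.X x.1) (hb i (ms τ x)) - w (τ.X x.1, mk τ x)
        - Kb (τ.X x.1) ⬝ᵥ mk τ x := rfl
      rw [← mul_sub, map_sub, sub_dotProduct, ← hx]
      congr 1
      rw [this]
      ring
    refine ae_zero_of_clip ((i1.sub i2).congr heq) ?_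
    rw [← integral_congr_ae heq, integral_sub i1 i2, e1, e2, sub_zero]
  have hP : ∀ i, ∀ᵐ x ∂(W0 τ i), L (τ.X x.1) (τ.h x - hb i (ms τ x))
      = (K x.1 - Kb (τ.X x.1)) ⬝ᵥ mk τ x := by
    intro i
    filter_upwards [hK' i, hfirst i] with x hx h0
    have : L (τ.X x.1) (hb i (ms τ x)) - w (τ.X x.1, mk τ x)
        - Kb (τ.X x.1) ⬝ᵥ mk τ x = 0 := h0
    rw [map_sub, sub_dotProduct, ← hx]
    linarith
  -- second moments
  have hδm' : Measurable fun p : (ℝ × ℝ) × E n => p.2 - Kb p.1 :=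
    measurable_snd.sub (hKbm.comp measurable_fst)
  have hδb' : ∀ᵐ p ∂lam, ‖p.2 - Kb p.1‖ ≤ BK + BK := by
    filter_upwards [hlamb] with p hp
    exact (norm_sub_le _ _).trans (add_le_add hp (hKbb _))
  set Sg := covM lam fun p : (ℝ × ℝ) × E n => p.2 - Kb p.1 with hSg
  have hσm : Measurable fun y : E n × E n => y.1 ⬝ᵥ Sg.mulVec y.2 :=
    measurable_dot measurable_fst
      ((by fun_prop : Continuous fun v : E n => Sg.mulVec v).measurable.comp measurable_snd)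
  have hsecond : ∀ i, ∀ᵐ y ∂((S.mA A ν i).prod (S.mA A ν i)),
      y.1 1 ≠ y.2 1 → y.1 ⬝ᵥ Sg.mulVec y.2 = 0 := by
    intro i
    refine pair_of_v0 τ hΛ hA hν hq i (p := fun y => y.1 ⬝ᵥ Sg.mulVec y.2 = 0)
      (measurableSet_eq_fun hσm measurable_const) ?_
    have hm1 : Measurable fun x : τ.D.Ω × ℕ × ℕ => mk τ (x.1, x.2.1) := hmk.comp (by fun_prop)
    have hm2 : Measurable fun x : τ.D.Ω × ℕ × ℕ => mk τ (x.1, x.2.2) := hmk.comp (by fun_prop)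
    have hσ : Measurable fun x : τ.D.Ω × ℕ × ℕ =>
        mk τ (x.1, x.2.1) ⬝ᵥ Sg.mulVec (mk τ (x.1, x.2.2)) := hσm.comp (hm1.prodMk hm2)
    have hσb : ∀ a a' : E n, ‖a‖ ≤ Bν → ‖a'‖ ≤ Bν → |a ⬝ᵥ Sg.mulVec a'|
        ≤ ((n + 2) * ((BK + BK) * Bν)) * ((n + 2) * ((BK + BK) * Bν)) := fun a a' ha ha' => by
      rw [hSg, ← cov_form hδm' hδb']
      have := norm_integral_le_of_norm_le_const (μ := lam)
        (f := fun p => ((p.2 - Kb p.1) ⬝ᵥ a) * ((p.2 - Kb p.1) ⬝ᵥ a'))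
        (C := ((n + 2) * ((BK + BK) * Bν)) * ((n + 2) * ((BK + BK) * Bν))) (by
          filter_upwards [hδb'] with p hp
          exact abs_mul_le' (abs_dot_le hp ha) (abs_dot_le hp ha'))
      simpa using this
    have i1 : Integrable (fun x : τ.D.Ω × ℕ × ℕ =>
        clip (mk τ (x.1, x.2.1) ⬝ᵥ Sg.mulVec (mk τ (x.1, x.2.2))) *
          (mk τ (x.1, x.2.1) ⬝ᵥ Sg.mulVec (mk τ (x.1, x.2.2)))) (V0 τ i) :=
      integrable_bdd ((measurable_clip.comp hσ).mul hσ) fun x =>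
        abs_mul_le' (abs_clip_le _) (hσb _ _ (hmkb _) (hmkb _))
    have i2 : Integrable (fun x : τ.D.Ω × ℕ × ℕ =>
        clip (mk τ (x.1, x.2.1) ⬝ᵥ Sg.mulVec (mk τ (x.1, x.2.2))) *
          (((K x.1 - Kb (τ.X x.1)) ⬝ᵥ mk τ (x.1, x.2.1)) *
            ((K x.1 - Kb (τ.X x.1)) ⬝ᵥ mk τ (x.1, x.2.2)))) (V0 τ i) :=
      integrable_bdd ((measurable_clip.comp hσ).mul
        ((measurable_dot (hδm.comp measurable_fst) hm1).mul
          (measurable_dot (hδm.comp measurable_fst) hm2))) fun x =>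
        abs_mul_le' (abs_clip_le _) (abs_mul_le' (abs_dot_le (hδb _) (hmkb _))
          (abs_dot_le (hδb _) (hmkb _)))
    have e1 : ∫ x, (clip (mk τ (x.1, x.2.1) ⬝ᵥ Sg.mulVec (mk τ (x.1, x.2.2))) *
          (mk τ (x.1, x.2.1) ⬝ᵥ Sg.mulVec (mk τ (x.1, x.2.2))) -
        clip (mk τ (x.1, x.2.1) ⬝ᵥ Sg.mulVec (mk τ (x.1, x.2.2))) *
          (((K x.1 - Kb (τ.X x.1)) ⬝ᵥ mk τ (x.1, x.2.1)) *
            ((K x.1 - Kb (τ.X x.1)) ⬝ᵥ mk τ (x.1, x.2.2)))) ∂(V0 τ i) = 0 := by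
      have n1 : Measurable fun y : (S.Ω × ℕ × ℕ) × (ℝ × ℝ) × E n => ν (y.1.1, y.1.2.1) :=
        hν.meas.comp (by fun_prop)
      have n2 : Measurable fun y : (S.Ω × ℕ × ℕ) × (ℝ × ℝ) × E n => ν (y.1.1, y.1.2.2) :=
        hν.meas.comp (by fun_prop)
      have n3 := hσm.comp (n1.prodMk n2)
      have hF : Measurable fun y : (S.Ω × ℕ × ℕ) × (ℝ × ℝ) × E n =>
          clip (ν (y.1.1, y.1.2.1) ⬝ᵥ Sg.mulVec (ν (y.1.1, y.1.2.2))) *
            (ν (y.1.1, y.1.2.1) ⬝ᵥ Sg.mulVec (ν (y.1.1, y.1.2.2))) -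
          clip (ν (y.1.1, y.1.2.1) ⬝ᵥ Sg.mulVec (ν (y.1.1, y.1.2.2))) *
            (((y.2.2 - Kb y.2.1) ⬝ᵥ ν (y.1.1, y.1.2.1)) *
              ((y.2.2 - Kb y.2.1) ⬝ᵥ ν (y.1.1, y.1.2.2))) :=
        ((measurable_clip.comp n3).mul n3).sub ((measurable_clip.comp n3).mul
          ((measurable_dot (hδm'.comp measurable_snd) n1).mul
            (measurable_dot (hδm'.comp measurable_snd) n2)))
      refine int_zero_of_map (f := fun x : τ.D.Ω × ℕ × ℕ => ((τ.π x.1, x.2), (τ.X x.1, K x.1)))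
        ((measurable_lift τ (ℕ × ℕ)).prodMk (hΨ.comp measurable_fst))
        (V0_ind τ hA.1 i hΨ hlaw) hF fun a => ?_
      dsimp only
      rw [integral_sub (integrable_const _) ((integrable_dot_dot hδm' hδb' _ _).const_mul _),
        integral_const, integral_const_mul, cov_form hδm' hδb']
      simp [hSg]
    have e2 : ∫ x, clip (mk τ (x.1, x.2.1) ⬝ᵥ Sg.mulVec (mk τ (x.1, x.2.2))) *
          (((K x.1 - Kb (τ.X x.1)) ⬝ᵥ mk τ (x.1, x.2.1)) *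
            ((K x.1 - Kb (τ.X x.1)) ⬝ᵥ mk τ (x.1, x.2.2))) ∂(V0 τ i) = 0 := by
      have h1 := int_V0_zero τ hν.meas i (F := fun y =>
        clip (y.1.1 ⬝ᵥ Sg.mulVec y.2.1) *
          (L (xp y.1 y.2) (y.1.2.2 - hb i (y.1.1, y.1.2.1)) *
            L (xp y.1 y.2) (y.2.2.2 - hb i (y.2.1, y.2.2.1))))
        ((measurable_clip.comp (hσm.comp (measurable_fst.fst.prodMk measurable_snd.fst))).mul
          ((hLm measurable_xp (measurable_fst.snd.snd.sub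
            ((hcm.meas i).comp (by fun_prop)))).mul
          (hLm measurable_xp (measurable_snd.snd.snd.sub ((hcm.meas i).comp (by fun_prop))))))
        fun d' g => by
          rw [← hcm.orth i fun a => (g a * clip (a.1 ⬝ᵥ Sg.mulVec d'.1) *
            L (xp (a.1, a.2, 0) d') (d'.2.2 - hb i (d'.1, d'.2.1))) • L (xp (a.1, a.2, 0) d')]
          refine integral_congr_ae (ae_of_all _ fun d => ?_)
          have : xp (d.1, d.2.1, (0 : H n)) d' = xp d d' := rfl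
          simp only [this, _root_.smul_apply, smul_eq_mul]
          ring
      rw [← h1]
      refine integral_congr_ae ?_
      have h2 := ext_pm (S := sp τ) (hA.pull τ.D τ.π τ.fac) i
        (lineFn_of τ hν (Ψ := fun ω => (τ.X ω, K ω)) (fun v ω => by rw [τ.X_inv, hKinv])
          fun y a h => L y.1 (h - hb i (a, y.1.2 - a 1 * y.1.1)) = (y.2 - Kb y.1) ⬝ᵥ a) (hP i)
      have h3 : ∀ᵐ x ∂(V0 τ i), mk τ (x.1, x.2.1) 1 ≠ mk τ (x.1, x.2.2) 1 := by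
        refine ae_restrict_of_ae ?_
        filter_upwards [ae_pm (S := sp τ) i i] with x hx
        have s1 : mk τ (x.1, x.2.1) 1 = (sp τ).sl (x.1, x.2.1) := hν.slope _ hx.1
        have s2 : mk τ (x.1, x.2.2) 1 = (sp τ).sl (x.1, x.2.2) := hν.slope _ hx.2.1
        rw [s1, s2]
        exact hx.2.2.2.2
      have h2' : ∀ᵐ x ∂(V0 τ i),
          L (τ.X x.1) (τ.h (x.1, x.2.1) - hb i (ms τ (x.1, x.2.1)))
            = (K x.1 - Kb (τ.X x.1)) ⬝ᵥ mk τ (x.1, x.2.1) ∧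
          L (τ.X x.1) (τ.h (x.1, x.2.2) - hb i (ms τ (x.1, x.2.2)))
            = (K x.1 - Kb (τ.X x.1)) ⬝ᵥ mk τ (x.1, x.2.2) := h2
      filter_upwards [h2', h3] with x hx hne
      rw [xp_dt τ _ _ _ hne, ← hx.1, ← hx.2]
      rfl
    refine ae_zero_of_clip i1 ?_
    rw [integral_sub i1 i2, e2, sub_zero] at e1
    exact e1
  have hSg0 : Sg = 0 := hms.cov_zero Sg (cov_psd hδm' hδb') (hsecond b) (hsecond c)
  have hKeq : ∀ᵐ ω ∂τ.D.μ, K ω - Kb (τ.X ω) = 0 :=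
    ae_of_ae_map hΨ.aemeasurable (ae_zero_of_cov hδm' hδb' hSg0)
  refine ⟨Kb, hKbm, ⟨BK, hKbb⟩, fun i => ?_⟩
  have h4 : ∀ᵐ x ∂(W0 τ i), K x.1 - Kb (τ.X x.1) = 0 :=
    ae_restrict_of_ae (ae_mh_of_ae (S := sp τ) i hKeq)
  filter_upwards [hP i, hfirst i, h4] with x h1 h2 h3
  refine ⟨by rw [h1, h3, zero_dotProduct], ?_⟩
  exact sub_eq_zero.1 h2

end ECub.R
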